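import Pool.Agent.Helper34.B1.InC

/-!
B1-14b.  From good coordinates to `B1In`: the point `u`, `E_3` and `E_4` of the plane, `dim K_P ≤ 3`.
-/

set_option autoImplicit false

namespace Pool.Agent.Helper34.B1

open MvPolynomial
open scoped BigOperators
open Pool.Agent.Helper71.FL (w12 pf ct Dec Closed dd at0 emb res)
open Pool.Agent.Helper93 (lsub lmap OF pb)
open Pool.Agent.Helper71.FC
open Pool.Agent.Helper12.Z4 (KX RL mem_RL mem_KX avE avE_coe avE_inj)

private theorem lf_add' {m : ℕ} (a b : Fin m → ℂ) : lf (a + b) = lf a + lf b := by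
  unfold lf
  rw [← Finset.sum_add_distrib]
  exact Finset.sum_congr rfl fun i _ => by rw [Pi.add_apply, C_add, add_mul]

private theorem lf_smul' {m : ℕ} (c : ℂ) (a : Fin m → ℂ) : lf (c • a) = C c * lf a := by
  unfold lf
  rw [Finset.mul_sum]
  exact Finset.sum_congr rfl fun i _ => by rw [Pi.smul_apply, smul_eq_mul, C_mul, mul_assoc]

private theorem lf_hom' {m : ℕ} (a : Fin m → ℂ) : (lf a).IsHomogeneous 1 := by
  unfold lf
  apply IsHomogeneous.sum
  intro i _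
  have := (isHomogeneous_C (Fin m) (a i)).mul (isHomogeneous_X ℂ i)
  rwa [zero_add] at this

variable {θ : F2 5}

/-- `(v, y) ↦ a_v|P - y σ` -/
noncomputable def Ph (θ : F2 5) (h : Fol θ) (σ : F1 3) (hσ : σ ∈ EE (rs2 (rs2 θ)) 2) :
    ((Fin 5 → ℂ) × (Fin 3 → ℂ)) →ₗ[ℂ] EE (rs2 (rs2 θ)) 3 where
  toFun p := ⟨fun j => aP θ p.1 j - lf p.2 * σ j, by
    refine (EE (rs2 (rs2 θ)) 3).sub_mem (aP_mem h p.1) (⟨fun j => ?_, fun i j k => ?_⟩ :
      (fun j => lf p.2 * σ j) ∈ EE (rs2 (rs2 θ)) 3)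
    · exact (lf_hom' p.2).mul (hσ.1 j)
    · rw [Pool.Agent.Helper71.FL.w12_smul, hσ.2, mul_zero]⟩
  map_add' p q := Subtype.ext (by
    funext j
    show aP θ (p.1 + q.1) j - lf (p.2 + q.2) * σ j =
      (aP θ p.1 j - lf p.2 * σ j) + (aP θ q.1 j - lf q.2 * σ j)
    rw [aP_add, lf_add', Pi.add_apply]
    ring)
  map_smul' c p := Subtype.ext (by
    funext j
    show aP θ (c • p.1) j - lf (c • p.2) * σ j = c • (aP θ p.1 j - lf p.2 * σ j)
    rw [aP_smul, lf_smul', Pi.smul_apply, smul_eq_C_mul, smul_eq_C_mul]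
    ring)

/-- the linear forms `y` with `y σ ∈ A|P` -/
noncomputable def Wy (θ : F2 5) (σ : F1 3) : Submodule ℂ (Fin 3 → ℂ) where
  carrier := {y | ∃ v, ∀ j, aP θ v j = lf y * σ j}
  add_mem' := by
    rintro y y' ⟨v, hv⟩ ⟨v', hv'⟩
    refine ⟨v + v', fun j => ?_⟩
    rw [aP_add, lf_add', Pi.add_apply, hv, hv', add_mul]
  zero_mem' := by
    refine ⟨0, fun j => ?_⟩
    have h1 : aP θ (0 : Fin 5 → ℂ) = 0 := by
      have := aP_smul θ 0 0
      rwa [zero_smul, zero_smul] at this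
    have h2 : lf (0 : Fin 3 → ℂ) = 0 := by
      unfold lf
      simp
    rw [h1, h2, Pi.zero_apply, zero_mul]
  smul_mem' := by
    rintro c y ⟨v, hv⟩
    refine ⟨c • v, fun j => ?_⟩
    rw [aP_smul, lf_smul', Pi.smul_apply, hv, smul_eq_C_mul, mul_assoc]

theorem InC.exists_s (h : InC θ) : ∃ σ : F1 3, σ ≠ 0 ∧ σ ∈ EE (rs2 (rs2 θ)) 2 ∧
    ∀ ζ ∈ EE (rs2 (rs2 θ)) 2, ∃ c : ℂ, ζ = c • σ := by
  obtain ⟨⟨σ, hσ⟩, h0, h1⟩ := finrank_eq_one_iff'.1 h.p2
  refine ⟨σ, fun h2 => h0 (Subtype.ext h2), hσ, fun ζ hζ => ?_⟩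
  obtain ⟨c, hc⟩ := h1 ⟨ζ, hζ⟩
  exact ⟨c, (congrArg Subtype.val hc).symm⟩

theorem InC.Wy_le (h : InC θ) {σ : F1 3} (hσ : σ ∈ EE (rs2 (rs2 θ)) 2) (hσ0 : σ ≠ 0) :
    Module.finrank ℂ (Wy θ σ) ≤ 2 := by
  by_contra hcon
  push Not at hcon
  have h1 : Wy θ σ = ⊤ := by
    apply Submodule.eq_top_of_finrank_eq
    have h2 := Submodule.finrank_le (Wy θ σ)
    rw [Module.finrank_fin_fun] at h2 ⊢
    omega
  refine no_VP h.folH h.h2 h.fH.le h.folP hσ hσ0 (fun y => ?_)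
  have h2 : y ∈ Wy θ σ := by rw [h1]; exact Submodule.mem_top
  obtain ⟨v, hv⟩ := h2
  exact ⟨aH θ v, aH_mem h.cy.fol v, hv⟩

/-- `ker Ph ≅ Wy` -/
theorem InC.ker_Ph (h : InC θ) {σ : F1 3} (hσ : σ ∈ EE (rs2 (rs2 θ)) 2) :
    Module.finrank ℂ (LinearMap.ker (Ph θ h.cy.fol σ hσ)) ≤ Module.finrank ℂ (Wy θ σ) := by
  let L : LinearMap.ker (Ph θ h.cy.fol σ hσ) →ₗ[ℂ] Wy θ σ :=
    { toFun := fun p => ⟨p.1.2, p.1.1, fun j => by
        have h1 := congrFun (congrArg Subtype.val (LinearMap.mem_ker.1 p.2)) j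
        have h2 : aP θ p.1.1 j - lf p.1.2 * σ j = 0 := h1
        exact sub_eq_zero.1 h2⟩
      map_add' := fun _ _ => rfl
      map_smul' := fun _ _ => rfl }
  apply LinearMap.finrank_le_finrank_of_injective (f := L)
  intro p q hpq
  have h1 : p.1.2 = q.1.2 := congrArg Subtype.val hpq
  have h2 : aP θ (p.1.1 - q.1.1) = 0 := by
    funext j
    have hp : aP θ p.1.1 j - lf p.1.2 * σ j = 0 :=
      congrFun (congrArg Subtype.val (LinearMap.mem_ker.1 p.2)) j
    have hq : aP θ q.1.1 j - lf q.1.2 * σ j = 0 :=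
      congrFun (congrArg Subtype.val (LinearMap.mem_ker.1 q.2)) j
    have h3 : aP θ (p.1.1 - q.1.1) = aP θ p.1.1 + (-1 : ℂ) • aP θ q.1.1 := by
      rw [← aP_smul, ← aP_add, neg_one_smul, sub_eq_add_neg]
    rw [h3, Pi.add_apply, Pi.smul_apply, smul_eq_C_mul, Pi.zero_apply, C_neg, C_1]
    rw [h1] at hp
    linear_combination hp - hq
  have h4 := h.injP h2
  exact Subtype.ext (Prod.ext (sub_eq_zero.1 h4) h1)

theorem InC.finrank_Wy (h : InC θ) {σ : F1 3} (hσ : σ ∈ EE (rs2 (rs2 θ)) 2) (hσ0 : σ ≠ 0) :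
    Module.finrank ℂ (Wy θ σ) = 2 ∧ Function.Surjective (Ph θ h.cy.fol σ hσ) := by
  have hfin := finite_EE (rs2 (rs2 θ)) 3
  have h1 := LinearMap.finrank_range_add_finrank_ker (Ph θ h.cy.fol σ hσ)
  have h2 : Module.finrank ℂ ((Fin 5 → ℂ) × (Fin 3 → ℂ)) = 8 := by
    rw [Module.finrank_prod, Module.finrank_fin_fun, Module.finrank_fin_fun]
  have h3 := Submodule.finrank_le (LinearMap.range (Ph θ h.cy.fol σ hσ))
  have h4 := h.ker_Ph hσ
  have h5 := h.Wy_le hσ hσ0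
  rw [h.p3] at h3
  rw [h2] at h1
  refine ⟨by omega, ?_⟩
  rw [← LinearMap.range_eq_top]
  apply Submodule.eq_top_of_finrank_eq
  rw [h.p3]
  omega

theorem InC.exists_u (h : InC θ) {σ : F1 3} (hσ : σ ∈ EE (rs2 (rs2 θ)) 2) (hσ0 : σ ≠ 0) :
    ∃ u : Fin 3 → ℂ, u ≠ 0 ∧ ∀ y, y ∈ Wy θ σ ↔ ∑ l, y l * u l = 0 := by
  have h2 := (h.finrank_Wy hσ hσ0).1
  have hlt : Wy θ σ < ⊤ := by
    rw [lt_top_iff_ne_top]
    intro h3
    rw [h3, finrank_top, Module.finrank_fin_fun] at h2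
    omega
  obtain ⟨f, hf0, hf⟩ := Submodule.exists_le_ker_of_lt_top _ hlt
  have hfe : ∀ y, f y = ∑ l, y l * f (Pi.single l 1) := by
    intro y
    have h4 : y = ∑ l, y l • (Pi.single l 1 : Fin 3 → ℂ) := by
      funext i
      simp [Pi.single_apply]
    conv_lhs => rw [h4]
    rw [map_sum]
    refine Finset.sum_congr rfl fun l _ => ?_
    rw [map_smul, smul_eq_mul]
  have hker : Wy θ σ = LinearMap.ker f := by
    apply Submodule.eq_of_le_of_finrank_le hf
    have h5 := LinearMap.finrank_range_add_finrank_ker f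
    rw [Module.finrank_fin_fun] at h5
    have h6 : 0 < Module.finrank ℂ (LinearMap.range f) := by
      rw [Module.finrank_pos_iff_exists_ne_zero]
      obtain ⟨y, hy⟩ : ∃ y, f y ≠ 0 := by
        by_contra hcon
        push Not at hcon
        exact hf0 (LinearMap.ext hcon)
      exact ⟨⟨f y, y, rfl⟩, fun h7 => hy (congrArg Subtype.val h7)⟩
    omega
  refine ⟨fun l => f (Pi.single l 1), fun h0 => hf0 ?_, fun y => ?_⟩
  · apply LinearMap.ext
    intro y
    rw [hfe]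
    have : ∀ l, f (Pi.single l 1) = 0 := fun l => congrFun h0 l
    simp [this]
  · rw [hker, LinearMap.mem_ker, hfe]

theorem InC.e3P (h : InC θ) {σ : F1 3} (hσ : σ ∈ EE (rs2 (rs2 θ)) 2) (hσ0 : σ ≠ 0) :
    ∀ ζ ∈ EE (rs2 (rs2 θ)) 3, ∃ v y, ∀ j, ζ j = aP θ v j + lf y * σ j := by
  intro ζ hζ
  obtain ⟨⟨v, y⟩, hvy⟩ := (h.finrank_Wy hσ hσ0).2 ⟨ζ, hζ⟩
  refine ⟨v, -y, fun j => ?_⟩
  have h1 : aP θ v j - lf y * σ j = ζ j := congrFun (congrArg Subtype.val hvy) j
  have h2 : lf (-y) = - lf y := by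
    have := lf_smul' (-1) y
    rw [neg_one_smul, C_neg, C_1, neg_one_mul] at this
    exact this
  rw [h2, ← h1]
  ring

/-- `K ↦ ∑ X l a_(K l)|P` -/
noncomputable def Ps (θ : F2 5) (h : Fol θ) : (Fin 3 → Fin 5 → ℂ) →ₗ[ℂ] EE (rs2 (rs2 θ)) 4 where
  toFun K := ⟨fun j => ∑ l, X l * aP θ (K l) j, by
    refine ⟨fun j => ?_, fun i j k => ?_⟩
    · apply IsHomogeneous.sum
      intro l _
      have := (isHomogeneous_X ℂ l).mul ((aP_mem h (K l)).1 j)
      exact this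
    · have h1 : w12 (fun j => ∑ l, X l * aP θ (K l) j) (rs2 (rs2 θ)) i j k =
          ∑ l, X l * w12 (aP θ (K l)) (rs2 (rs2 θ)) i j k := by
        unfold w12
        simp only [Finset.sum_mul, mul_add, Finset.sum_add_distrib, mul_assoc]
      rw [h1]
      exact Finset.sum_eq_zero fun l _ => by rw [(aP_mem h (K l)).2, mul_zero]⟩
  map_add' K K' := Subtype.ext (by
    funext j
    show ∑ l, X l * aP θ (K l + K' l) j = ∑ l, X l * aP θ (K l) j + ∑ l, X l * aP θ (K' l) j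
    rw [← Finset.sum_add_distrib]
    refine Finset.sum_congr rfl fun l _ => ?_
    rw [aP_add, Pi.add_apply, mul_add])
  map_smul' c K := Subtype.ext (by
    funext j
    show ∑ l, X l * aP θ (c • K l) j = c • ∑ l, X l * aP θ (K l) j
    rw [smul_eq_C_mul, Finset.mul_sum]
    refine Finset.sum_congr rfl fun l _ => ?_
    rw [aP_smul, Pi.smul_apply, smul_eq_C_mul]
    ring)

theorem InC.finrank_KP (h : InC θ) : Module.finrank ℂ (KPs θ) ≤ 3 := by
  obtain ⟨σ, hσ0, hσ, hsp⟩ := h.exists_s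
  obtain ⟨u, hu0, hu⟩ := h.exists_u hσ hσ0
  obtain ⟨y0, hy0⟩ : ∃ y0 : Fin 3 → ℂ, ∑ l, y0 l * u l = 1 := by
    obtain ⟨i, hi⟩ := Function.ne_iff.mp hu0
    have hi' : u i ≠ 0 := hi
    refine ⟨Pi.single i (u i)⁻¹, ?_⟩
    rw [Finset.sum_eq_single i]
    · rw [Pi.single_eq_same, inv_mul_cancel₀ hi']
    · intro l _ hl
      rw [Pi.single_eq_of_ne hl, zero_mul]
    · intro hh
      exact absurd (Finset.mem_univ _) hh
  have hfin := finite_EE (rs2 (rs2 θ)) 4
  -- the extra element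
  have hτm : (fun j => lf y0 * (lf y0 * σ j)) ∈ EE (rs2 (rs2 θ)) 4 := by
    refine ⟨fun j => (lf_hom' y0).mul ((lf_hom' y0).mul (hσ.1 j)), fun i j k => ?_⟩
    rw [Pool.Agent.Helper71.FL.w12_smul, Pool.Agent.Helper71.FL.w12_smul, hσ.2, mul_zero,
      mul_zero]
  set R := LinearMap.range (Ps θ h.cy.fol) with hR
  -- every `lf y * lf y0 * σ` is in the range plus the extra element
  have hY : ∀ y : Fin 3 → ℂ, y ∈ Wy θ σ → ∀ z : Fin 3 → ℂ,
      ∃ ρ ∈ R, ∀ j, (ρ : F1 3) j = lf z * (lf y * σ j) := by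
    rintro y ⟨v, hv⟩ z
    refine ⟨Ps θ h.cy.fol (fun l => z l • v), ⟨_, rfl⟩, fun j => ?_⟩
    show ∑ l, X l * aP θ (z l • v) j = _
    rw [← hv j]
    unfold lf
    rw [Finset.sum_mul]
    refine Finset.sum_congr rfl fun l _ => ?_
    rw [aP_smul, Pi.smul_apply, smul_eq_C_mul]
    ring
  have hdec : ∀ y : Fin 3 → ℂ, ∃ y' ∈ Wy θ σ, y = y' + (∑ l, y l * u l) • y0 := by
    intro y
    refine ⟨y - (∑ l, y l * u l) • y0, ?_, by rw [sub_add_cancel]⟩
    rw [hu]
    simp only [Pi.sub_apply, Pi.smul_apply, smul_eq_mul, sub_mul, Finset.sum_sub_distrib]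
    have h5 : ∑ i, (∑ l, y l * u l) * y0 i * u i = (∑ l, y l * u l) * ∑ i, y0 i * u i := by
      rw [Finset.mul_sum]
      exact Finset.sum_congr rfl fun l _ => by ring
    rw [h5, hy0, mul_one, sub_self]
  have hspan : ∀ ξ : EE (rs2 (rs2 θ)) 4, ∃ ρ ∈ R, ∃ c : ℂ,
      ξ = ρ + c • (⟨_, hτm⟩ : EE (rs2 (rs2 θ)) 4) := by
    rintro ⟨ξ, hξ⟩
    obtain ⟨f, hf, hf2⟩ := h.pg 3 le_rfl ξ hξ
    have h6 : ∀ l, ∃ v y, ∀ j, f l j = aP θ v j + lf y * σ j := fun l => h.e3P hσ hσ0 (f l) (hf l)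
    choose v y hvy using h6
    choose y' hy' hy'2 using fun l => hdec (y l)
    choose ρ1 hρ1 hρ1' using fun l => hY (y' l) (hy' l) (Pi.single l 1)
    -- the rest
    set c : Fin 3 → ℂ := fun l => ∑ m, y l m * u m with hc
    obtain ⟨c', hc', hc'2⟩ := hdec c
    obtain ⟨ρ2, hρ2, hρ2'⟩ := hY c' hc' y0
    have hX : ∀ l : Fin 3, lf (Pi.single l 1 : Fin 3 → ℂ) = X l := by
      intro l
      unfold lf
      rw [Finset.sum_eq_single l]
      · rw [Pi.single_eq_same, C_1, one_mul]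
      · intro m _ hm
        rw [Pi.single_eq_of_ne hm, C_0, zero_mul]
      · intro hh
        exact absurd (Finset.mem_univ _) hh
    refine ⟨Ps θ h.cy.fol v + (∑ l, ρ1 l + ρ2), R.add_mem ⟨_, rfl⟩
      (R.add_mem (R.sum_mem fun l _ => hρ1 l) hρ2), ∑ l, c l * u l, Subtype.ext ?_⟩
    funext j
    show ξ j = ((Ps θ h.cy.fol v : F1 3) j + (((∑ l, ρ1 l : EE (rs2 (rs2 θ)) 4) : F1 3) j +
      (ρ2 : F1 3) j)) + (∑ l, c l * u l) • (lf y0 * (lf y0 * σ j))
    have h7 : ((∑ l, ρ1 l : EE (rs2 (rs2 θ)) 4) : F1 3) j = ∑ l, X l * (lf (y' l) * σ j) := by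
      rw [AddSubmonoidClass.coe_finsetSum, Finset.sum_apply]
      refine Finset.sum_congr rfl fun l _ => ?_
      rw [hρ1', hX]
    have h8 : (Ps θ h.cy.fol v : F1 3) j = ∑ l, X l * aP θ (v l) j := rfl
    rw [h7, h8, hρ2', smul_eq_C_mul]
    have h9 : ξ j = ∑ l, X l * (aP θ (v l) j + lf (y l) * σ j) := by
      rw [hf2]
      exact Finset.sum_congr rfl fun l _ => by rw [hvy]
    have h10 : ∀ l, lf (y l) = lf (y' l) + C (c l) * lf y0 := by
      intro l
      conv_lhs => rw [hy'2 l]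
      rw [lf_add', lf_smul']
    have h11 : lf c = lf c' + C (∑ l, c l * u l) * lf y0 := by
      conv_lhs => rw [hc'2]
      rw [lf_add', lf_smul']
    have h12 : lf c = ∑ l, X l * C (c l) := by
      unfold lf
      exact Finset.sum_congr rfl fun l _ => mul_comm _ _
    rw [h9]
    have h13 : ∀ l, X l * (aP θ (v l) j + lf (y l) * σ j) =
        X l * aP θ (v l) j + X l * (lf (y' l) * σ j) + (X l * C (c l)) * (lf y0 * σ j) := by
      intro l
      rw [h10]
      ring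
    rw [Finset.sum_congr rfl fun l _ => h13 l, Finset.sum_add_distrib, Finset.sum_add_distrib,
      ← Finset.sum_mul, ← h12, h11]
    ring
  -- dimension count
  have h14 : R ⊔ Submodule.span ℂ {(⟨_, hτm⟩ : EE (rs2 (rs2 θ)) 4)} = ⊤ := by
    rw [eq_top_iff]
    intro ξ _
    obtain ⟨ρ, hρ, c, hc⟩ := hspan ξ
    rw [hc]
    exact Submodule.add_mem_sup hρ (Submodule.smul_mem _ _ (Submodule.mem_span_singleton_self _))
  have h15 := Submodule.finrank_add_le_finrank_add_finrank R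
    (Submodule.span ℂ {(⟨_, hτm⟩ : EE (rs2 (rs2 θ)) 4)})
  rw [h14, finrank_top, h.p4] at h15
  have h16 : Module.finrank ℂ (Submodule.span ℂ {(⟨_, hτm⟩ : EE (rs2 (rs2 θ)) 4)}) ≤ 1 := by
    refine (finrank_span_le_card _).trans ?_
    simp
  have h17 : Module.finrank ℂ R + Module.finrank ℂ (LinearMap.ker (Ps θ h.cy.fol)) = _ :=
    LinearMap.finrank_range_add_finrank_ker (Ps θ h.cy.fol)
  have h18 : Module.finrank ℂ (Fin 3 → Fin 5 → ℂ) = 15 := by
    rw [Module.finrank_pi_fintype]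
    simp
  have h19 : Module.finrank ℂ (KPs θ) = Module.finrank ℂ (LinearMap.ker (Ps θ h.cy.fol)) := by
    have : KPs θ = LinearMap.ker (Ps θ h.cy.fol) := by
      ext K
      rw [LinearMap.mem_ker]
      constructor
      · intro hK
        exact Subtype.ext (funext hK)
      · intro hK j
        exact congrFun (congrArg Subtype.val hK) j
    rw [this]
  rw [h18] at h17
  omega

/-- good coordinates give the input of block B1 -/
theorem InC.to_B1In (h : InC θ) : ∃ σ u T, B1In θ σ u T := by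
  obtain ⟨σ, hσ0, hσ, hsp⟩ := h.exists_s
  obtain ⟨u, hu0, hu⟩ := h.exists_u hσ hσ0
  have h1 := h.finrank_KP
  have h2 := h.finrank_KV
  have h3 : Module.finrank ℂ (KVs θ) ≤ Module.finrank ℂ (KPs θ) :=
    LinearMap.finrank_le_finrank_of_injective h.rVP_inj
  have h4 : Module.finrank ℂ (KVs θ) = 3 := by omega
  let b := Module.finBasisOfFinrankEq ℂ (KVs θ) h4
  refine ⟨σ, u, fun k => (b k).1, ?_⟩
  have hsum : ∀ c : Fin 3 → ℂ, ∑ k, c k • toP (b k).1 = toP ((∑ k, c k • b k : KVs θ)).1 := by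
    intro c
    rw [AddSubmonoidClass.coe_finsetSum]
    funext l i
    unfold toP
    simp only [Finset.sum_apply, Pi.smul_apply]
    rfl
  exact
    { cy := h.cy
      folH := h.folH
      folP := h.folP
      hzV := h.hzV
      hzH := h.hzH
      eH := h.eH
      eP := by
        intro k hk
        interval_cases k
        · exact h.p0
        · exact h.p1
      e3V := h.e3V
      e3H := h.e3H
      inj := fun v hv => h.injP hv
      s0 := hσ0
      sE := hσ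
      sspan := hsp
      e3P := h.e3P hσ hσ0
      gen := h.pg
      u0 := hu0
      vp := fun v y hv => (hu y).1 ⟨v, hv⟩
      pv := fun y hy => (hu y).2 hy
      KV := fun k => (b k).2
      KP := by
        intro K hK
        obtain ⟨K', hK'⟩ := h.rVP_surj ⟨K, hK⟩
        refine ⟨fun k => b.repr K' k, ?_⟩
        rw [hsum, b.sum_repr]
        exact (congrArg Subtype.val hK').symm
      KPi := by
        intro c hc
        rw [hsum] at hc
        have h5 := KV_eq_zero h.cy (∑ k, c k • b k : KVs θ).2 hc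
        have h6 : (∑ k, c k • b k : KVs θ) = 0 := Subtype.ext h5
        have h7 := b.linearIndependent
        rw [Fintype.linearIndependent_iff] at h7
        exact funext (h7 c h6) }

end Pool.Agent.Helper34.B1
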