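import Pool.Agent.Helper34.B1.Main
import Pool.Agent.Helper34.B1.InD

/-!
B1-14.  Entrance to block B1.  `PlaneGen` is (P2) of helper53's PLANE, `HRel` is (H2) of helper57's block ZH.
-/

set_option autoImplicit false

namespace Pool.Agent.Helper34.B1

open MvPolynomial
open scoped BigOperators
open Pool.Agent.Helper71.FL (w12 pf ct Dec Closed dd at0 emb res)
open Pool.Agent.Helper93 (lsub lmap OF pb)
open Pool.Agent.Helper71.FC
open Pool.Agent.Helper12.Z4 (KX RL)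

/-- (P2): planes with `e_2 = 1`, `e_3 = 6` -/
def PlaneGen : Prop := ∀ θ : F2 3, Fol θ → EE θ 0 = ⊥ → EE θ 1 = ⊥ → Module.finrank ℂ (EE θ 2) = 1 →
  Module.finrank ℂ (EE θ 3) = 6 → Module.finrank ℂ (EE θ 4) = 13 ∧
    ∀ k, 3 ≤ k → ∀ ξ ∈ EE θ (k + 1), ∃ f : Fin 3 → F1 3, (∀ l, f l ∈ EE θ k) ∧ ∀ j, ξ j = ∑ l, X l * f l j

/-- (H2): at least three linear relations on a general hyperplane -/
def HRel : Prop := ∀ η : F2 4, Fol η → EE η 2 = ⊥ → ge η 3 0 = 0 → ge η 3 1 = 0 → ge η 3 2 = 1 →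
  ge η 3 3 = 6 → Module.finrank ℂ (EE η 3) = 5 → 3 ≤ Module.finrank ℂ (RL η)

private theorem bot_of {n : ℕ} {θ : F2 n} {d : ℕ} (h : Module.finrank ℂ (EE θ d) = 0) : EE θ d = ⊥ := by
  have := finite_EE θ d
  exact Submodule.finrank_eq_zero.1 h

theorem exists_InC (hP : PlaneGen) (hR : HRel) {θ : F2 5} (h : CY θ) (g0 : ge θ 3 0 = 0) (g1 : ge θ 3 1 = 0)
    (g2 : ge θ 3 2 = 1) (g3 : ge θ 3 3 = 6) (g42 : ge θ 4 2 = 0) (g43 : ge θ 4 3 = 5)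
    (e3 : Module.finrank ℂ (EE θ 3) = 5) : ∃ g, InC (pb2 g θ) := by
  have hq := (((((ge_gen θ 4 2).and (ge_gen θ 4 3)).and (ge_pb2 θ (m := 3) (k := 4) (by norm_num)
    (by norm_num) 0)).and (ge_pb2 θ (m := 3) (k := 4) (by norm_num) (by norm_num) 1)).and
    (ge_pb2 θ (m := 3) (k := 4) (by norm_num) (by norm_num) 2)).and
    (ge_pb2 θ (m := 3) (k := 4) (by norm_num) (by norm_num) 3)
  have hr := (((ge_gen θ 3 0).and (ge_gen θ 3 1)).and (ge_gen θ 3 2)).and (ge_gen θ 3 3)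
  obtain ⟨g, g', hg, -, hqg, hrg, hF, hz1, hF1, hz2, hF2⟩ :=
    exists_flag2 (n := 3) le_rfl h.fol (p := fun _ => True)
      ((GenM.inv 5).mono fun _ _ => trivial) hq hr
  obtain ⟨⟨⟨⟨⟨q1, q2⟩, q3⟩, q4⟩, q5⟩, q6⟩ := hqg
  obtain ⟨⟨⟨r0, r1⟩, r2⟩, r3⟩ := hrg
  have hH : rs2 (pb2 g θ) = pb2 (fun i (j : Fin 4) => g i j.succ) θ := rs2_pb2 g θ
  have hPP : rs2 (rs2 (pb2 g θ)) = pb2 (fun i (j : Fin 3) => g i j.succ.succ) θ := by
    rw [rs2_pb2, rs2_eq_pb2, pb2_mm]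
    congr 1
    funext i j
    show ∑ l : Fin 4, g i l.succ * (if l = j.succ then (1 : ℂ) else 0) = _
    simp
  rw [← hH] at q1 q2 q3 q4 q5 q6
  rw [← hPP] at r0 r1 r2 r3
  rw [g0] at q3 r0
  rw [g1] at q4 r1
  rw [g2] at q5 r2
  rw [g3] at q6 r3
  rw [g42] at q1
  rw [g43] at q2
  obtain ⟨hp4, hpg⟩ := hP _ hF2 (bot_of r0) (bot_of r1) r2 r3
  have hCY : CY (pb2 g θ) := by
    refine ⟨hF, fun hc => h.nc ((Cone_pb2 θ hg).1 hc), bot_of ?_, bot_of ?_, bot_of ?_⟩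
    · rw [finrank_EE_pb2 θ 0 hg, h.e0, finrank_bot]
    · rw [finrank_EE_pb2 θ 1 hg, h.e1, finrank_bot]
    · rw [finrank_EE_pb2 θ 2 hg, h.e2, finrank_bot]
  exact ⟨g,
    { cy := hCY
      folH := hF1
      folP := hF2
      hzV := hz1
      hzH := hz2
      h2 := bot_of q1
      p0 := bot_of r0
      p1 := bot_of r1
      p2 := r2
      p3 := r3
      p4 := hp4
      pg := hpg
      fV := by rw [finrank_EE_pb2 θ 3 hg, e3]
      fH := q2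
      rl := hR _ hF1 (bot_of q1) q3 q4 q5 q6 q2 }⟩

theorem b1_input (hP : PlaneGen) (hR : HRel) {θ : F2 5} (h : CY θ) (g0 : ge θ 3 0 = 0) (g1 : ge θ 3 1 = 0)
    (g2 : ge θ 3 2 = 1) (g3 : ge θ 3 3 = 6) (g42 : ge θ 4 2 = 0) (g43 : ge θ 4 3 = 5)
    (e3 : Module.finrank ℂ (EE θ 3) = 5) : False := by
  obtain ⟨g, hg⟩ := exists_InC hP hR h g0 g1 g2 g3 g42 g43 e3
  obtain ⟨σ, u, T, hB⟩ := hg.to_B1In
  exact B1_false hB

end Pool.Agent.Helper34.B1
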