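import Pool.Agent.Helper34.B1.Defs

/-!
B1-1.  Syzygies of two linear forms, rank of tangent linear fields.

* `two_syz`: `a, b` independent, so `lf a` is prime (`prime_of_hom_one`) and does not divide `lf b`;
  `lf b * η j = - lf a * ξ j` gives `lf a ∣ η j`, `η j = - lf a * ζ j`, cancel.
* `rank3`: if the span of the `K l` has dimension `≤ 2`, write `K l = α l • v + β l • w`.  Then
  `∑ l, X l * av θ (K l) = lf α * av θ v + lf β * av θ w = 0` (`av` is linear in the vector).  If `α, β` are linearly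
  dependent (or the span has dimension `≤ 1`) this is `lf α' * av θ v' = 0` with `K l = α' l • v'`: `av θ v' = 0`, so `v' = 0`
  as `θ` is not a cone, `K = 0`.  If `v, w` are dependent the same.  Otherwise `two_syz`: `av θ v = lf β * ζ` with
  `ζ ∈ EE θ 2 = ⊥` (`ζ ∧ θ = 0` because `lf β * (ζ ∧ θ) = av θ v ∧ θ = 0`), so `v = 0`.
* `KV_eq_zero`: `toP K = 0` means `K l = 0` for `l ≠ 0, 1`, the span has dimension `≤ 2`: `rank3`.
-/

set_option autoImplicit false

namespace Pool.Agent.Helper34.B1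

open MvPolynomial
open scoped BigOperators
open Pool.Agent.Helper71.FL (w12 pf ct Dec Closed dd at0 emb res)
open Pool.Agent.Helper93 (lsub lmap OF pb)
open Pool.Agent.Helper71.FC

private theorem eval_lf {m : ℕ} (a x : Fin m → ℂ) : eval x (lf a) = ∑ i, a i * x i := by
  unfold lf
  rw [map_sum]
  refine Finset.sum_congr rfl fun i _ => ?_
  rw [map_mul, eval_C, eval_X]

private theorem lf_hom {m : ℕ} (a : Fin m → ℂ) : (lf a).IsHomogeneous 1 := by
  unfold lf
  apply IsHomogeneous.sum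
  intro i _
  have := (isHomogeneous_C (Fin m) (a i)).mul (isHomogeneous_X ℂ i)
  rwa [zero_add] at this

private theorem lf_ne {m : ℕ} {a : Fin m → ℂ} (h : a ≠ 0) : lf a ≠ 0 := by
  intro h0
  apply h
  funext i
  have h1 := eval_lf a (Pi.single i 1)
  rw [h0, map_zero] at h1
  simpa [Pi.single_apply] using h1.symm

private theorem lf_not_dvd {m : ℕ} {a b : Fin m → ℂ} (h : LinearIndependent ℂ ![a, b]) :
    ¬ lf a ∣ lf b := by
  rintro ⟨g, hg⟩
  rw [LinearIndependent.pair_iff] at h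
  have ha : a ≠ 0 := by
    rintro rfl
    exact one_ne_zero (h 1 0 (by simp)).1
  obtain ⟨i, hi⟩ := Function.ne_iff.mp ha
  have hi' : a i ≠ 0 := hi
  have key : ∀ j, a i * b j - a j * b i = 0 := by
    intro j
    by_cases hij : j = i
    · rw [hij]
      ring
    · have h1 := congrArg (eval (Pi.single j (a i) - Pi.single i (a j) : Fin m → ℂ)) hg
      rw [map_mul, eval_lf, eval_lf] at h1
      have h2 : ∀ c : Fin m → ℂ, ∑ k, c k * (Pi.single j (a i) - Pi.single i (a j) : Fin m → ℂ) k =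
          c j * a i - c i * a j := by
        intro c
        simp only [Pi.sub_apply, mul_sub, Finset.sum_sub_distrib]
        congr 1
        · rw [Finset.sum_eq_single j]
          · rw [Pi.single_eq_same]
          · intro k _ hk
            rw [Pi.single_eq_of_ne hk, mul_zero]
          · intro hk
            exact absurd (Finset.mem_univ _) hk
        · rw [Finset.sum_eq_single i]
          · rw [Pi.single_eq_same]
          · intro k _ hk
            rw [Pi.single_eq_of_ne hk, mul_zero]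
          · intro hk
            exact absurd (Finset.mem_univ _) hk
      rw [h2, h2] at h1
      linear_combination h1
  have h3 := h (-(b i)) (a i) (by
    funext j
    simp only [Pi.add_apply, Pi.smul_apply, smul_eq_mul, Pi.zero_apply]
    linear_combination key j)
  exact hi' h3.2

theorem two_syz {m : ℕ} {ι : Type} {a b : Fin m → ℂ} (h : LinearIndependent ℂ ![a, b])
    {ξ η : ι → Pn m} (h0 : ∀ j, lf a * ξ j + lf b * η j = 0) :
    ∃ ζ : ι → Pn m, ∀ j, ξ j = lf b * ζ j ∧ η j = - (lf a * ζ j) := by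
  have ha : a ≠ 0 := by
    rintro rfl
    rw [LinearIndependent.pair_iff] at h
    exact one_ne_zero (h 1 0 (by simp)).1
  have hpr := prime_of_hom_one (lf_hom a) (lf_ne ha)
  have hnd := lf_not_dvd h
  have hdv : ∀ j, ∃ e, η j = lf a * e := by
    intro j
    have h1 : lf a ∣ lf b * η j := ⟨-ξ j, by linear_combination h0 j⟩
    exact (hpr.dvd_or_dvd h1).resolve_left hnd
  choose e he using hdv
  refine ⟨fun j => -e j, fun j => ⟨?_, ?_⟩⟩
  · apply mul_left_cancel₀ (lf_ne ha)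
    have h1 := h0 j
    rw [he j] at h1
    linear_combination h1
  · rw [he j]
    ring

theorem two_syz_hom {m : ℕ} {ι : Type} {a b : Fin m → ℂ} (h : LinearIndependent ℂ ![a, b])
    {ξ η : ι → Pn m} {k : ℕ} (hξ : ∀ j, (ξ j).IsHomogeneous (k + 1))
    (h0 : ∀ j, lf a * ξ j + lf b * η j = 0) :
    ∃ ζ : ι → Pn m, (∀ j, (ζ j).IsHomogeneous k) ∧ ∀ j, ξ j = lf b * ζ j ∧ η j = - (lf a * ζ j) := by
  obtain ⟨ζ, hζ⟩ := two_syz h h0
  have hb : b ≠ 0 := by
    rintro rfl
    rw [LinearIndependent.pair_iff] at h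
    exact one_ne_zero (h 0 1 (by simp)).2
  refine ⟨ζ, fun j => ?_, hζ⟩
  have h1 := sat_hc_mul k 1 (ζ j) (lf b) (lf_hom b)
  rw [mul_comm (ζ j), ← (hζ j).1, homogeneousComponent_eq_self (hξ j), (hζ j).1,
    mul_comm (lf b)] at h1
  have h2 := mul_right_cancel₀ (lf_ne hb) h1
  rw [h2]
  exact homogeneousComponent_isHomogeneous _ _

theorem av_add (θ : F2 5) (v w : Fin 5 → ℂ) : av θ (v + w) = av θ v + av θ w := by
  funext j
  show (∑ i, C ((v + w) i) * θ i j) = (∑ i, C (v i) * θ i j) + ∑ i, C (w i) * θ i j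
  rw [← Finset.sum_add_distrib]
  refine Finset.sum_congr rfl fun i _ => ?_
  rw [Pi.add_apply, C_add, add_mul]

theorem av_smul (θ : F2 5) (c : ℂ) (v : Fin 5 → ℂ) : av θ (c • v) = c • av θ v := by
  funext j
  show (∑ i, C ((c • v) i) * θ i j) = c • ∑ i, C (v i) * θ i j
  rw [smul_eq_C_mul, Finset.mul_sum]
  refine Finset.sum_congr rfl fun i _ => ?_
  rw [Pi.smul_apply, smul_eq_mul, C_mul, mul_assoc]

private theorem res_add {N : ℕ} (ξ η : F1 (N + 1)) : res (ξ + η) = res ξ + res η := by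
  funext j
  show at0 N ℂ ((ξ + η) j.succ) = at0 N ℂ (ξ j.succ) + at0 N ℂ (η j.succ)
  rw [Pi.add_apply, map_add]

private theorem res_smul {N : ℕ} (c : ℂ) (ξ : F1 (N + 1)) : res (c • ξ) = c • res ξ := by
  funext j
  show at0 N ℂ ((c • ξ) j.succ) = c • at0 N ℂ (ξ j.succ)
  rw [Pi.smul_apply, map_smul]

theorem aP_add (θ : F2 5) (v w : Fin 5 → ℂ) : aP θ (v + w) = aP θ v + aP θ w := by
  unfold aP aH
  rw [av_add, res_add, res_add]

theorem aP_smul (θ : F2 5) (c : ℂ) (v : Fin 5 → ℂ) : aP θ (c • v) = c • aP θ v := by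
  unfold aP aH
  rw [av_smul, res_smul, res_smul]

theorem aH_add (θ : F2 5) (v w : Fin 5 → ℂ) : aH θ (v + w) = aH θ v + aH θ w := by
  unfold aH
  rw [av_add, res_add]

theorem aH_smul (θ : F2 5) (c : ℂ) (v : Fin 5 → ℂ) : aH θ (c • v) = c • aH θ v := by
  unfold aH
  rw [av_smul, res_smul]

theorem aP_mem {θ : F2 5} (h : Fol θ) (v : Fin 5 → ℂ) : aP θ v ∈ EE (rs2 (rs2 θ)) 3 :=
  res_mem_EE (res_mem_EE (av_mem_EE h.dec h.hom v))

private theorem span2 {S : Submodule ℂ (Fin 5 → ℂ)} (h : Module.finrank ℂ S ≤ 2) :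
    ∃ v w : Fin 5 → ℂ, ∀ x ∈ S, ∃ a b : ℂ, x = a • v + b • w := by
  let B := Module.finBasis ℂ S
  have hB : ∀ x : S, (x : Fin 5 → ℂ) = ∑ i, B.repr x i • ((B i : S) : Fin 5 → ℂ) := by
    intro x
    conv_lhs => rw [← B.sum_repr x]
    rw [Submodule.coe_sum]
    rfl
  generalize B = B' at hB
  clear B
  revert B' h
  generalize Module.finrank ℂ S = n
  intro h B hB
  interval_cases n
  · refine ⟨0, 0, fun x hx => ⟨0, 0, ?_⟩⟩
    have := hB ⟨x, hx⟩
    rw [Finset.univ_eq_empty, Finset.sum_empty] at this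
    simpa using this
  · refine ⟨B 0, 0, fun x hx => ⟨B.repr ⟨x, hx⟩ 0, 0, ?_⟩⟩
    have := hB ⟨x, hx⟩
    rw [Fin.sum_univ_one] at this
    simpa using this
  · refine ⟨B 0, B 1, fun x hx => ⟨B.repr ⟨x, hx⟩ 0, B.repr ⟨x, hx⟩ 1, ?_⟩⟩
    have := hB ⟨x, hx⟩
    rw [Fin.sum_univ_two] at this
    exact this

private theorem sum_lf {θ : F2 5} {K : Fin 5 → Fin 5 → ℂ} {v w α β : Fin 5 → ℂ}
    (h : ∀ l, K l = α l • v + β l • w) (hK : IsKV θ K) (j : Fin 5) :
    lf α * av θ v j + lf β * av θ w j = 0 := by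
  rw [← hK j]
  unfold lf
  rw [Finset.sum_mul, Finset.sum_mul, ← Finset.sum_add_distrib]
  refine Finset.sum_congr rfl fun l _ => ?_
  rw [h l, av_add, av_smul, av_smul, Pi.add_apply, Pi.smul_apply, Pi.smul_apply, smul_eq_C_mul,
    smul_eq_C_mul]
  ring

private theorem av_ne {θ : F2 5} (h : ¬ Cone θ) {v : Fin 5 → ℂ} (h0 : ∀ j, av θ v j = 0) : v = 0 := by
  by_contra hv
  exact h ⟨v, hv, h0⟩

private theorem rank1z {θ : F2 5} (h : CY θ) {K : Fin 5 → Fin 5 → ℂ} (hK : IsKV θ K)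
    {v α : Fin 5 → ℂ} (hE : ∀ l, K l = α l • v) : K = 0 := by
  have h1 := sum_lf (θ := θ) (v := v) (w := 0) (α := α) (β := 0)
    (fun l => by rw [hE l, smul_zero, add_zero]) hK
  have h2 : lf (0 : Fin 5 → ℂ) = 0 := by
    unfold lf
    simp
  simp only [h2, zero_mul, add_zero] at h1
  by_cases hα : α = 0
  · funext l
    rw [hE l, hα]
    simp
  · have h3 : v = 0 := av_ne h.nc fun j => (mul_eq_zero.mp (h1 j)).resolve_left (lf_ne hα)
    funext l
    rw [hE l, h3, smul_zero]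
    rfl

private theorem rank2z {θ : F2 5} (h : CY θ) {K : Fin 5 → Fin 5 → ℂ} (hK : IsKV θ K)
    {v w α β : Fin 5 → ℂ} (hE : ∀ l, K l = α l • v + β l • w) : K = 0 := by
  by_cases hind : LinearIndependent ℂ ![α, β]
  · have hav := fun v' : Fin 5 → ℂ => av_mem_EE h.fol.dec h.fol.hom v'
    obtain ⟨ζ, hζ1, hζ2⟩ := two_syz_hom hind (ξ := av θ v) (η := av θ w) (k := 2)
      (fun j => (hav v).1 j) (sum_lf hE hK)
    have hβ : β ≠ 0 := by
      rintro rfl
      rw [LinearIndependent.pair_iff] at hind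
      exact one_ne_zero (hind 0 1 (by simp)).2
    have hm : ζ ∈ EE θ 2 := by
      refine ⟨hζ1, fun i j l => ?_⟩
      have h1 := (hav v).2 i j l
      have h2 : av θ v = fun l => lf β * ζ l := funext fun l => (hζ2 l).1
      rw [h2, Pool.Agent.Helper71.FL.w12_smul] at h1
      exact (mul_eq_zero.mp h1).resolve_left (lf_ne hβ)
    rw [h.e2, Submodule.mem_bot] at hm
    have hv : v = 0 := av_ne h.nc fun j => by rw [(hζ2 j).1, hm]; simp
    have hw : w = 0 := av_ne h.nc fun j => by rw [(hζ2 j).2, hm]; simp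
    funext l
    rw [hE l, hv, hw]
    simp
  · rw [LinearIndependent.pair_iff] at hind
    push Not at hind
    obtain ⟨s, t, hst, hne⟩ := hind
    by_cases hs : s = 0
    · have ht := hne hs
      rw [hs, zero_smul, zero_add] at hst
      have hβ := (smul_eq_zero.mp hst).resolve_left ht
      exact rank1z h hK (v := v) (α := α) fun l => by rw [hE l, hβ]; simp
    · have hα : ∀ l, α l = -(t / s) * β l := by
        intro l
        have := congrFun hst l
        simp only [Pi.add_apply, Pi.smul_apply, smul_eq_mul, Pi.zero_apply] at this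
        field_simp
        linear_combination this
      exact rank1z h hK (v := w - (t / s) • v) (α := β) fun l => by
        rw [hE l, hα l]
        module

/-- a tangent linear field vanishes or has rank at least three -/
theorem rank3 {θ : F2 5} (h : CY θ) {K : Fin 5 → Fin 5 → ℂ} (hK : IsKV θ K) (h0 : K ≠ 0) :
    3 ≤ Module.finrank ℂ (Submodule.span ℂ (Set.range K)) := by
  by_contra hc
  apply h0
  obtain ⟨v, w, hvw⟩ := span2 (S := Submodule.span ℂ (Set.range K)) (by omega)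
  have h1 : ∀ l, ∃ a b : ℂ, K l = a • v + b • w := fun l =>
    hvw _ (Submodule.subset_span (Set.mem_range_self l))
  choose α β hE using h1
  exact rank2z h hK hE

theorem IsKV.add {θ : F2 5} {K K' : Fin 5 → Fin 5 → ℂ} (h : IsKV θ K) (h' : IsKV θ K') :
    IsKV θ (K + K') := by
  intro j
  have h1 := h j
  have h2 := h' j
  rw [← add_zero (0 : Pn 5)]
  nth_rewrite 1 [← h1]
  rw [← h2, ← Finset.sum_add_distrib]
  refine Finset.sum_congr rfl fun l _ => ?_
  rw [Pi.add_apply, av_add, Pi.add_apply, mul_add]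

theorem IsKV.smul {θ : F2 5} {K : Fin 5 → Fin 5 → ℂ} (h : IsKV θ K) (c : ℂ) : IsKV θ (c • K) := by
  intro j
  rw [← mul_zero (C c : Pn 5), ← h j, Finset.mul_sum]
  refine Finset.sum_congr rfl fun l _ => ?_
  rw [Pi.smul_apply, av_smul, Pi.smul_apply, smul_eq_C_mul]
  ring

theorem IsKP.add {θ : F2 5} {K K' : Fin 3 → Fin 5 → ℂ} (h : IsKP θ K) (h' : IsKP θ K') :
    IsKP θ (K + K') := by
  intro j
  have h1 := h j
  have h2 := h' j
  rw [← add_zero (0 : Pn 3)]
  nth_rewrite 1 [← h1]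
  rw [← h2, ← Finset.sum_add_distrib]
  refine Finset.sum_congr rfl fun l _ => ?_
  rw [Pi.add_apply, aP_add, Pi.add_apply, mul_add]

theorem IsKP.smul {θ : F2 5} {K : Fin 3 → Fin 5 → ℂ} (h : IsKP θ K) (c : ℂ) : IsKP θ (c • K) := by
  intro j
  rw [← mul_zero (C c : Pn 3), ← h j, Finset.mul_sum]
  refine Finset.sum_congr rfl fun l _ => ?_
  rw [Pi.smul_apply, aP_smul, Pi.smul_apply, smul_eq_C_mul]
  ring

private theorem at0_X0 (N : ℕ) : at0 N ℂ (X 0) = 0 := by
  unfold at0
  rw [aeval_X, Fin.cons_zero]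

private theorem at0_Xs {N : ℕ} (i : Fin N) : at0 N ℂ (X i.succ) = X i := by
  unfold at0
  rw [aeval_X, Fin.cons_succ]

theorem IsKV.toP {θ : F2 5} {K : Fin 5 → Fin 5 → ℂ} (h : IsKV θ K) : IsKP θ (toP K) := by
  intro j
  have h1 := congrArg (fun f => at0 3 ℂ (at0 4 ℂ f)) (h j.succ.succ)
  simp only [map_zero, map_sum, map_mul] at h1
  rw [Fin.sum_univ_succ, at0_X0, map_zero, zero_mul, zero_add, Fin.sum_univ_succ] at h1
  rw [at0_Xs (0 : Fin 4), at0_X0, zero_mul, zero_add] at h1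
  rw [← h1]
  refine Finset.sum_congr rfl fun l _ => ?_
  rw [at0_Xs l.succ, at0_Xs l]
  rfl

theorem KV_eq_zero {θ : F2 5} (h : CY θ) {K : Fin 5 → Fin 5 → ℂ} (hK : IsKV θ K) (h0 : toP K = 0) :
    K = 0 := by
  refine rank2z h hK (v := K 0) (w := K 1) (α := ![1, 0, 0, 0, 0]) (β := ![0, 1, 0, 0, 0]) ?_
  have h2 : ∀ l : Fin 3, K l.succ.succ = 0 := fun l => congrFun h0 l
  intro l
  refine Fin.cases ?_ (fun l => ?_) l
  · simp
  · refine Fin.cases ?_ (fun l => ?_) l
    · simp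
    · rw [h2 l]
      fin_cases l <;> simp

theorem KV_span {θ : F2 5} {σ : F1 3} {u : Fin 3 → ℂ} {T : Fin 3 → Fin 5 → Fin 5 → ℂ}
    (h : B1In θ σ u T) {K : Fin 5 → Fin 5 → ℂ} (hK : IsKV θ K) : ∃ c : Fin 3 → ℂ, K = ∑ k, c k • T k := by
  obtain ⟨c, hc⟩ := h.KP (Pool.Agent.Helper34.B1.toP K) hK.toP
  refine ⟨c, ?_⟩
  have h1 : IsKV θ (K + ∑ k, (-c k) • T k) := by
    apply hK.add
    rw [Fin.sum_univ_three]
    exact (((h.KV 0).smul _).add ((h.KV 1).smul _)).add ((h.KV 2).smul _)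
  have h2 : Pool.Agent.Helper34.B1.toP (K + ∑ k, (-c k) • T k) = 0 := by
    have e : Pool.Agent.Helper34.B1.toP (K + ∑ k, (-c k) • T k) =
        Pool.Agent.Helper34.B1.toP K + ∑ k, (-c k) • Pool.Agent.Helper34.B1.toP (T k) := by
      funext l i
      simp only [Pool.Agent.Helper34.B1.toP, Pi.add_apply, Finset.sum_apply, Pi.smul_apply]
    rw [e, hc, ← Finset.sum_add_distrib]
    apply Finset.sum_eq_zero
    intro k _
    rw [← add_smul, add_neg_cancel, zero_smul]
  have h3 := KV_eq_zero h.cy h1 h2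
  have h4 : K = (K + ∑ k, (-c k) • T k) + ∑ k, c k • T k := by
    rw [add_assoc, ← Finset.sum_add_distrib]
    have : ∑ k, ((-c k) • T k + c k • T k) = 0 := by
      apply Finset.sum_eq_zero
      intro k _
      rw [← add_smul, neg_add_cancel, zero_smul]
    rw [this, add_zero]
  rw [h3, zero_add] at h4
  exact h4

end Pool.Agent.Helper34.B1
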