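import Mathlib

/-!
B1-LA.  The linear algebra end of block B1 (project on MP_45a28a, frozen statement S00166).

`V = ℂ^5`, `g k : End V` (`k : Fin 3`), `[g i, g j] = ∑ k, s i j k • g k` (commutator of endomorphisms), `U ⊂ S ⊂ V` of dimensions
2 and 3 with `g S ⊂ U`.  `LA_end : LAIn g s S U → False` is proved by helper26 in `Helper26/B1E/End.lean`.  Proof:

(L1) TR2: `tr_U X = tr_g ad X` for all `X ∈ g`.  For `X = ∑ a k • g k` with `X x = 0`, `x ∈ S`, `g x = U`: the map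
`g → U, Y ↦ Y x` is onto with kernel `ℂ X` and `[X, Y] x = X (Y x)`, so `tr_U X = tr_g ad X - 0`.  Both sides are linear in `X` and
such `X` span `g` (`st`).  With `tr1`: `tr_{V/U} X = 0`, and `tr_{S/U} X = 0` as `g S ⊂ U`; so `tr_{V/S} X = 0`.
(L2) In `V/U` (dimension 3) with basis `b2` (of `S/U`), `b3, b4`: `X b ≡ α_X(b) b2 + β_X b` for `b ∈ <b3, b4>`, `β_X ∈ sl_2`.
If `D(b) = det (α_k b, β_k b)_{k}` (cubic polynomial in `b`) vanishes identically, a `2 × 2` (or smaller) minor gives a nonzero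
homogeneous 1-form of degree `≤ 2` in the variables `x_3, x_4`, with values in `(V/U)^*`, killing all `g_k x`: contradiction with `ne`.
So `D ≠ 0` and `dim β(g) ≥ 2` (if `β_X = β_Y = 0` for independent `X, Y` the rows are `(α_X b, 0), (α_Y b, 0)`).
(L3) `dim β(g) = 3`: choose `H, E, F ∈ g` over the standard basis of `sl_2`; `[H,E] = 2E`, `[H,F] = -2F` in `g`.  The left eigenvector
`φ ∈ (V/U)^*` of `H` with eigenvalue `0`, `φ(b2) = 1`; `φ ∘ E`, `φ ∘ F` are left eigenvectors with eigenvalues `∓2`, not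
eigenvalues (`0, 1, -1`), so `φ ∘ g = 0`: a constant 1-form killed by `g`: `ne` with `d = 0`.
(L4) `dim β(g) = 2`: `β(g)` is a two dimensional subalgebra of `sl_2`, i.e. a Borel.  `H, E, Z ∈ g` with `β_Z = 0`,
`β_H = diag(1,-1)`, `β_E b_- = b_+`, `β_E b_+ = 0`.  `[E, Z] = 0`, `α_Z(b_+) = 0 ≠ α_Z(b_-)`, `[H, Z] = Z`, and (after adding a
multiple of `Z` to `E`) `[H, E] = 2 E`.  So `tr_g ad H = 3 = tr_U H`.  `E b_+ ∈ U` (weight 3 in `V/U`), so with
`K' = U + <b2, b_+>`: `E K' ⊂ U` and rank `E ≥ 3` gives `E K' = U`.  `N = E|_U` is nilpotent.  `N = 0`: `E` induces an isomorphism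
`K'/U → U`, `tr_U H = (0 + 1) + 2 * 2 = 5 ≠ 3`.  `N ≠ 0`: `H` acts on `U / ker N` by `h` and on `N U = ker N` by `h + 2`,
`2 h + 2 = 3`; `E : K'/U → U / N U` is onto, so `h ∈ {2, 3}`: contradiction.
-/

set_option autoImplicit false

namespace Pool.Agent.Helper34.B1

open MvPolynomial
open scoped BigOperators

structure LAIn (g : Fin 3 → Module.End ℂ (Fin 5 → ℂ)) (s : Fin 3 → Fin 3 → Fin 3 → ℂ)
    (S U : Submodule ℂ (Fin 5 → ℂ)) : Prop where
  br : ∀ i j, g i * g j - g j * g i = ∑ k, s i j k • g k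
  fS : Module.finrank ℂ S = 3
  fU : Module.finrank ℂ U = 2
  US : U ≤ S
  gS : ∀ k, ∀ x ∈ S, g k x ∈ U
  tr1 : ∀ i, LinearMap.trace ℂ (Fin 5 → ℂ) (g i) = ∑ j, s i j j
  rk : ∀ a : Fin 3 → ℂ, a ≠ 0 → 3 ≤ Module.finrank ℂ (LinearMap.range (∑ k, a k • g k))
  st : Submodule.span ℂ {a : Fin 3 → ℂ | ∃ x ∈ S, (∑ k, a k • g k) x = 0 ∧
    Submodule.span ℂ (Set.range fun k => g k x) = U} = ⊤
  ne : ∀ d ≤ 2, ∀ ξ : Fin 5 → MvPolynomial (Fin 5) ℂ, (∀ i, (ξ i).IsHomogeneous d) →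
    (∀ k, ∑ i, ξ i * ∑ l, C (g k (Pi.single l 1) i) * X l = 0) → ξ = 0

end Pool.Agent.Helper34.B1
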