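import Pool.Agent.Helper71.FC.CaseY

/-!
B1-9.  Pure algebra: a `5 × 3` matrix of linear forms in three variables, orthogonal to a primitive vector `c` of degree `≥ 2`.
`R i = (lf (ρ i 0), lf (ρ i 1), lf (ρ i 2))`, `R i ⬝ c = 0`.

* For `i, i'` the cross product `R i ×₃ R i'` is orthogonal to nothing but proportional to `c` (both are orthogonal to `R i`, `R i'`; if
  `R i ×₃ R i' ≠ 0`): all `2 × 2` minors `(R i × R i')_a c_b = (R i × R i')_b c_a` (expand `(R i × R i') × c = (R i ⬝ c) R i' - (R i' ⬝ c) R i = 0`).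
  `c` primitive: `R i × R i' = g i i' * c`, degree `2 = deg g + k`, `k ≥ 2`: `g i i'` is a constant, and if one of them is not zero (which
  is so by `p0`) `k = 2`.  So `g : Fin 5 → Fin 5 → ℂ` alternating, `g ≠ 0`.
* `g i' i'' R i - g i i'' R i' + g i i' R i'' = 0` for all `i, i', i''`: the cross product of the left side with each of `R i, R i', R i''` is `0`
  (e.g. with `R i`: `(- g i i'' g i i' + g i i' g i i'') c = 0`), and a vector `w` with `w ⬝ c = 0` whose cross products with two vectors `R a, R b`,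
  `R a × R b ≠ 0`, vanish is zero [`w × R a = 0 = w × R b` in the fraction field: `w ∥ R a`, `w ∥ R b`, so `w = 0`; directly:
  `(w × R a) = 0` gives `w ⬝ ... `: `(R a × R b) w_j = ...` by the Lagrange identity `w × (R a × R b) = (w ⬝ R b) R a - (w ⬝ R a) R b`].
  Simplest: fix `(a, b)` with `g a b ≠ 0`; `W i := g a b R i - g i b R a + g i a R b` (up to signs) has `W i × R a = 0`, `W i × R b = 0`, hence
  `W i ⬝ x = 0` for all `x`: all minors of `(W i, R a)`, `(W i, R b)` vanish while `R a × R b = g a b c ≠ 0`: `W i = 0`.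
* So `ρ i = (ρ a, ρ b)`-combination for all `i`, with the same coefficients for all columns and points:
  `ρ i j l = α i * ρ a j l + β i * ρ b j l`, `α = g . b / g a b`, `β = g a . / g a b`: the vectors `(ρ . j l) ∈ U := span {α, β}`, `finrank U = 2`
  (`α a = 1, α b = 0, β a = 0, β b = 1`).
* independence of `c 0, c 1, c 2` over `ℂ`: suppose `∑ t j c j = 0`, `t ≠ 0`.  Choose an invertible matrix with first row `t` and change the basis of
  `ℂ^3` (rows `R i` contragrediently): we may assume `c' 0 = 0` (new coordinates `c'` primitive, `R' i`, same properties; `R' i j` are linear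
  forms, and by `nv` no nonzero combination of the columns vanishes).  With `p = R' a`, `q = R' b`: `p 1 q 2 = p 2 q 1`, linear forms.  If
  `p 1, p 2` are linearly dependent, say (after a change of the basis vectors 1, 2) `p 2 = 0`: then `p 1 q 2 = 0`: `q 2 = 0` gives that
  column 2 vanishes on both rows `a, b`, hence on all rows (previous point): contradicts `nv`; `p 1 = 0`: `p = (p 0, 0, 0)` and
  `p × q = (0, - p 0 q 2, p 0 q 1) = g a b c'`: `p 0` divides all `c' j`, contradiction with primitivity (`p 0` is not a unit: a linear form).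
  If `p 1, p 2` are independent (coprime): `q 1 = s p 1`, `q 2 = s p 2` with a constant `s`; replace `q` by `q - s p`: `q = (q 0, 0, 0)`, the same
  contradiction.
-/

set_option autoImplicit false

namespace Pool.Agent.Helper34.B1

open MvPolynomial
open scoped BigOperators
open Pool.Agent.Helper71.FC

structure CrIn (ρ : Fin 5 → Fin 3 → Fin 3 → ℂ) (c : Fin 3 → Pn 3) (k : ℕ) : Prop where
  k2 : 2 ≤ k
  hom : ∀ j, (c j).IsHomogeneous k
  cop : CopF c
  rel : ∀ i, ∑ j, c j * lf (ρ i j) = 0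
  p0 : ∃ (x : Fin 3 → ℂ) (i i' : Fin 5) (j j' : Fin 3),
    (∑ l, ρ i j l * x l) * (∑ l, ρ i' j' l * x l) - (∑ l, ρ i j' l * x l) * (∑ l, ρ i' j l * x l) ≠ 0
  nv : ∀ a : Fin 3 → ℂ, a ≠ 0 → ∃ i l, ∑ j, a j * ρ i j l ≠ 0

private theorem cs_hom (a : Fin 3 → ℂ) : (lf a).IsHomogeneous 1 := by
  unfold lf
  refine IsHomogeneous.sum _ _ _ fun i _ => ?_
  have h := (isHomogeneous_C (Fin 3) (a i)).mul (isHomogeneous_X ℂ i)
  rwa [zero_add] at h

private theorem cs_eval (a x : Fin 3 → ℂ) : eval x (lf a) = ∑ l, a l * x l := by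
  unfold lf
  simp

private theorem cs_inj {a : Fin 3 → ℂ} (h : lf a = 0) (l : Fin 3) : a l = 0 := by
  have h1 := congrArg (eval (Pi.single l 1)) h
  rw [cs_eval, map_zero] at h1
  simpa [Pi.single_apply] using h1

private theorem cs_lin (s t : ℂ) (a b : Fin 3 → ℂ) :
    C s * lf a + C t * lf b = lf (fun i => s * a i + t * b i) := by
  unfold lf
  rw [Finset.mul_sum, Finset.mul_sum, ← Finset.sum_add_distrib]
  refine Finset.sum_congr rfl fun i _ => ?_
  rw [C_add, C_mul, C_mul]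
  ring

private theorem cs_deg {c s g : Pn 3} {k d : ℕ} (hc : c.IsHomogeneous k) (hs : s.IsHomogeneous d)
    (h0 : s ≠ 0) (hd : s = c * g) : k + g.totalDegree = d := by
  have hc0 : c ≠ 0 := by
    rintro rfl
    rw [zero_mul] at hd
    exact h0 hd
  have hg0 : g ≠ 0 := by
    rintro rfl
    rw [mul_zero] at hd
    exact h0 hd
  rw [← hs.totalDegree h0, hd, totalDegree_mul_of_isDomain hc0 hg0, hc.totalDegree hc0]

private theorem cs_two {k : ℕ} (hk : 2 ≤ k) {c c' s s' : Pn 3} (hc : c.IsHomogeneous k)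
    (hco : ∀ p, p ∣ c → p ∣ c' → IsUnit p) (hs' : s'.IsHomogeneous 1)
    (h : c * s + c' * s' = 0) : s' = 0 := by
  by_contra h0
  have hrel : IsRelPrime c c' := fun p hp hp' => hco p hp hp'
  have hd : c ∣ c' * s' := ⟨-s, by linear_combination h⟩
  obtain ⟨g, hg⟩ := hrel.dvd_of_dvd_mul_left hd
  have := cs_deg hc hs' h0 hg
  omega

private theorem cs_dvd {A : Fin 3 → Pn 3} (hc : CopF A) {a b : Pn 3}
    (h : ∀ j, a ∣ A j * b) : a ∣ b := by
  classical
  let _ : NormalizationMonoid (Pn 3) :=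
    (UniqueFactorizationMonoid.strongNormalizationMonoid).toNormalizationMonoid
  let _ : NormalizedGCDMonoid (Pn 3) :=
    UniqueFactorizationMonoid.toNormalizedGCDMonoid _
  have h1 : a ∣ Finset.univ.gcd (fun j => A j * b) := Finset.dvd_gcd (fun j _ => h j)
  have h2 := Finset.gcd_mul_right' (Finset.univ : Finset (Fin 3)) A b
  have h3 : IsUnit (Finset.univ.gcd A) := hc _ (fun i => Finset.gcd_dvd (Finset.mem_univ i))
  have h4 : a ∣ Finset.univ.gcd A * b := h1.trans h2.dvd
  exact (h3.dvd_mul_left).mp h4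

private theorem cs_ind {ρ : Fin 5 → Fin 3 → Fin 3 → ℂ} {c : Fin 3 → Pn 3} {k : ℕ}
    (h : CrIn ρ c k) (t : Fin 3 → ℂ) (ht : ∑ j, C (t j) * c j = 0) (j0 : Fin 3) : t j0 = 0 := by
  by_contra h0
  obtain ⟨e, he⟩ : ∃ e : Equiv.Perm (Fin 3), e 0 = j0 :=
    ⟨Equiv.swap 0 j0, Equiv.swap_apply_left _ _⟩
  subst he
  have ht' : C (t (e 0)) * c (e 0) + C (t (e 1)) * c (e 1) + C (t (e 2)) * c (e 2) = 0 := by
    rw [← Equiv.sum_comp e, Fin.sum_univ_three] at ht
    exact ht
  have hrel : ∀ i, c (e 0) * lf (ρ i (e 0)) + c (e 1) * lf (ρ i (e 1)) +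
      c (e 2) * lf (ρ i (e 2)) = 0 := by
    intro i
    have h1 := h.rel i
    rw [← Equiv.sum_comp e, Fin.sum_univ_three] at h1
    exact h1
  have hu : IsUnit (C (t (e 0)) : Pn 3) := (isUnit_iff_ne_zero.2 h0).map C
  have hcop : ∀ p, p ∣ c (e 2) → p ∣ c (e 1) → IsUnit p := by
    intro p h2 h1
    have h3 : p ∣ C (t (e 0)) * c (e 0) := by
      have h4 : C (t (e 0)) * c (e 0) = -(C (t (e 1)) * c (e 1)) - C (t (e 2)) * c (e 2) := by
        linear_combination ht'
      rw [h4]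
      exact dvd_sub (dvd_neg.2 (h1.mul_left _)) (h2.mul_left _)
    have h5 : p ∣ c (e 0) := (hu.dvd_mul_left).1 h3
    apply h.cop
    intro j
    obtain ⟨i, rfl⟩ := e.surjective j
    fin_cases i
    · exact h5
    · exact h1
    · exact h2
  have hS : ∀ i, lf (fun l => t (e 0) * ρ i (e 1) l + (-t (e 1)) * ρ i (e 0) l) = 0 := by
    intro i
    apply cs_two h.k2 (h.hom (e 2)) hcop (cs_hom _)
      (s := C (t (e 0)) * lf (ρ i (e 2)) - C (t (e 2)) * lf (ρ i (e 0)))
    rw [← cs_lin, C_neg]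
    linear_combination C (t (e 0)) * hrel i - lf (ρ i (e 0)) * ht'
  obtain ⟨i, l, hil⟩ := h.nv (fun j => (![-t (e 1), t (e 0), 0] : Fin 3 → ℂ) (e.symm j)) (by
    intro h1
    have h2 := congrFun h1 (e 1)
    simp only [Equiv.symm_apply_apply, Pi.zero_apply] at h2
    exact h0 h2)
  apply hil
  rw [← Equiv.sum_comp e, Fin.sum_univ_three]
  simp only [Equiv.symm_apply_apply]
  have h1 := cs_inj (hS i) l
  show -t (e 1) * ρ i (e 0) l + t (e 0) * ρ i (e 1) l + 0 * ρ i (e 2) l = 0
  linear_combination h1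

private theorem cs_W {w p q : Fin 3 → Pn 3} (h1 : ∀ j j', w j * p j' = w j' * p j)
    (h2 : ∀ j j', w j * q j' = w j' * q j) {u v : Fin 3} (h : p u * q v - p v * q u ≠ 0) (j : Fin 3) :
    w j = 0 := by
  have h3 : w j * (p u * q v - p v * q u) = 0 := by
    linear_combination q v * h1 j u - q u * h1 j v + p j * h2 u v
  exact (mul_eq_zero.1 h3).resolve_right h

/-- the alternating matrix of `c` -/
private noncomputable def cs_E (c : Fin 3 → Pn 3) : Fin 3 → Fin 3 → Pn 3 :=
  ![![0, c 2, -c 1], ![-c 2, 0, c 0], ![c 1, -c 0, 0]]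

private theorem cs_minor {c r s : Fin 3 → Pn 3} {k : ℕ} (hk : 2 ≤ k) (hh : ∀ j, (c j).IsHomogeneous k)
    (hc : CopF c) (hr1 : ∀ j, (r j).IsHomogeneous 1) (hs1 : ∀ j, (s j).IsHomogeneous 1)
    (hr : c 0 * r 0 + c 1 * r 1 + c 2 * r 2 = 0) (hs : c 0 * s 0 + c 1 * s 1 + c 2 * s 2 = 0) :
    ∃ γ : ℂ, ∀ j j', r j * s j' - r j' * s j = C γ * cs_E c j j' := by
  obtain ⟨m, hm⟩ : ∃ m, c m ≠ 0 := by
    by_contra hcon
    push Not at hcon
    have h1 := hc (X 0) (fun i => by rw [hcon i]; exact dvd_zero _)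
    have h2 := h1.map (eval (0 : Fin 3 → ℂ))
    simp at h2
  obtain ⟨P, hP0, hP1, hP2⟩ : ∃ P : Fin 3 → Pn 3, P 0 = r 1 * s 2 - r 2 * s 1 ∧
      P 1 = r 2 * s 0 - r 0 * s 2 ∧ P 2 = r 0 * s 1 - r 1 * s 0 :=
    ⟨![r 1 * s 2 - r 2 * s 1, r 2 * s 0 - r 0 * s 2, r 0 * s 1 - r 1 * s 0], rfl, rfl, rfl⟩
  have hPh : ∀ j, (P j).IsHomogeneous 2 := by
    intro j
    fin_cases j
    · show (P 0).IsHomogeneous 2
      rw [hP0]
      exact ((hr1 1).mul (hs1 2)).sub ((hr1 2).mul (hs1 1))
    · show (P 1).IsHomogeneous 2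
      rw [hP1]
      exact ((hr1 2).mul (hs1 0)).sub ((hr1 0).mul (hs1 2))
    · show (P 2).IsHomogeneous 2
      rw [hP2]
      exact ((hr1 0).mul (hs1 1)).sub ((hr1 1).mul (hs1 0))
  have e01 : P 0 * c 1 = P 1 * c 0 := by
    rw [hP0, hP1]
    linear_combination s 2 * hr - r 2 * hs
  have e12 : P 1 * c 2 = P 2 * c 1 := by
    rw [hP1, hP2]
    linear_combination s 0 * hr - r 0 * hs
  have e20 : P 2 * c 0 = P 0 * c 2 := by
    rw [hP2, hP0]
    linear_combination s 1 * hr - r 1 * hs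
  have hPc : ∀ a b, P a * c b = P b * c a := by
    intro a b
    fin_cases a <;> fin_cases b
    · rfl
    · exact e01
    · exact e20.symm
    · exact e01.symm
    · rfl
    · exact e12
    · exact e20
    · exact e12.symm
    · rfl
  obtain ⟨g, hg⟩ : c m ∣ P m := by
    apply cs_dvd hc
    intro j
    exact ⟨P j, by linear_combination hPc m j⟩
  have hgj : ∀ j, P j = g * c j := by
    intro j
    apply mul_right_cancel₀ hm
    rw [hPc j m, hg]
    ring
  obtain ⟨γ, hγ⟩ : ∃ γ : ℂ, g = C γ := by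
    by_cases h0 : P m = 0
    · refine ⟨0, ?_⟩
      rw [h0] at hg
      rw [C_0]
      exact (mul_eq_zero.1 hg.symm).resolve_left hm
    · have h1 := cs_deg (hh m) (hPh m) h0 hg
      have h2 : g.totalDegree = 0 := by omega
      exact ⟨_, totalDegree_eq_zero_iff_eq_C.1 h2⟩
  refine ⟨γ, ?_⟩
  have q0 : r 1 * s 2 - r 2 * s 1 = C γ * c 0 := by rw [← hP0, hgj, hγ]
  have q1 : r 2 * s 0 - r 0 * s 2 = C γ * c 1 := by rw [← hP1, hgj, hγ]
  have q2 : r 0 * s 1 - r 1 * s 0 = C γ * c 2 := by rw [← hP2, hgj, hγ]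
  intro j j'
  fin_cases j <;> fin_cases j'
  · show r 0 * s 0 - r 0 * s 0 = C γ * 0
    ring
  · show r 0 * s 1 - r 1 * s 0 = C γ * c 2
    exact q2
  · show r 0 * s 2 - r 2 * s 0 = C γ * -c 1
    linear_combination -q1
  · show r 1 * s 0 - r 0 * s 1 = C γ * -c 2
    linear_combination -q2
  · show r 1 * s 1 - r 1 * s 1 = C γ * 0
    ring
  · show r 1 * s 2 - r 2 * s 1 = C γ * c 0
    exact q0
  · show r 2 * s 0 - r 0 * s 2 = C γ * c 1
    exact q1
  · show r 2 * s 1 - r 1 * s 2 = C γ * -c 0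
    linear_combination -q0
  · show r 2 * s 2 - r 2 * s 2 = C γ * 0
    ring

theorem cross {ρ : Fin 5 → Fin 3 → Fin 3 → ℂ} {c : Fin 3 → Pn 3} {k : ℕ} (h : CrIn ρ c k) :
    (∃ U : Submodule ℂ (Fin 5 → ℂ), Module.finrank ℂ U = 2 ∧ ∀ j l, (fun i => ρ i j l) ∈ U) ∧
    ∀ a : Fin 3 → ℂ, ∑ j, C (a j) * c j = 0 → a = 0 := by
  refine ⟨?_, fun a ha => funext fun j => cs_ind h a ha j⟩
  have hrel : ∀ i, c 0 * lf (ρ i 0) + c 1 * lf (ρ i 1) + c 2 * lf (ρ i 2) = 0 := by
    intro i
    have h1 := h.rel i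
    rwa [Fin.sum_univ_three] at h1
  have hM : ∀ i i' : Fin 5, ∃ γ : ℂ, ∀ j j', lf (ρ i j) * lf (ρ i' j') - lf (ρ i j') * lf (ρ i' j) =
      C γ * cs_E c j j' := fun i i' =>
    cs_minor h.k2 h.hom h.cop (r := fun j => lf (ρ i j)) (s := fun j => lf (ρ i' j))
      (fun j => cs_hom _) (fun j => cs_hom _) (hrel i) (hrel i')
  choose g hg using hM
  obtain ⟨x, a, b, u, v, hx⟩ := h.p0
  have hne : lf (ρ a u) * lf (ρ b v) - lf (ρ a v) * lf (ρ b u) ≠ 0 := by
    intro h0
    apply hx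
    have h1 := congrArg (eval x) h0
    simp only [map_sub, map_mul, cs_eval, map_zero] at h1
    exact h1
  have hE : cs_E c u v ≠ 0 := by
    intro h0
    apply hne
    rw [hg, h0, mul_zero]
  have hgab : g a b ≠ 0 := by
    intro h0
    apply hne
    rw [hg, h0, C_0, zero_mul]
  have hCE : ∀ s : ℂ, C s * cs_E c u v = 0 → s = 0 := by
    intro s hs
    have h1 := (mul_eq_zero.1 hs).resolve_right hE
    exact C_eq_zero.1 h1
  have haa : g a a = 0 := by
    apply hCE
    rw [← hg]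
    ring
  have hbb : g b b = 0 := by
    apply hCE
    rw [← hg]
    ring
  have hba : g b a + g a b = 0 := by
    apply hCE
    rw [C_add, add_mul, ← hg, ← hg]
    ring
  have hW : ∀ i j, C (g a b) * lf (ρ i j) - C (g i b) * lf (ρ a j) + C (g i a) * lf (ρ b j) = 0 := by
    intro i j
    refine cs_W (w := fun j => C (g a b) * lf (ρ i j) - C (g i b) * lf (ρ a j) +
      C (g i a) * lf (ρ b j)) (p := fun j => lf (ρ a j)) (q := fun j => lf (ρ b j)) ?_ ?_ hne j
    · intro j j'
      linear_combination C (g a b) * hg i a j j' - C (g i a) * hg a b j j'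
    · intro j j'
      linear_combination C (g a b) * hg i b j j' - C (g i b) * hg a b j j'
  have hρ : ∀ i j l, g a b * ρ i j l = g i b * ρ a j l - g i a * ρ b j l := by
    intro i j l
    have h1 : lf (fun l => g a b * ρ i j l + 1 * (-g i b * ρ a j l + g i a * ρ b j l)) = 0 := by
      rw [← cs_lin, ← cs_lin, C_neg, C_1]
      linear_combination hW i j
    have h2 := cs_inj h1 l
    linear_combination h2
  have hli : LinearIndependent ℂ ![(fun i => g i b / g a b : Fin 5 → ℂ), fun i => -g i a / g a b] := by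
    rw [LinearIndependent.pair_iff]
    intro s t hst
    have h1 := congrFun hst a
    have h2 := congrFun hst b
    simp only [Pi.add_apply, Pi.smul_apply, smul_eq_mul, Pi.zero_apply] at h1 h2
    rw [haa, neg_zero, zero_div, mul_zero, add_zero, div_self hgab, mul_one] at h1
    rw [hbb, zero_div, mul_zero, zero_add, eq_neg_of_add_eq_zero_left hba, neg_neg, div_self hgab,
      mul_one] at h2
    exact ⟨h1, h2⟩
  refine ⟨Submodule.span ℂ (Set.range ![(fun i => g i b / g a b : Fin 5 → ℂ),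
    fun i => -g i a / g a b]), ?_, ?_⟩
  · rw [finrank_span_eq_card hli, Fintype.card_fin]
  · intro j l
    have h1 : (fun i => ρ i j l) = ρ a j l • (fun i => g i b / g a b : Fin 5 → ℂ) +
        ρ b j l • (fun i => -g i a / g a b : Fin 5 → ℂ) := by
      funext i
      simp only [Pi.add_apply, Pi.smul_apply, smul_eq_mul]
      apply mul_left_cancel₀ hgab
      rw [hρ]
      field_simp
      ring
    rw [h1]
    exact Submodule.add_mem _ (Submodule.smul_mem _ _ (Submodule.subset_span ⟨0, rfl⟩))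
      (Submodule.smul_mem _ _ (Submodule.subset_span ⟨1, rfl⟩))

end Pool.Agent.Helper34.B1
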