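import Pool.Agent.Helper71.FC.CaseY

/-!
B1-0.  Block B1 of the project on MP_45a28a (frozen statement S00166): case Y, five variables,
`e_2(P) = 1`, three linear fields.  `θ : F2 5`, `H : x_0 = 0`, `P : x_0 = x_1 = 0`, coordinates of `P` = `Fin 3`
(`= x_2, x_3, x_4`).  `av θ v` restricted to `H`, `P` is `aH θ v`, `aP θ v`.
A linear field is a matrix `K : Fin 5 → Fin 5 → ℂ`, first index = source, second index = target:
`K(x)_i = ∑ l, x_l * K l i`; its value on the basis vector `e_l` is the vector `K l`.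
-/

set_option autoImplicit false

namespace Pool.Agent.Helper34.B1

open MvPolynomial
open scoped BigOperators
open Pool.Agent.Helper71.FL (w12 pf ct Dec Closed dd at0 emb res)
open Pool.Agent.Helper93 (lsub lmap OF pb)
open Pool.Agent.Helper71.FC

/-- the form `a_v` restricted to `x_0 = 0` -/
noncomputable def aH (θ : F2 5) (v : Fin 5 → ℂ) : F1 4 := res (av θ v)

/-- the form `a_v` restricted to `x_0 = x_1 = 0` -/
noncomputable def aP (θ : F2 5) (v : Fin 5 → ℂ) : F1 3 := res (aH θ v)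

/-- the components of a linear field as polynomials -/
noncomputable def Xf {m : ℕ} (K : Fin m → Fin 5 → ℂ) (i : Fin 5) : Pn m := lf (fun l => K l i)

/-- linear fields on `V = ℂ^5` tangent to `ker θ` -/
def IsKV (θ : F2 5) (K : Fin 5 → Fin 5 → ℂ) : Prop := ∀ j, ∑ l, X l * av θ (K l) j = 0

/-- linear fields along `P` tangent to `ker θ` -/
def IsKP (θ : F2 5) (K : Fin 3 → Fin 5 → ℂ) : Prop := ∀ j, ∑ l, X l * aP θ (K l) j = 0

/-- restriction of a linear field to `P` -/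
def toP (K : Fin 5 → Fin 5 → ℂ) : Fin 3 → Fin 5 → ℂ := fun l => K l.succ.succ

/-- the value of a linear field at a point -/
def vl {m : ℕ} (K : Fin m → Fin 5 → ℂ) (x : Fin m → ℂ) : Fin 5 → ℂ := fun i => ∑ l, x l * K l i

/-- polynomial combinations of the `a_v` on `V`, `H`, `P` -/
def SV (θ : F2 5) (ξ : F1 5) : Prop := ∃ f : Fin 5 → Pn 5, ∀ j, ξ j = ∑ i, f i * θ i j

def SH (θ : F2 5) (ξ : F1 4) : Prop := ∃ f : Fin 5 → Pn 4, ∀ j, ξ j = ∑ i, f i * at0 4 ℂ (θ i j.succ)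

def SP (θ : F2 5) (ξ : F1 3) : Prop :=
  ∃ f : Fin 5 → Pn 3, ∀ j, ξ j = ∑ i, f i * at0 3 ℂ (at0 4 ℂ (θ i j.succ.succ))

/-- the input of block B1: a good flag in the case `e_2(P) = 1`, `e_3(H) = 5`, three linear fields.
`σ` spans `E_2` of the plane, `u` is the point of `P` with `{y : y σ ∈ A|P} = u^⊥`, `T` is a basis of the space of
linear fields on `V`, whose restrictions form a basis of the space of linear fields along `P`. -/
structure B1In (θ : F2 5) (σ : F1 3) (u : Fin 3 → ℂ) (T : Fin 3 → Fin 5 → Fin 5 → ℂ) : Prop where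
  cy : CY θ
  folH : Fol (rs2 θ)
  folP : Fol (rs2 (rs2 θ))
  hzV : hz θ
  hzH : hz (rs2 θ)
  eH : ∀ k ≤ 2, EE (rs2 θ) k = ⊥
  eP : ∀ k ≤ 1, EE (rs2 (rs2 θ)) k = ⊥
  e3V : ∀ ξ ∈ EE θ 3, ∃ v, ξ = av θ v
  e3H : ∀ ξ ∈ EE (rs2 θ) 3, ∃ v, ξ = aH θ v
  inj : ∀ v, aP θ v = 0 → v = 0
  s0 : σ ≠ 0
  sE : σ ∈ EE (rs2 (rs2 θ)) 2
  sspan : ∀ ζ ∈ EE (rs2 (rs2 θ)) 2, ∃ c : ℂ, ζ = c • σ
  e3P : ∀ ζ ∈ EE (rs2 (rs2 θ)) 3, ∃ v y, ∀ j, ζ j = aP θ v j + lf y * σ j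
  gen : ∀ k, 3 ≤ k → ∀ ζ ∈ EE (rs2 (rs2 θ)) (k + 1),
    ∃ η : Fin 3 → F1 3, (∀ l, η l ∈ EE (rs2 (rs2 θ)) k) ∧ ∀ j, ζ j = ∑ l, X l * η l j
  u0 : u ≠ 0
  vp : ∀ v y, (∀ j, aP θ v j = lf y * σ j) → ∑ l, y l * u l = 0
  pv : ∀ y, ∑ l, y l * u l = 0 → ∃ v, ∀ j, aP θ v j = lf y * σ j
  KV : ∀ k, IsKV θ (T k)
  KP : ∀ K, IsKP θ K → ∃ c : Fin 3 → ℂ, K = ∑ k, c k • toP (T k)
  KPi : ∀ c : Fin 3 → ℂ, ∑ k, c k • toP (T k) = 0 → c = 0

end Pool.Agent.Helper34.B1
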