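import Pool.Agent.Helper34.B1.Plane

/-!
B1-3.  `θ(v,w) = c · det(v, w, T_0 x, T_1 x, T_2 x)`.

* `D5_prop`: over a domain `R` with fraction field `F`.  If `θ = 0` clear.  Otherwise `θ` is a decomposable alternating form
  of rank 2 on `F^5` with 3-dimensional kernel.  If `X_0, X_1, X_2` are dependent all `D5 = 0`.  If not they span the kernel; choose
  `a, b` with `θ a b ≠ 0`: modulo the kernel `e_i ≡ (θ i b / θ a b) e_a + (θ a i / θ a b) e_b` (this is `pf = 0`), so
  `D5 i j = (θ i b θ a j - θ j b θ a i)/(θ a b)^2 · D5 a b = (θ i j / θ a b) D5 a b` (again `pf θ = 0`).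
  [Alternative without fraction fields: `θ a b • e_i - θ i b • e_a - θ a i • e_b` is killed by `θ` (pf), hence `θ a b * D5 i j` can be
  computed with `AlternatingMap`/`Matrix.det` row operations once we know that a vector `n` killed by `θ` together with
  `X_0, X_1, X_2` has all `det(·, n, X_0, X_1, X_2) = 0`: the rows `θ a ·, θ b ·` are two independent vectors orthogonal to
  `n, X_0, X_1, X_2`, so the rank of `(v, n, X_0, X_1, X_2)` is `≤ 4`.]
* `D5_const`: `D5 i j = q θ i j` by `D5_prop` and primitivity (as in `wedge_eq_mul`), degrees: `q` is a non zero constant.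
* `D5_dep_iff`: rank of a `3 × 5` matrix (maximal minors; each `3 × 3` minor is `± D5 i j`).
* `D5_ne`: if all `D5 = 0` on `V`, then all `D5` of the restrictions to `P` vanish (`D5_map`), so `∑ g k * X_k|P = 0` with
  `g : Fin 3 → Pn 3` not zero, `g k0 ≠ 0`.  Choose `p` with `eval p (g k0) ≠ 0` and `p ∉ ℂ u` (multiply `g k0` by a linear form
  vanishing at `u`).  `K = ∑ (eval p (g k)) • toP (T k)` is tangent, `≠ 0` (`KPi`), `vl K p = 0`: `kill` contradicts `p ∉ ℂ u`.
-/

set_option autoImplicit false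

namespace Pool.Agent.Helper34.B1

open MvPolynomial
open scoped BigOperators
open Pool.Agent.Helper71.FL (w12 pf ct Dec Closed dd at0 emb res)
open Pool.Agent.Helper93 (lsub lmap OF pb)
open Pool.Agent.Helper71.FC

/-- `det(e_i, e_j, X_0, X_1, X_2)` -/
def D5 {R : Type} [CommRing R] (X : Fin 3 → Fin 5 → R) (i j : Fin 5) : R :=
  Matrix.det (Matrix.of ![Pi.single i 1, Pi.single j 1, X 0, X 1, X 2])

theorem D5_map {R S : Type} [CommRing R] [CommRing S] (ρ : R →+* S) (X : Fin 3 → Fin 5 → R)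
    (i j : Fin 5) : D5 (fun k l => ρ (X k l)) i j = ρ (D5 X i j) := by
  unfold D5
  rw [RingHom.map_det]
  congr 1
  ext a b
  have hs : ∀ c : Fin 5, (Pi.single c 1 : Fin 5 → S) b = ρ ((Pi.single c 1 : Fin 5 → R) b) := by
    intro c
    rw [Pi.single_apply, Pi.single_apply]
    split_ifs
    · rw [map_one]
    · rw [map_zero]
  fin_cases a
  · exact hs i
  · exact hs j
  · rfl
  · rfl
  · rfl

private theorem det_lin0 {R : Type} [CommRing R] (w a b c : Fin 5 → R) :
    ∃ L : (Fin 5 → R) →ₗ[R] R, ∀ v, L v = Matrix.det (Matrix.of ![v, w, a, b, c]) := by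
  refine ⟨{ toFun := fun v => Matrix.det ((Matrix.of ![0, w, a, b, c]).updateRow 0 v)
            map_add' := fun u v => Matrix.det_updateRow_add _ _ _ _
            map_smul' := fun r v => Matrix.det_updateRow_smul _ _ _ _ }, fun v => ?_⟩
  have h1 : (Matrix.of ![0, w, a, b, c]).updateRow 0 v = Matrix.of ![v, w, a, b, c] := by
    ext i j
    fin_cases i <;> rfl
  exact congrArg Matrix.det h1

private theorem det_lin1 {R : Type} [CommRing R] (w a b c : Fin 5 → R) :
    ∃ L : (Fin 5 → R) →ₗ[R] R, ∀ v, L v = Matrix.det (Matrix.of ![w, v, a, b, c]) := by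
  refine ⟨{ toFun := fun v => Matrix.det ((Matrix.of ![w, 0, a, b, c]).updateRow 1 v)
            map_add' := fun u v => Matrix.det_updateRow_add _ _ _ _
            map_smul' := fun r v => Matrix.det_updateRow_smul _ _ _ _ }, fun v => ?_⟩
  have h1 : (Matrix.of ![w, 0, a, b, c]).updateRow 1 v = Matrix.of ![w, v, a, b, c] := by
    ext i j
    fin_cases i <;> rfl
  exact congrArg Matrix.det h1

private theorem lin_sum {R : Type} [CommRing R] (L : (Fin 5 → R) →ₗ[R] R) (v : Fin 5 → R) :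
    L v = ∑ i, v i * L (Pi.single i 1) := by
  rw [LinearMap.pi_apply_eq_sum_univ L v]
  refine Finset.sum_congr rfl fun i _ => ?_
  rw [smul_eq_mul]
  congr 2
  funext j
  rw [Pi.single_apply]
  simp only [eq_comm]

private theorem D5_sum1 {R : Type} [CommRing R] (X : Fin 3 → Fin 5 → R) (v w : Fin 5 → R) :
    Matrix.det (Matrix.of ![v, w, X 0, X 1, X 2]) =
      ∑ i, v i * Matrix.det (Matrix.of ![Pi.single i 1, w, X 0, X 1, X 2]) := by
  obtain ⟨L, hL⟩ := det_lin0 w (X 0) (X 1) (X 2)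
  rw [← hL, lin_sum]
  exact Finset.sum_congr rfl fun i _ => by rw [hL]

private theorem D5_sum2 {R : Type} [CommRing R] (X : Fin 3 → Fin 5 → R) (v w : Fin 5 → R) :
    Matrix.det (Matrix.of ![v, w, X 0, X 1, X 2]) =
      ∑ i, w i * Matrix.det (Matrix.of ![v, Pi.single i 1, X 0, X 1, X 2]) := by
  obtain ⟨L, hL⟩ := det_lin1 v (X 0) (X 1) (X 2)
  rw [← hL, lin_sum]
  exact Finset.sum_congr rfl fun i _ => by rw [hL]

/-- bilinear form of the determinant -/
theorem D5_sum {R : Type} [CommRing R] (X : Fin 3 → Fin 5 → R) (v w : Fin 5 → R) :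
    Matrix.det (Matrix.of ![v, w, X 0, X 1, X 2]) = ∑ i, ∑ j, v i * w j * D5 X i j := by
  rw [D5_sum1]
  refine Finset.sum_congr rfl fun i _ => ?_
  rw [D5_sum2, Finset.mul_sum]
  exact Finset.sum_congr rfl fun j _ => by rw [mul_assoc]; rfl

theorem D5_dep {R : Type} [CommRing R] [IsDomain R] {X : Fin 3 → Fin 5 → R} {g : Fin 3 → R}
    (hg : g ≠ 0) (h : ∀ i, ∑ k, g k * X k i = 0) (i j : Fin 5) : D5 X i j = 0 := by
  unfold D5
  rw [← Matrix.exists_vecMul_eq_zero_iff]
  refine ⟨![0, 0, g 0, g 1, g 2], fun hz => hg ?_, ?_⟩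
  · funext k
    fin_cases k
    · exact congrFun hz 2
    · exact congrFun hz 3
    · exact congrFun hz 4
  · funext l
    have h1 := h l
    rw [Fin.sum_univ_three] at h1
    rw [Matrix.vecMul, dotProduct, Fin.sum_univ_five]
    show (0 : R) * _ + 0 * _ + g 0 * X 0 l + g 1 * X 1 l + g 2 * X 2 l = 0
    rw [zero_mul, zero_mul, zero_add, zero_add]
    exact h1

private theorem ex_nm {K : Type} [Field K] {m : ℕ} (hm : m < 5) (b : Fin m → Fin 5 → K) :
    ∃ v, v ∉ Submodule.span K (Set.range b) := by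
  by_contra hcon
  push Not at hcon
  have h1 : Submodule.span K (Set.range b) = ⊤ := eq_top_iff.2 fun v _ => hcon v
  have h2 := finrank_range_le_card (R := K) b
  rw [Set.finrank, h1, finrank_top, Module.finrank_fin_fun, Fintype.card_fin] at h2
  omega

theorem dep_of_D5 {R : Type} [CommRing R] [IsDomain R] {X : Fin 3 → Fin 5 → R}
    (h : ∀ i j, D5 X i j = 0) : ∃ g : Fin 3 → R, g ≠ 0 ∧ ∀ i, ∑ k, g k * X k i = 0 := by
  by_contra hcon
  push Not at hcon
  let K := FractionRing R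
  let ρ : R →+* K := algebraMap R K
  have hρ : Function.Injective ρ := IsFractionRing.injective R K
  let Y : Fin 3 → Fin 5 → K := fun k l => ρ (X k l)
  have hli : LinearIndependent R Y := by
    rw [Fintype.linearIndependent_iff]
    intro g hg k
    by_contra hk
    obtain ⟨i, hi⟩ := hcon g (fun hz => hk (congrFun hz k))
    apply hi
    apply hρ
    have h1 := congrFun hg i
    rw [Finset.sum_apply, Pi.zero_apply] at h1
    rw [map_zero, ← h1, map_sum]
    refine Finset.sum_congr rfl fun l _ => ?_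
    rw [map_mul, Pi.smul_apply, Algebra.smul_def]
  have hK : LinearIndependent K Y := (LinearIndependent.iff_fractionRing R K).mp hli
  obtain ⟨w, hw⟩ := ex_nm (by norm_num) Y
  have hK1 : LinearIndependent K (Fin.cons w Y : Fin 4 → Fin 5 → K) :=
    linearIndependent_finCons.2 ⟨hK, hw⟩
  obtain ⟨v, hv⟩ := ex_nm (by norm_num) (Fin.cons w Y : Fin 4 → Fin 5 → K)
  have hK2 : LinearIndependent K (Fin.cons v (Fin.cons w Y : Fin 4 → Fin 5 → K) :
      Fin 5 → Fin 5 → K) := linearIndependent_finCons.2 ⟨hK1, hv⟩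
  have hM : (Matrix.of ![v, w, Y 0, Y 1, Y 2]) =
      (Matrix.of (Fin.cons v (Fin.cons w Y : Fin 4 → Fin 5 → K) : Fin 5 → Fin 5 → K)) := by
    ext a b
    fin_cases a <;> rfl
  have hdet : Matrix.det (Matrix.of ![v, w, Y 0, Y 1, Y 2]) = 0 := by
    rw [D5_sum]
    refine Finset.sum_eq_zero fun i _ => Finset.sum_eq_zero fun j _ => ?_
    have : D5 Y i j = ρ (D5 X i j) := D5_map ρ X i j
    rw [this, h, map_zero, mul_zero]
  have hu : IsUnit (Matrix.of (Fin.cons v (Fin.cons w Y : Fin 4 → Fin 5 → K) :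
      Fin 5 → Fin 5 → K)) := Matrix.linearIndependent_rows_iff_isUnit.1 hK2
  rw [Matrix.isUnit_iff_isUnit_det, ← hM, hdet] at hu
  exact not_isUnit_zero hu

private theorem cram {R : Type} [CommRing R] (M : Matrix (Fin 5) (Fin 5) R) (z : Fin 5 → R)
    (y : Fin 5) : M.det * z y = ∑ k, (M.updateRow k z).det * M k y := by
  have h1 := congrFun (Matrix.mulVec_cramer M.transpose z) y
  rw [Matrix.det_transpose, Pi.smul_apply, smul_eq_mul] at h1
  rw [← h1, Matrix.mulVec, dotProduct]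
  refine Finset.sum_congr rfl fun k _ => ?_
  rw [Matrix.cramer_transpose_apply, Matrix.transpose_apply, mul_comm]

private theorem D5_cr {R : Type} [CommRing R] {B : Fin 5 → Fin 5 → R} {X : Fin 3 → Fin 5 → R}
    (hX : ∀ k y, ∑ i, X k i * B i y = 0) (a b z y : Fin 5) :
    D5 X a b * B z y = D5 X z b * B a y + D5 X a z * B b y := by
  set M : Matrix (Fin 5) (Fin 5) R :=
    Matrix.of ![Pi.single a 1, Pi.single b 1, X 0, X 1, X 2] with hM
  have e : ∀ t, D5 X a b * (Pi.single z 1 : Fin 5 → R) t =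
      ∑ k, (M.updateRow k (Pi.single z 1)).det * M k t := fun t => cram M _ t
  have hs : ∀ c : Fin 5, ∑ t, (Pi.single c 1 : Fin 5 → R) t * B t y = B c y := by
    intro c
    rw [Finset.sum_eq_single c]
    · rw [Pi.single_eq_same, one_mul]
    · intro t _ ht
      rw [Pi.single_eq_of_ne ht, zero_mul]
    · intro h
      exact absurd (Finset.mem_univ c) h
  have e1 : D5 X a b * B z y =
      ∑ k, (M.updateRow k (Pi.single z 1)).det * ∑ t, M k t * B t y := by
    rw [← hs z, Finset.mul_sum]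
    rw [Finset.sum_congr rfl (fun t _ => by
      rw [← mul_assoc, e t, Finset.sum_mul] :
      ∀ t ∈ Finset.univ, D5 X a b * ((Pi.single z 1 : Fin 5 → R) t * B t y) =
        ∑ k, (M.updateRow k (Pi.single z 1)).det * M k t * B t y)]
    rw [Finset.sum_comm]
    refine Finset.sum_congr rfl fun k _ => ?_
    rw [Finset.mul_sum]
    exact Finset.sum_congr rfl fun t _ => mul_assoc _ _ _
  rw [e1, Fin.sum_univ_five]
  have m0 : ∑ t, M 0 t * B t y = B a y := hs a
  have m1 : ∑ t, M 1 t * B t y = B b y := hs b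
  have m2 : ∑ t, M 2 t * B t y = 0 := hX 0 y
  have m3 : ∑ t, M 3 t * B t y = 0 := hX 1 y
  have m4 : ∑ t, M 4 t * B t y = 0 := hX 2 y
  rw [m0, m1, m2, m3, m4, mul_zero, mul_zero, mul_zero, add_zero, add_zero, add_zero]
  have u0 : (M.updateRow 0 (Pi.single z 1)) =
      Matrix.of ![Pi.single z 1, Pi.single b 1, X 0, X 1, X 2] := by
    ext i j
    fin_cases i <;> rfl
  have u1 : (M.updateRow 1 (Pi.single z 1)) =
      Matrix.of ![Pi.single a 1, Pi.single z 1, X 0, X 1, X 2] := by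
    ext i j
    fin_cases i <;> rfl
  rw [u0, u1]
  rfl

private theorem D5_alt0 {R : Type} [CommRing R] (X : Fin 3 → Fin 5 → R) (i : Fin 5) :
    D5 X i i = 0 := by
  unfold D5
  exact Matrix.det_zero_of_row_eq (i := 0) (j := 1) (by decide) rfl

private theorem D5_alt {R : Type} [CommRing R] (X : Fin 3 → Fin 5 → R) (i j : Fin 5) :
    D5 X i j = - D5 X j i := by
  obtain ⟨L, hL⟩ := det_lin0 (Pi.single i 1 + Pi.single j 1) (X 0) (X 1) (X 2)
  obtain ⟨L0, hL0⟩ := det_lin1 (Pi.single i 1) (X 0) (X 1) (X 2)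
  obtain ⟨L1, hL1⟩ := det_lin1 (Pi.single j 1) (X 0) (X 1) (X 2)
  have h0 : L (Pi.single i 1 + Pi.single j 1) = 0 := by
    rw [hL]
    exact Matrix.det_zero_of_row_eq (i := 0) (j := 1) (by decide) rfl
  rw [map_add, hL, hL, ← hL0, ← hL1, map_add, map_add, hL0, hL0, hL1, hL1] at h0
  have e0 : Matrix.det (Matrix.of ![Pi.single i 1, Pi.single i 1, X 0, X 1, X 2]) = 0 :=
    D5_alt0 X i
  have e1 : Matrix.det (Matrix.of ![Pi.single j 1, Pi.single j 1, X 0, X 1, X 2]) = 0 :=
    D5_alt0 X j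
  rw [e0, e1, zero_add, add_zero] at h0
  exact eq_neg_of_add_eq_zero_left h0

private theorem D5_kill {R : Type} [CommRing R] (X : Fin 3 → Fin 5 → R) (k : Fin 3) (y : Fin 5) :
    ∑ i, X k i * D5 X i y = 0 := by
  have h1 := D5_sum1 X (X k) (Pi.single y 1)
  have h2 : Matrix.det (Matrix.of ![X k, Pi.single y 1, X 0, X 1, X 2]) = 0 := by
    fin_cases k
    · exact Matrix.det_zero_of_row_eq (i := 0) (j := 2) (by decide) rfl
    · exact Matrix.det_zero_of_row_eq (i := 0) (j := 3) (by decide) rfl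
    · exact Matrix.det_zero_of_row_eq (i := 0) (j := 4) (by decide) rfl
  rw [h2] at h1
  exact h1.symm

private theorem D5_sq {R : Type} [CommRing R] {B : Fin 5 → Fin 5 → R} {X : Fin 3 → Fin 5 → R}
    (h0 : ∀ i, B i i = 0) (h1 : ∀ i j, B i j = - B j i)
    (hX : ∀ k y, ∑ i, X k i * B i y = 0) (a b z y : Fin 5) :
    D5 X a b ^ 2 * B z y = (D5 X z b * D5 X a y - D5 X a z * D5 X y b) * B a b := by
  have e1 := D5_cr hX a b z y
  have e2 := D5_cr hX a b y a
  have e3 := D5_cr hX a b y b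
  rw [h0] at e2 e3
  rw [h1 y a, h1 b a] at e2
  rw [h1 y b] at e3
  linear_combination (D5 X a b) * e1 - (D5 X z b) * e2 - (D5 X a z) * e3

theorem D5_prop {R : Type} [CommRing R] [IsDomain R] {θ : Fin 5 → Fin 5 → R} (h : Dec θ)
    {X : Fin 3 → Fin 5 → R} (hX : ∀ k j, ∑ i, X k i * θ i j = 0) (i j k l : Fin 5) :
    D5 X i j * θ k l = D5 X k l * θ i j := by
  by_cases hz : ∀ a b, D5 X a b = 0
  · rw [hz, hz, zero_mul, zero_mul]
  · push Not at hz
    obtain ⟨a, b, hab⟩ := hz
    have t1 := D5_sq h.1 h.2.1 hX a b i j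
    have t2 := D5_sq h.1 h.2.1 hX a b k l
    have d1 := D5_sq (D5_alt0 X) (D5_alt X) (D5_kill X) a b i j
    have d2 := D5_sq (D5_alt0 X) (D5_alt X) (D5_kill X) a b k l
    apply mul_left_cancel₀ (pow_ne_zero 4 hab)
    linear_combination (D5 X a b ^ 2 * θ k l) * d1 +
      ((D5 X i b * D5 X a j - D5 X a i * D5 X j b) * D5 X a b) * t2 -
      (D5 X a b ^ 2 * θ i j) * d2 -
      ((D5 X k b * D5 X a l - D5 X a k * D5 X l b) * D5 X a b) * t1

private theorem d5_prim_div {n : ℕ} {θ : F2 n} (hp : ∀ p, (∀ i j, p ∣ θ i j) → IsUnit p) {A : F2 n}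
    (h : ∀ i j k l, A i j * θ k l = A k l * θ i j) : ∃ f : Pn n, ∀ i j, A i j = f * θ i j := by
  classical
  obtain ⟨k, l, hkl⟩ : ∃ k l, θ k l ≠ 0 := by
    by_contra hcon
    push Not at hcon
    have := hp 0 (fun i j => by rw [hcon])
    exact not_isUnit_zero this
  obtain ⟨inst⟩ : Nonempty (NormalizedGCDMonoid (Pn n)) := inferInstance
  have h1 : θ k l ∣ A k l := by
    have h2 : θ k l ∣ (Finset.univ : Finset (Fin n × Fin n)).gcd (fun q => A k l * θ q.1 q.2) := by
      apply Finset.dvd_gcd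
      rintro ⟨i, j⟩ _
      show θ k l ∣ A k l * θ i j
      rw [← h i j k l]
      exact dvd_mul_left _ _
    have h4 := h2.trans (Finset.gcd_mul_left' (Finset.univ : Finset (Fin n × Fin n))
      (fun q : Fin n × Fin n => θ q.1 q.2) (A k l)).dvd
    have h3 : IsUnit ((Finset.univ : Finset (Fin n × Fin n)).gcd (fun q => θ q.1 q.2)) :=
      hp _ (fun i j => Finset.gcd_dvd (f := fun q : Fin n × Fin n => θ q.1 q.2)
        (Finset.mem_univ (i, j)))
    exact (IsUnit.dvd_mul_right h3).1 h4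
  obtain ⟨f, hf⟩ := h1
  refine ⟨f, fun i j => ?_⟩
  apply mul_right_cancel₀ hkl
  rw [h i j k l, hf]
  ring

private theorem d5_hc_mul {n : ℕ} {f g : Pn n} {d : ℕ} (hg : g.IsHomogeneous d) (m : ℕ) :
    homogeneousComponent (m + d) (f * g) = homogeneousComponent m f * g := by
  have h1 : ∀ i, homogeneousComponent (m + d) (homogeneousComponent i f * g) =
      if i = m then homogeneousComponent m f * g else 0 := by
    intro i
    rw [homogeneousComponent_of_mem (n := i + d) ((homogeneousComponent_isHomogeneous i f).mul hg)]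
    by_cases h : i = m
    · rw [if_pos h, if_pos (by omega), h]
    · rw [if_neg h, if_neg (by omega)]
  conv_lhs => rw [← sum_homogeneousComponent f, Finset.sum_mul, map_sum]
  rw [Finset.sum_congr rfl (fun i _ => h1 i), Finset.sum_ite_eq']
  split_ifs with h
  · rfl
  · rw [homogeneousComponent_eq_zero, zero_mul]
    rw [Finset.mem_range] at h
    omega

private theorem D5_hom {X : Fin 3 → Fin 5 → Pn 5} (h1 : ∀ k i, (X k i).IsHomogeneous 1)
    (i j : Fin 5) : (D5 X i j).IsHomogeneous 3 := by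
  have hs : ∀ c b : Fin 5, ((Pi.single c 1 : Fin 5 → Pn 5) b).IsHomogeneous 0 := by
    intro c b
    rw [Pi.single_apply]
    split_ifs
    · exact isHomogeneous_one _ _
    · exact isHomogeneous_zero _ _ _
  unfold D5
  rw [← Matrix.det_transpose, Matrix.det_apply]
  apply IsHomogeneous.sum
  intro σ _
  have h2 : (∏ a, (Matrix.of ![Pi.single i 1, Pi.single j 1, X 0, X 1, X 2]).transpose
      (σ a) a).IsHomogeneous (∑ a, (![0, 0, 1, 1, 1] : Fin 5 → ℕ) a) := by
    apply IsHomogeneous.prod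
    intro a _
    fin_cases a
    · exact hs i _
    · exact hs j _
    · exact h1 0 _
    · exact h1 1 _
    · exact h1 2 _
  have h3 : (∑ a, (![0, 0, 1, 1, 1] : Fin 5 → ℕ) a) = 3 := by
    rw [Fin.sum_univ_five]
    rfl
  rw [h3] at h2
  rcases Int.units_eq_one_or (Equiv.Perm.sign σ) with hσ | hσ
  · rw [hσ, one_smul]
    exact h2
  · rw [hσ, Units.neg_smul, one_smul]
    exact h2.neg

theorem D5_const {θ : F2 5} (h : Fol θ) {X : Fin 3 → Fin 5 → Pn 5}
    (h1 : ∀ k i, (X k i).IsHomogeneous 1) (hX : ∀ k j, ∑ i, X k i * θ i j = 0)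
    (h0 : ∃ i j, D5 X i j ≠ 0) : ∃ c : ℂ, c ≠ 0 ∧ ∀ i j, D5 X i j = C c * θ i j := by
  obtain ⟨f, hf⟩ := d5_prim_div h.prim (A := fun i j => D5 X i j)
    (fun i j k l => D5_prop h.dec hX i j k l)
  obtain ⟨i, j, hij⟩ := h0
  have hθ0 : θ i j ≠ 0 := fun hz => hij (by rw [hf i j, hz, mul_zero])
  have h2 := d5_hc_mul (f := f) (h.hom i j) 0
  rw [← hf i j, homogeneousComponent_eq_self (by rw [zero_add]; exact D5_hom h1 i j), hf i j] at h2
  have h3 : f = homogeneousComponent 0 f := mul_right_cancel₀ hθ0 h2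
  rw [homogeneousComponent_zero] at h3
  refine ⟨coeff 0 f, fun hz => ?_, fun a b => ?_⟩
  · apply hij
    rw [hf i j, h3, hz, C_0, zero_mul]
  · rw [hf a b, ← h3]

/-- tangency of the field `K` in terms of components -/
theorem IsKV_iff (θ : F2 5) (K : Fin 5 → Fin 5 → ℂ) :
    IsKV θ K ↔ ∀ j, ∑ i, Xf K i * θ i j = 0 := by
  unfold IsKV
  refine forall_congr' fun j => ?_
  have h : ∑ l, X l * av θ (K l) j = ∑ i, Xf K i * θ i j := by
    have h1 : ∀ l, X l * av θ (K l) j = ∑ i, C (K l i) * X l * θ i j := by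
      intro l
      unfold av ct cv
      rw [Finset.mul_sum]
      refine Finset.sum_congr rfl fun i _ => ?_
      ring
    rw [Finset.sum_congr rfl fun l _ => h1 l, Finset.sum_comm]
    refine Finset.sum_congr rfl fun i _ => ?_
    unfold Xf lf
    rw [Finset.sum_mul]
  rw [h]

private theorem at0_lf' {n : ℕ} (a : Fin (n + 1) → ℂ) :
    at0 n ℂ (lf a) = lf (fun l => a l.succ) := by
  have hC : ∀ c : ℂ, at0 n ℂ (C c) = C c := fun c => (at0 n ℂ).commutes c
  have hX : ∀ l : Fin n, at0 n ℂ (X l.succ) = X l := by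
    intro l
    unfold Pool.Agent.Helper71.FL.at0
    rw [aeval_X, Fin.cons_succ]
  have hX0 : at0 n ℂ (X 0) = 0 := by
    unfold Pool.Agent.Helper71.FL.at0
    rw [aeval_X, Fin.cons_zero]
  unfold lf
  rw [map_sum, Fin.sum_univ_succ, map_mul, hX0, mul_zero, zero_add]
  refine Finset.sum_congr rfl fun l _ => ?_
  rw [map_mul, hC, hX]

private theorem eval_lf' {n : ℕ} (p a : Fin n → ℂ) : eval p (lf a) = ∑ l, a l * p l := by
  unfold lf
  rw [map_sum]
  refine Finset.sum_congr rfl fun l _ => ?_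
  rw [map_mul, eval_C, eval_X]

private theorem ex_perp {u : Fin 3 → ℂ} : ∃ y : Fin 3 → ℂ, y ≠ 0 ∧ ∑ l, y l * u l = 0 := by
  by_cases h : u 0 = 0 ∧ u 1 = 0
  · refine ⟨![1, 0, 0], fun hz => one_ne_zero (congrFun hz 0), ?_⟩
    rw [Fin.sum_univ_three]
    show 1 * u 0 + 0 * u 1 + 0 * u 2 = 0
    rw [h.1]
    ring
  · refine ⟨![u 1, - u 0, 0], fun hz => h ⟨?_, congrFun hz 0⟩, ?_⟩
    · have h1 : - u 0 = 0 := congrFun hz 1
      exact neg_eq_zero.1 h1
    · rw [Fin.sum_univ_three]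
      show u 1 * u 0 + (- u 0) * u 1 + 0 * u 2 = 0
      ring

variable {θ : F2 5} {σ : F1 3} {u : Fin 3 → ℂ} {T : Fin 3 → Fin 5 → Fin 5 → ℂ}

theorem D5_ne (h : B1In θ σ u T) : ∃ i j, D5 (fun k => Xf (T k)) i j ≠ 0 := by
  by_contra hcon
  push Not at hcon
  let ρ : Pn 5 →+* Pn 3 := (at0 3 ℂ : Pn 4 →+* Pn 3).comp (at0 4 ℂ : Pn 5 →+* Pn 4)
  have hρ : ∀ k i, ρ (Xf (T k) i) = Xf (toP (T k)) i := by
    intro k i
    show at0 3 ℂ (at0 4 ℂ (Xf (T k) i)) = Xf (toP (T k)) i
    unfold Xf toP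
    rw [at0_lf', at0_lf']
  have hz : ∀ i j, D5 (fun k => Xf (toP (T k))) i j = 0 := by
    intro i j
    have h1 := D5_map ρ (fun k => Xf (T k)) i j
    rw [hcon, map_zero] at h1
    rw [← h1]
    congr 1
    funext k l
    exact (hρ k l).symm
  obtain ⟨g, hg, hgs⟩ := dep_of_D5 hz
  obtain ⟨k0, hk0⟩ : ∃ k, g k ≠ 0 := by
    by_contra hc
    push Not at hc
    exact hg (funext hc)
  obtain ⟨y, hy, hyu⟩ := ex_perp (u := u)
  have hly : lf y ≠ 0 := by
    intro hz
    apply hy
    funext i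
    have h1 := eval_lf' (Pi.single i 1) y
    rw [hz, map_zero] at h1
    rw [Pi.zero_apply, h1, Finset.sum_eq_single i]
    · rw [Pi.single_eq_same, mul_one]
    · intro b _ hb
      rw [Pi.single_eq_of_ne hb, mul_zero]
    · intro hi
      exact absurd (Finset.mem_univ i) hi
  obtain ⟨p, hp⟩ : ∃ p : Fin 3 → ℂ, eval p (g k0 * lf y) ≠ 0 := by
    by_contra hc
    push Not at hc
    refine mul_ne_zero hk0 hly (MvPolynomial.funext fun x => ?_)
    rw [hc, map_zero]
  rw [map_mul] at hp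
  have hp1 : eval p (g k0) ≠ 0 := left_ne_zero_of_mul hp
  have hp2 : eval p (lf y) ≠ 0 := right_ne_zero_of_mul hp
  have hp0 : p ≠ 0 := by
    rintro rfl
    apply hp2
    rw [eval_lf']
    exact Finset.sum_eq_zero fun l _ => by rw [Pi.zero_apply, mul_zero]
  set K : Fin 3 → Fin 5 → ℂ := ∑ k, (eval p (g k)) • toP (T k) with hK
  have hKP : IsKP θ K := by
    rw [hK, Fin.sum_univ_three]
    exact ((((h.KV 0).toP).smul _).add (((h.KV 1).toP).smul _)).add (((h.KV 2).toP).smul _)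
  have hK0 : K ≠ 0 := fun hz => hp1 (congrFun (h.KPi (fun k => eval p (g k)) hz) k0)
  have hv : vl K p = 0 := by
    funext i
    have h1 := congrArg (eval p) (hgs i)
    rw [map_zero, map_sum] at h1
    rw [Pi.zero_apply, ← h1]
    unfold vl
    have h2 : ∀ l, p l * K l i = ∑ k, eval p (g k) * (toP (T k) l i * p l) := by
      intro l
      rw [hK, Finset.sum_apply, Finset.sum_apply, Finset.mul_sum]
      refine Finset.sum_congr rfl fun k _ => ?_
      rw [Pi.smul_apply, Pi.smul_apply, smul_eq_mul]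
      ring
    rw [Finset.sum_congr rfl fun l _ => h2 l, Finset.sum_comm]
    refine Finset.sum_congr rfl fun k _ => ?_
    rw [map_mul, ← Finset.mul_sum]
    congr 1
    exact (eval_lf' p _).symm
  obtain ⟨c, hc⟩ := kill h hKP hK0 hp0 hv
  apply hp2
  rw [eval_lf', hc]
  have : ∑ l, y l * (c • u) l = c * ∑ l, y l * u l := by
    rw [Finset.mul_sum]
    refine Finset.sum_congr rfl fun l _ => ?_
    rw [Pi.smul_apply, smul_eq_mul]
    ring
  rw [this, hyu, mul_zero]

private theorem lf_hom' {n : ℕ} (a : Fin n → ℂ) : (lf a).IsHomogeneous 1 := by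
  unfold lf
  refine IsHomogeneous.sum _ _ _ fun l _ => ?_
  have := (isHomogeneous_C (Fin n) (a l)).mul (isHomogeneous_X ℂ l)
  rwa [zero_add] at this

theorem D5_eq (h : B1In θ σ u T) :
    ∃ c : ℂ, c ≠ 0 ∧ ∀ i j, D5 (fun k => Xf (T k)) i j = C c * θ i j :=
  D5_const h.cy.fol (fun _ _ => lf_hom' _) (fun k => (IsKV_iff θ (T k)).1 (h.KV k)) (D5_ne h)

end Pool.Agent.Helper34.B1
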