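import Pool.Agent.Helper34.B1.PlE

/-!
B1-6.  The first unsaturated degree on `H` (`x_0 = 0`, coordinates `Fin 4`; `P` is `x_0 = 0` of `H` again).

* `exists_bad_H`: for large `m` all of `BS (rs2 θ) (m + 2)` is `IsB` (`BS_large`), so `lift_of_sat` (with `hzH`, `folH`, `folP.prim`)
  gives `ξ ∈ EE (rs2 θ) m` with `res ξ = y0^(m-2) σ`; `SH_res` and `plane_nosat`: `¬ SH ξ`.
* `H_level`: `k + 2` = the least such degree (`Nat.find`); it is `≥ 4` because of `eH`, `e3H`.  `τ0 ∈ EE (rs2 θ) (k + 2)`, `¬ SH τ0`.  By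
  `plane_E` `res τ0 = s + c y0^k σ`, `SP s`; `c ≠ 0`: otherwise `stepH` gives `τ0 = ζ + X 0 η` with `η` of smaller degree, `SH η`.
  Lift `s` to `SH` (`SP_lift`: homogeneous coefficients by `SP_hom`, `emb`), subtract, divide by `c`: `res τ = y0^k σ`.
  Generation (`gen_H`): `ξ ∈ EE (k+2+m)`, `res ξ = s + c y0^(k+m) σ`; `ξ - C c * emb (lf y0)^m τ` has restriction in `SP`: `stepH`; induction on `m`
  (for `m = 0` the rest has degree `k + 1`, so it is in `SH` by minimality).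
  `l_i`: basis `y1, y2` of `u^⊥`: `emb(lf y_i) τ` restricts to `y0^k lf y_i σ ∈ SP`: `stepH`: `emb (lf y_i) τ = ζ + X 0 η`, `η ∈ EE (k+2)`,
  `η = SH + c_i τ` (generation with `m = 0`); `l_i := (-c_i, y_i)`.
-/

set_option autoImplicit false

namespace Pool.Agent.Helper34.B1

open MvPolynomial
open scoped BigOperators
open Pool.Agent.Helper71.FL (w12 pf ct Dec Closed dd at0 emb res)
open Pool.Agent.Helper93 (lsub lmap OF pb)
open Pool.Agent.Helper71.FC

variable {θ : F2 5} {σ : F1 3} {u : Fin 3 → ℂ} {T : Fin 3 → Fin 5 → Fin 5 → ℂ}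

section aux16

private theorem b16_at0_X0 {n : ℕ} : at0 n ℂ (X 0) = 0 := by
  unfold Pool.Agent.Helper71.FL.at0
  rw [aeval_X, Fin.cons_zero]

private theorem b16_at0_Xs {n : ℕ} (i : Fin n) : at0 n ℂ (X i.succ) = X i := by
  unfold Pool.Agent.Helper71.FL.at0
  rw [aeval_X, Fin.cons_succ]

private theorem b16_at0_C {n : ℕ} (c : ℂ) : at0 n ℂ (C c) = C c := (at0 n ℂ).commutes c

private theorem b16_at0_emb {n : ℕ} (f : Pn n) : at0 n ℂ (emb n ℂ f) = f := by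
  have h : (at0 n ℂ).comp (emb n ℂ) = AlgHom.id ℂ (Pn n) := by
    apply MvPolynomial.algHom_ext
    intro i
    rw [AlgHom.comp_apply, AlgHom.id_apply]
    unfold Pool.Agent.Helper71.FL.emb
    rw [rename_X, b16_at0_Xs]
  exact congrArg (fun g : Pn n →ₐ[ℂ] Pn n => g f) h

private theorem b16_emb_hom {n : ℕ} {f : Pn n} {d : ℕ} (h : f.IsHomogeneous d) :
    (emb n ℂ f).IsHomogeneous d := h.rename_isHomogeneous

private theorem b16_at0_hom {n : ℕ} {f : Pn (n + 1)} {d : ℕ} (h : f.IsHomogeneous d) :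
    (at0 n ℂ f).IsHomogeneous d := by
  unfold Pool.Agent.Helper71.FL.at0
  have h1 := h.aeval (Fin.cons (0 : Pn n) (fun i => (X i : Pn n)) : Fin (n + 1) → Pn n) (n := 1)
    (by
      intro i
      refine Fin.cases ?_ (fun j => ?_) i
      · rw [Fin.cons_zero]; exact isHomogeneous_zero _ _ _
      · rw [Fin.cons_succ]; exact isHomogeneous_X _ _)
  rwa [one_mul] at h1

private theorem b16_lf_hom {n : ℕ} (a : Fin n → ℂ) : (lf a).IsHomogeneous 1 := by
  unfold lf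
  refine IsHomogeneous.sum _ _ _ fun l _ => ?_
  have := (isHomogeneous_C (Fin n) (a l)).mul (isHomogeneous_X ℂ l)
  rwa [zero_add] at this

private theorem b16_lf_cons {n : ℕ} (c : ℂ) (y : Fin n → ℂ) :
    lf (Fin.cons c y : Fin (n + 1) → ℂ) = C c * X 0 + emb n ℂ (lf y) := by
  unfold lf
  rw [Fin.sum_univ_succ, Fin.cons_zero, map_sum]
  congr 1
  refine Finset.sum_congr rfl fun i _ => ?_
  rw [Fin.cons_succ, map_mul]
  unfold Pool.Agent.Helper71.FL.emb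
  rw [rename_X, rename_C]

private theorem b16_EE_mul {n : ℕ} {Θ : F2 n} {m k : ℕ} {f : Pn n} (hf : f.IsHomogeneous m)
    {ξ : F1 n} (hξ : ξ ∈ EE Θ k) : (fun j => f * ξ j) ∈ EE Θ (m + k) :=
  ⟨fun j => hf.mul (hξ.1 j), fun i j l => by
    rw [Pool.Agent.Helper71.FL.w12_smul, hξ.2, mul_zero]⟩

private theorem b16_SH_congr {θ : F2 5} {ξ η : F1 4} (h : SH θ ξ) (e : ∀ j, η j = ξ j) : SH θ η := by
  obtain ⟨f, hf⟩ := h
  exact ⟨f, fun j => (e j).trans (hf j)⟩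

private theorem b16_SP_congr {θ : F2 5} {ξ η : F1 3} (h : SP θ ξ) (e : ∀ j, η j = ξ j) : SP θ η := by
  obtain ⟨f, hf⟩ := h
  exact ⟨f, fun j => (e j).trans (hf j)⟩

/-- homogeneous lift from `P` to `H` -/
private theorem b16_SP_lift {θ : F2 5} (hθ : Fol θ) {ξ : F1 3} (h : SP θ ξ) {k : ℕ}
    (hh : ∀ j, (ξ j).IsHomogeneous (k + 3)) : ∃ ζ : F1 4, SH θ ζ ∧
      (∀ j, (ζ j).IsHomogeneous (k + 3)) ∧ ∀ j, res ζ j = ξ j := by
  obtain ⟨f, hf1, hf2⟩ := SP_hom hθ h hh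
  refine ⟨fun j => ∑ i, emb 3 ℂ (f i) * at0 4 ℂ (θ i j.succ), ⟨fun i => emb 3 ℂ (f i), fun j => rfl⟩,
    fun j => ?_, fun j => ?_⟩
  · exact IsHomogeneous.sum _ _ _ fun i _ => (b16_emb_hom (hf1 i)).mul (b16_at0_hom (hθ.hom _ _))
  · unfold Pool.Agent.Helper71.FL.res
    rw [hf2 j, map_sum]
    refine Finset.sum_congr rfl fun i _ => ?_
    rw [map_mul, b16_at0_emb]

end aux16

/-- two independent linear forms on `P` vanishing at `u` -/
theorem exists_y12 (h : B1In θ σ u T) : ∃ y1 y2 : Fin 3 → ℂ, LinearIndependent ℂ ![y1, y2] ∧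
    ∑ l, y1 l * u l = 0 ∧ ∑ l, y2 l * u l = 0 := by
  have hu := h.u0
  by_cases h0 : u 0 = 0
  · by_cases h1 : u 1 = 0
    · have h2 : u 2 ≠ 0 := by
        intro h2
        apply hu
        funext i
        fin_cases i
        · exact h0
        · exact h1
        · exact h2
      refine ⟨![1, 0, 0], ![0, 1, 0], ?_, ?_, ?_⟩
      · rw [LinearIndependent.pair_iff]
        intro s t hst
        have e0 := congrFun hst 0
        have e1 := congrFun hst 1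
        simp at e0 e1
        exact ⟨e0, e1⟩
      · rw [Fin.sum_univ_three]; simp [h0]
      · rw [Fin.sum_univ_three]; simp [h1]
    · refine ⟨![1, 0, 0], ![0, -u 2, u 1], ?_, ?_, ?_⟩
      · rw [LinearIndependent.pair_iff]
        intro s t hst
        have e0 := congrFun hst 0
        have e2 := congrFun hst 2
        simp at e0 e2
        exact ⟨e0, e2.resolve_right h1⟩
      · rw [Fin.sum_univ_three]; simp [h0]
      · rw [Fin.sum_univ_three]; simp; ring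
  · refine ⟨![-u 1, u 0, 0], ![-u 2, 0, u 0], ?_, ?_, ?_⟩
    · rw [LinearIndependent.pair_iff]
      intro s t hst
      have e1 := congrFun hst 1
      have e2 := congrFun hst 2
      simp at e1 e2
      exact ⟨e1.resolve_right h0, e2.resolve_right h0⟩
    · rw [Fin.sum_univ_three]; simp; ring
    · rw [Fin.sum_univ_three]; simp; ring

theorem SP_lift {θ : F2 5} {ξ : F1 3} (h : SP θ ξ) : ∃ ζ : F1 4, SH θ ζ ∧ ∀ j, res ζ j = ξ j := by
  obtain ⟨f, hf⟩ := h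
  refine ⟨fun j => ∑ i, emb 3 ℂ (f i) * at0 4 ℂ (θ i j.succ), ⟨fun i => emb 3 ℂ (f i), fun j => rfl⟩,
    fun j => ?_⟩
  unfold Pool.Agent.Helper71.FL.res
  rw [hf j, map_sum]
  refine Finset.sum_congr rfl fun i _ => ?_
  rw [map_mul, b16_at0_emb]

theorem SH_lift {θ : F2 5} {ξ : F1 4} (h : SH θ ξ) : ∃ ζ : F1 5, SV θ ζ ∧ ∀ j, res ζ j = ξ j := by
  obtain ⟨f, hf⟩ := h
  refine ⟨fun j => ∑ i, emb 4 ℂ (f i) * θ i j, ⟨fun i => emb 4 ℂ (f i), fun j => rfl⟩,
    fun j => ?_⟩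
  unfold Pool.Agent.Helper71.FL.res
  rw [hf j, map_sum]
  refine Finset.sum_congr rfl fun i _ => ?_
  rw [map_mul, b16_at0_emb]

/-- the elements of the spans are annihilated by `θ`; homogeneous ones are in `EE` -/
theorem SH_mem {θ : F2 5} (hθ : Fol θ) {ξ : F1 4} (h : SH θ ξ) {k : ℕ} (hh : ∀ j, (ξ j).IsHomogeneous k) :
    ξ ∈ EE (rs2 θ) k := by
  obtain ⟨f, hf⟩ := h
  refine ⟨hh, fun a b c => ?_⟩
  have hrow : ∀ i : Fin 5, w12 (fun j : Fin 4 => at0 4 ℂ (θ i j.succ)) (rs2 θ) a b c = 0 := by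
    intro i
    have h1 := congrArg (at0 4 ℂ) (hθ.dec.2.2 i a.succ b.succ c.succ)
    rw [map_zero] at h1
    rw [← h1]
    unfold w12 rs2 pf
    rw [hθ.dec.2.1 c.succ a.succ]
    simp only [map_add, map_sub, map_mul, map_neg]
    ring
  have h2 : w12 ξ (rs2 θ) a b c =
      ∑ i, f i * w12 (fun j : Fin 4 => at0 4 ℂ (θ i j.succ)) (rs2 θ) a b c := by
    unfold w12
    rw [hf, hf, hf, Finset.sum_mul, Finset.sum_mul, Finset.sum_mul, ← Finset.sum_add_distrib,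
      ← Finset.sum_add_distrib]
    exact Finset.sum_congr rfl fun i _ => by ring
  rw [h2]
  exact Finset.sum_eq_zero fun i _ => by rw [hrow, mul_zero]

theorem SV_mem {θ : F2 5} (hθ : Fol θ) {ξ : F1 5} (h : SV θ ξ) {k : ℕ} (hh : ∀ j, (ξ j).IsHomogeneous k) :
    ξ ∈ EE θ k := by
  obtain ⟨f, hf⟩ := h
  refine ⟨hh, fun a b c => ?_⟩
  have h1 : ξ = ct f θ := funext hf
  rw [h1]
  exact Pool.Agent.Helper71.FL.w12_ct hθ.dec f a b c

theorem exists_bad_H (h : B1In θ σ u T) : ∃ m, ∃ ξ ∈ EE (rs2 θ) m, ¬ SH θ ξ := by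
  obtain ⟨y0, hy⟩ := exists_y0 h
  obtain ⟨D, hD⟩ := BS_large h.folH.hom
  have hm : (fun j => lf y0 ^ D * σ j) ∈ EE (rs2 (rs2 θ)) (D + 2) := by
    have h1 : (lf y0 ^ D : Pn 3).IsHomogeneous D := by
      have := (b16_lf_hom y0).pow D
      rwa [one_mul] at this
    exact b16_EE_mul h1 h.sE
  obtain ⟨ξ, hξ, hr⟩ := lift_of_sat (n := 3) le_rfl h.folH.hom h.folH.dec h.folP.prim h.hzH
    (k := D + 2) (fun b hb => hD _ (by omega) b hb) hm
  refine ⟨D + 2, ξ, hξ, fun hS => ?_⟩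
  exact plane_nosat h hy D (b16_SP_congr (SH_res hS) (fun j => (hr j).symm))

/-- output of the level `H` -/
structure HLev (θ : F2 5) (σ : F1 3) (u y0 : Fin 3 → ℂ) (k : ℕ) (τ : F1 4) (l1 l2 : Fin 4 → ℂ) : Prop where
  k2 : 2 ≤ k
  mem : τ ∈ EE (rs2 θ) (k + 2)
  low : ∀ m < k + 2, ∀ ξ ∈ EE (rs2 θ) m, SH θ ξ
  rs : ∀ j, res τ j = lf y0 ^ k * σ j
  gen : ∀ m, ∀ ξ ∈ EE (rs2 θ) (k + 2 + m), ∃ f : Pn 4, f.IsHomogeneous m ∧ SH θ (fun j => ξ j - f * τ j)
  ind : LinearIndependent ℂ ![fun l : Fin 3 => l1 l.succ, fun l => l2 l.succ]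
  u1 : ∑ l : Fin 3, l1 l.succ * u l = 0
  u2 : ∑ l : Fin 3, l2 l.succ * u l = 0
  m1 : SH θ (fun j => lf l1 * τ j)
  m2 : SH θ (fun j => lf l2 * τ j)

theorem H_level (h : B1In θ σ u T) {y0 : Fin 3 → ℂ} (hy : ∑ l, y0 l * u l = 1) :
    ∃ (k : ℕ) (τ : F1 4) (l1 l2 : Fin 4 → ℂ), HLev θ σ u y0 k τ l1 l2 := by
  classical
  have hex := exists_bad_H h
  obtain ⟨n0, hn0⟩ : ∃ n0, n0 = Nat.find hex := ⟨_, rfl⟩
  have hbad : ∃ ξ ∈ EE (rs2 θ) n0, ¬ SH θ ξ := by rw [hn0]; exact Nat.find_spec hex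
  have hlow : ∀ m < n0, ∀ ξ ∈ EE (rs2 θ) m, SH θ ξ := by
    intro m hm ξ hξ
    by_contra hS
    rw [hn0] at hm
    exact Nat.find_min hex hm ⟨ξ, hξ, hS⟩
  have hn4 : 4 ≤ n0 := by
    obtain ⟨ξ, hξ, hS⟩ := hbad
    by_contra hlt
    rcases Nat.lt_or_ge n0 3 with h3 | h3
    · rw [h.eH n0 (by omega), Submodule.mem_bot] at hξ
      exact hS (hξ ▸ SH.zero)
    · obtain rfl : n0 = 3 := by omega
      obtain ⟨v, hv⟩ := h.e3H ξ hξ
      exact hS (hv ▸ SH_aH v)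
  obtain ⟨k, rfl⟩ : ∃ k, n0 = k + 2 := ⟨n0 - 2, by omega⟩
  obtain ⟨τ0, hτ0, hSτ0⟩ := hbad
  obtain ⟨c, hc⟩ := plane_E h hy k (res_mem_EE hτ0)
  have hc0 : c ≠ 0 := by
    intro hc0
    have h1 : SP θ (res τ0) := b16_SP_congr hc (fun j => by rw [hc0, C_0, zero_mul, zero_mul, sub_zero])
    obtain ⟨ζ, η, h2, h3, h4⟩ := stepH h (k := k + 1) hτ0 h1
    apply hSτ0
    exact b16_SH_congr (h2.add ((hlow (k + 1) (by omega) η h3).mul (X 0))) h4
  -- homogeneous lift of the rest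
  have hyk : (lf y0 ^ k : Pn 3).IsHomogeneous k := by
    have := (b16_lf_hom y0).pow k
    rwa [one_mul] at this
  have hsh : ∀ j, (res τ0 j - C c * lf y0 ^ k * σ j).IsHomogeneous (k - 1 + 3) := by
    intro j
    have e : k - 1 + 3 = k + 2 := by omega
    rw [e]
    refine ((res_mem_EE hτ0).1 j).sub ?_
    exact (hyk.C_mul c).mul (h.sE.1 j)
  obtain ⟨ζ0, hζ1, hζ2, hζ3⟩ := b16_SP_lift h.cy.fol hc hsh
  have hζE : ζ0 ∈ EE (rs2 θ) (k + 2) := by
    refine SH_mem h.cy.fol hζ1 (fun j => ?_)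
    have e : k - 1 + 3 = k + 2 := by omega
    rw [← e]
    exact hζ2 j
  obtain ⟨τ, hτ⟩ : ∃ τ : F1 4, τ = fun j => C c⁻¹ * (τ0 j - ζ0 j) := ⟨_, rfl⟩
  have hτE : τ ∈ EE (rs2 θ) (k + 2) := by
    have h1 : (τ0 - ζ0) ∈ EE (rs2 θ) (k + 2) := Submodule.sub_mem _ hτ0 hζE
    have h2 := b16_EE_mul (isHomogeneous_C (Fin 4) c⁻¹) h1
    rw [zero_add] at h2
    rw [hτ]
    exact h2
  have hcc : (C c⁻¹ : Pn 3) * C c = 1 := by rw [← C_mul, inv_mul_cancel₀ hc0, C_1]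
  have hτr : ∀ j, res τ j = lf y0 ^ k * σ j := by
    intro j
    have e1 : res τ j = C c⁻¹ * (res τ0 j - res ζ0 j) := by
      rw [hτ]
      unfold Pool.Agent.Helper71.FL.res
      rw [map_mul, map_sub, b16_at0_C]
    rw [e1, hζ3 j]
    linear_combination (lf y0 ^ k * σ j) * hcc
  -- generation
  have hgen : ∀ m, ∀ ξ ∈ EE (rs2 θ) (k + 2 + m), ∃ f : Pn 4, f.IsHomogeneous m ∧
      SH θ (fun j => ξ j - f * τ j) := by
    have hstep : ∀ m, ∀ ξ ∈ EE (rs2 θ) (k + 2 + m), ∃ (c' : ℂ) (ζ η : F1 4), SH θ ζ ∧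
        η ∈ EE (rs2 θ) (k + 1 + m) ∧
        ∀ j, ξ j - C c' * emb 3 ℂ (lf y0) ^ m * τ j = ζ j + X 0 * η j := by
      intro m ξ hξ
      have hξ' : res ξ ∈ EE (rs2 (rs2 θ)) (k + m + 2) := by
        have e : k + 2 + m = k + m + 2 := by omega
        rw [← e]
        exact res_mem_EE hξ
      obtain ⟨c', hc'⟩ := plane_E h hy (k + m) hξ'
      have hym : (emb 3 ℂ (lf y0) ^ m).IsHomogeneous m := by
        have := (b16_emb_hom (b16_lf_hom y0)).pow m
        rwa [one_mul] at this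
      have h1 : (fun j => C c' * emb 3 ℂ (lf y0) ^ m * τ j) ∈ EE (rs2 θ) (k + 1 + m + 1) := by
        have h2 := b16_EE_mul (hym.C_mul c') hτE
        have e : m + (k + 2) = k + 1 + m + 1 := by omega
        rw [e] at h2
        exact h2
      have h3 : (ξ - fun j => C c' * emb 3 ℂ (lf y0) ^ m * τ j) ∈ EE (rs2 θ) (k + 1 + m + 1) := by
        refine Submodule.sub_mem _ ?_ h1
        have e : k + 2 + m = k + 1 + m + 1 := by omega
        rw [← e]
        exact hξ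
      have h4 : SP θ (res (ξ - fun j => C c' * emb 3 ℂ (lf y0) ^ m * τ j)) := by
        refine b16_SP_congr hc' (fun j => ?_)
        have e1 : res (ξ - fun j => C c' * emb 3 ℂ (lf y0) ^ m * τ j) j =
            res ξ j - C c' * lf y0 ^ m * res τ j := by
          unfold Pool.Agent.Helper71.FL.res
          rw [Pi.sub_apply, map_sub, map_mul, map_mul, map_pow, b16_at0_C, b16_at0_emb]
        rw [e1, hτr j, pow_add]
        ring
      obtain ⟨ζ, η, h5, h6, h7⟩ := stepH h h3 h4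
      exact ⟨c', ζ, η, h5, h6, h7⟩
    intro m
    induction m with
    | zero =>
      intro ξ hξ
      obtain ⟨c', ζ, η, h5, h6, h7⟩ := hstep 0 ξ hξ
      refine ⟨C c', isHomogeneous_C _ _, ?_⟩
      refine b16_SH_congr (h5.add ((hlow (k + 1 + 0) (by omega) η h6).mul (X 0))) (fun j => ?_)
      rw [← h7 j, pow_zero, mul_one]
    | succ m ih =>
      intro ξ hξ
      obtain ⟨c', ζ, η, h5, h6, h7⟩ := hstep (m + 1) ξ hξ
      have h6' : η ∈ EE (rs2 θ) (k + 2 + m) := by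
        have e : k + 1 + (m + 1) = k + 2 + m := by omega
        rw [← e]
        exact h6
      obtain ⟨g, hg1, hg2⟩ := ih η h6'
      refine ⟨C c' * emb 3 ℂ (lf y0) ^ (m + 1) + X 0 * g, ?_, ?_⟩
      · refine IsHomogeneous.add ?_ ?_
        · have := (b16_emb_hom (b16_lf_hom y0)).pow (m + 1)
          rw [one_mul] at this
          exact this.C_mul c'
        · have := (isHomogeneous_X ℂ (0 : Fin 4)).mul hg1
          rwa [add_comm] at this
      · refine b16_SH_congr (h5.add (hg2.mul (X 0))) (fun j => ?_)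
        linear_combination h7 j
  -- the two linear forms
  have hlin : ∀ y : Fin 3 → ℂ, ∑ l, y l * u l = 0 → ∃ c' : ℂ,
      SH θ (fun j => lf (Fin.cons c' y : Fin 4 → ℂ) * τ j) := by
    intro y hyu
    have h1 : (fun j => emb 3 ℂ (lf y) * τ j) ∈ EE (rs2 θ) (k + 2 + 1) := by
      have h2 := b16_EE_mul (b16_emb_hom (b16_lf_hom y)) hτE
      rw [add_comm 1 (k + 2)] at h2
      exact h2
    have h3 : SP θ (res (fun j => emb 3 ℂ (lf y) * τ j)) := by
      refine b16_SP_congr ((mulP h hyu).mul (lf y0 ^ k)) (fun j => ?_)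
      have e1 : res (fun j => emb 3 ℂ (lf y) * τ j) j = lf y * res τ j := by
        unfold Pool.Agent.Helper71.FL.res
        rw [map_mul, b16_at0_emb]
      rw [e1, hτr j]
      ring
    obtain ⟨ζ, η, h5, h6, h7⟩ := stepH h h1 h3
    obtain ⟨f, hf1, hf2⟩ := hgen 0 η h6
    have hfc : f = C (coeff 0 f) := by
      have := homogeneousComponent_eq_self hf1
      rw [homogeneousComponent_zero] at this
      exact this.symm
    refine ⟨-coeff 0 f, ?_⟩
    refine b16_SH_congr (h5.add (hf2.mul (X 0))) (fun j => ?_)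
    rw [b16_lf_cons, C_neg, ← hfc]
    linear_combination h7 j
  obtain ⟨y1, y2, hind, hu1, hu2⟩ := exists_y12 h
  obtain ⟨c1, hc1⟩ := hlin y1 hu1
  obtain ⟨c2, hc2⟩ := hlin y2 hu2
  refine ⟨k, τ, Fin.cons c1 y1, Fin.cons c2 y2, ?_⟩
  exact ⟨by omega, hτE, hlow, hτr, hgen, by simpa only [Fin.cons_succ] using hind,
    by simpa only [Fin.cons_succ] using hu1, by simpa only [Fin.cons_succ] using hu2, hc1, hc2⟩

end Pool.Agent.Helper34.B1
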