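import Pool.Agent.Helper28.Z4.Div
import Pool.Agent.Helper71.FC.CaseY

/-!
B1-13.  (4a) of `memo_z4_helper12.md`: if `E_2(H) = 0`, `dim E_3(H) ≤ 5`, `σ ∈ E_2(P)`, `σ ≠ 0`, then not all `y σ` lift to `E_3(H)`
(`H` : four variables, `P : x_0 = 0`).
-/

set_option autoImplicit false

namespace Pool.Agent.Helper34.B1

open MvPolynomial
open scoped BigOperators
open Pool.Agent.Helper71.FL (w12 pf ct Dec Closed dd at0 emb res)
open Pool.Agent.Helper93 (lsub lmap OF pb)
open Pool.Agent.Helper71.FC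
open Pool.Agent.Helper28.Z4 (div_eps)

private theorem vp_at0_X0 {n : ℕ} : at0 n ℂ (X 0) = 0 := by
  unfold at0
  rw [aeval_X, Fin.cons_zero]

private theorem vp_at0_Xs {n : ℕ} (i : Fin n) : at0 n ℂ (X i.succ) = X i := by
  unfold at0
  rw [aeval_X, Fin.cons_succ]

private theorem vp_X0 {n : ℕ} : (X 0 : Pn (n + 1)) ≠ 0 := X_ne_zero 0

theorem no_VP {η : F2 4} (h : Fol η) (h2 : EE η 2 = ⊥) (h3 : Module.finrank ℂ (EE η 3) ≤ 5)
    (hP : Fol (rs2 η)) {σ : F1 3} (hσ : σ ∈ EE (rs2 η) 2) (hσ0 : σ ≠ 0)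
    (hy : ∀ y : Fin 3 → ℂ, ∃ ξ ∈ EE η 3, ∀ j, res ξ j = lf y * σ j) : False := by
  obtain ⟨ξ0, hξ0, hr0, b, hb, hw0⟩ := EE_lift h.hom h.dec hP.prim hσ
  have hnz : ∃ i j, rs2 η i j ≠ 0 := by
    by_contra hcon
    push Not at hcon
    exact not_isUnit_zero (hP.prim 0 (fun i j => by rw [hcon]))
  have hnB : ¬ IsB η b := by
    intro hB
    obtain ⟨ξ', hξ', hr'⟩ := (EE_lift_iff h.hom hnz hξ0 hw0).2 hB
    rw [h2, Submodule.mem_bot] at hξ'
    apply hσ0
    funext j
    rw [← hr0, ← hr', hξ']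
    unfold res
    rw [Pi.zero_apply, map_zero, Pi.zero_apply]
  have hX : ∀ l : Fin 3, lf (Pi.single l 1 : Fin 3 → ℂ) = X l := by
    intro l
    unfold lf
    rw [Finset.sum_eq_single l]
    · rw [Pi.single_eq_same, C_1, one_mul]
    · intro m _ hm
      rw [Pi.single_eq_of_ne hm, C_0, zero_mul]
    · intro hh
      exact absurd (Finset.mem_univ _) hh
  have hμ : ∀ i : Fin 3, ∃ μ : F1 4, (∀ a, (μ a).IsHomogeneous 2) ∧
      ∀ a c e, X i.succ * b a c e = w12 μ η a c e := by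
    intro i
    obtain ⟨ζ, hζ, hrζ⟩ := hy (Pi.single i 1)
    have hδ : ∀ a c e, w12 (fun l => X i.succ * ξ0 l - ζ l) η a c e = X i.succ * (X 0 * b a c e) := by
      intro a c e
      rw [Pool.Agent.Helper71.FL.w12_sub, Pool.Agent.Helper71.FL.w12_smul, hw0, hζ.2, sub_zero]
    have hs : ∀ j : Fin 3, at0 3 ℂ (X i.succ * ξ0 j.succ - ζ j.succ) = 0 := by
      intro j
      have h5 : at0 3 ℂ (ξ0 j.succ) = σ j := hr0 j
      have h6 : at0 3 ℂ (ζ j.succ) = X i * σ j := by
        have := hrζ j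
        rw [hX] at this
        exact this
      rw [map_sub, map_mul, vp_at0_Xs, h5, h6, sub_self]
    have h0 : at0 3 ℂ (X i.succ * ξ0 0 - ζ 0) = 0 := by
      obtain ⟨j, k, hjk⟩ := hnz
      have h5 := congrArg (at0 3 ℂ) (hδ 0 j.succ k.succ)
      unfold w12 at h5
      rw [map_add, map_add, map_mul, map_mul, map_mul, hs j, hs k, zero_mul, zero_mul, add_zero,
        add_zero, map_mul, map_mul, vp_at0_X0, zero_mul, mul_zero] at h5
      exact (mul_eq_zero.1 h5).resolve_right hjk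
    have hall : ∀ a, ∃ g, X i.succ * ξ0 a - ζ a = X 0 * g := by
      intro a
      refine Fin.cases ?_ (fun j => ?_) a
      · exact (at0_eq_zero_iff _).1 h0
      · exact (at0_eq_zero_iff _).1 (hs j)
    choose μ hμ using hall
    refine ⟨μ, fun a => ?_, fun a c e => ?_⟩
    · have h5 : (X 0 * μ a : Pn 4).IsHomogeneous (2 + 1) := by
        rw [← hμ]
        have := (isHomogeneous_X ℂ i.succ).mul (hξ0 a)
        exact this.sub (hζ.1 a)
      have h6 := sat_hc_mul 2 1 (μ a) (X 0) (isHomogeneous_X ℂ 0)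
      rw [mul_comm (μ a), homogeneousComponent_eq_self h5, mul_comm (X 0)] at h6
      rw [mul_right_cancel₀ vp_X0 h6]
      exact homogeneousComponent_isHomogeneous _ _
    · apply mul_left_cancel₀ (vp_X0 (n := 3))
      have h5 := hδ a c e
      have h6 : (fun l => X i.succ * ξ0 l - ζ l) = fun l => X 0 * μ l := funext hμ
      rw [h6, Pool.Agent.Helper71.FL.w12_smul] at h5
      rw [h5]
      ring
  choose μ hμ1 hμ2 using hμ
  have hξh : ∀ i a, ((Fin.cons ξ0 μ : Fin 4 → F1 4) i a).IsHomogeneous 2 := by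
    intro i
    refine Fin.cases ?_ (fun j => ?_) i
    · rw [Fin.cons_zero]; exact hξ0
    · rw [Fin.cons_succ]; exact hμ1 j
  have hξw : ∀ i a c e, X i * b a c e = w12 ((Fin.cons ξ0 μ : Fin 4 → F1 4) i) η a c e := by
    intro i
    refine Fin.cases ?_ (fun j => ?_) i
    · rw [Fin.cons_zero]; intro a c e; exact (hw0 a c e).symm
    · rw [Fin.cons_succ]; exact hμ2 j
  refine div_eps h (EE η 3) le_rfl h3 (fun v => av_mem_EE h.dec h.hom v) b hnB (fun i => X i)
    (fun i => isHomogeneous_X ℂ i) ?_ (Fin.cons ξ0 μ) hξw ?_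
  · intro c hc
    funext i
    have h5 := congrArg (eval (Pi.single i 1 : Fin 4 → ℂ)) hc
    rw [map_sum, map_zero, Finset.sum_eq_single i] at h5
    · simpa using h5
    · intro j _ hj
      rw [map_mul, eval_X, Pi.single_eq_of_ne hj, mul_zero]
    · intro hh
      exact absurd (Finset.mem_univ _) hh
  · intro i j
    refine ⟨fun a => ?_, fun a c e => ?_⟩
    · have h5 := (isHomogeneous_X ℂ j).mul (hξh i a)
      have h6 := (isHomogeneous_X ℂ i).mul (hξh j a)
      exact h5.sub h6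
    · rw [Pool.Agent.Helper71.FL.w12_sub, Pool.Agent.Helper71.FL.w12_smul,
        Pool.Agent.Helper71.FL.w12_smul, ← hξw, ← hξw]
      ring

end Pool.Agent.Helper34.B1
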