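import Pool.Agent.Helper34.B1.Two
import Pool.Agent.Helper34.B1.VP
import Pool.Agent.Helper12.Z4.Defs

/-!
B1-14a.  From good coordinates to `B1In`.
-/

set_option autoImplicit false

namespace Pool.Agent.Helper34.B1

open MvPolynomial
open scoped BigOperators
open Pool.Agent.Helper71.FL (w12 pf ct Dec Closed dd at0 emb res)
open Pool.Agent.Helper93 (lsub lmap OF pb)
open Pool.Agent.Helper71.FC
open Pool.Agent.Helper12.Z4 (KX RL mem_RL mem_KX avE avE_coe avE_inj)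

/-- good coordinates -/
structure InC (θ : F2 5) : Prop where
  cy : CY θ
  folH : Fol (rs2 θ)
  folP : Fol (rs2 (rs2 θ))
  hzV : hz θ
  hzH : hz (rs2 θ)
  h2 : EE (rs2 θ) 2 = ⊥
  p0 : EE (rs2 (rs2 θ)) 0 = ⊥
  p1 : EE (rs2 (rs2 θ)) 1 = ⊥
  p2 : Module.finrank ℂ (EE (rs2 (rs2 θ)) 2) = 1
  p3 : Module.finrank ℂ (EE (rs2 (rs2 θ)) 3) = 6
  p4 : Module.finrank ℂ (EE (rs2 (rs2 θ)) 4) = 13
  pg : ∀ k, 3 ≤ k → ∀ ξ ∈ EE (rs2 (rs2 θ)) (k + 1),
    ∃ f : Fin 3 → F1 3, (∀ l, f l ∈ EE (rs2 (rs2 θ)) k) ∧ ∀ j, ξ j = ∑ l, X l * f l j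
  fV : Module.finrank ℂ (EE θ 3) = 5
  fH : Module.finrank ℂ (EE (rs2 θ) 3) = 5
  rl : 3 ≤ Module.finrank ℂ (RL (rs2 θ))

theorem nz_of_Fol {n : ℕ} {θ : F2 n} (h : Fol θ) : ∃ i j, θ i j ≠ 0 := by
  by_contra hcon
  push Not at hcon
  have h1 : IsUnit (0 : Pn n) := h.prim 0 (fun i j => by rw [hcon i j])
  exact not_isUnit_zero h1

section
variable {θ : F2 5}

theorem InC.eH (h : InC θ) : ∀ k ≤ 2, EE (rs2 θ) k = ⊥ := by
  have e0 : EE (rs2 θ) 0 = ⊥ := by
    rw [Submodule.eq_bot_iff]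
    intro ξ hξ
    have h1 := res_mem_EE hξ
    rw [h.p0, Submodule.mem_bot] at h1
    exact EE_ker0 (nz_of_Fol h.folP) hξ (fun i => congrFun h1 i)
  have e1 : EE (rs2 θ) 1 = ⊥ := by
    rw [Submodule.eq_bot_iff]
    intro ξ hξ
    have h1 := res_mem_EE hξ
    rw [h.p1, Submodule.mem_bot] at h1
    obtain ⟨η, hη, hη2⟩ := EE_ker (k := 0) (nz_of_Fol h.folP) hξ (fun i => congrFun h1 i)
    rw [e0, Submodule.mem_bot] at hη
    funext i
    rw [hη2, hη, Pi.zero_apply, mul_zero]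
  intro k hk
  interval_cases k
  · exact e0
  · exact e1
  · exact h.h2

theorem InC.av_zero (h : InC θ) {v : Fin 5 → ℂ} (hv : av θ v = 0) : v = 0 := by
  by_contra h0
  exact h.cy.nc ⟨v, h0, fun j => congrFun hv j⟩

theorem InC.injH (h : InC θ) {v : Fin 5 → ℂ} (hv : aH θ v = 0) : v = 0 := by
  apply h.av_zero
  obtain ⟨η, hη, hη2⟩ := EE_ker (k := 2) (nz_of_Fol h.folH)
    (av_mem_EE h.cy.fol.dec h.cy.fol.hom v) (fun i => congrFun hv i)
  rw [h.cy.e2, Submodule.mem_bot] at hη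
  funext i
  rw [hη2, hη, Pi.zero_apply, mul_zero]

theorem aH_mem {θ : F2 5} (h : Fol θ) (v : Fin 5 → ℂ) : aH θ v ∈ EE (rs2 θ) 3 :=
  res_mem_EE (av_mem_EE h.dec h.hom v)

theorem InC.injP (h : InC θ) {v : Fin 5 → ℂ} (hv : aP θ v = 0) : v = 0 := by
  apply h.injH
  obtain ⟨η, hη, hη2⟩ := EE_ker (k := 2) (nz_of_Fol h.folP)
    (aH_mem h.cy.fol v) (fun i => congrFun hv i)
  rw [h.h2, Submodule.mem_bot] at hη
  funext i
  rw [hη2, hη, Pi.zero_apply, mul_zero]

/-- `v ↦ av θ v` -/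
theorem InC.e3V (h : InC θ) : ∀ ξ ∈ EE θ 3, ∃ v, ξ = av θ v := by
  haveI := finite_EE θ 3
  have h1 : Function.Surjective (avE θ h.cy.fol) := by
    have h2 := avE_inj θ h.cy.fol h.cy.nc
    have h3 : Module.finrank ℂ (Fin 5 → ℂ) = Module.finrank ℂ (EE θ 3) := by
      rw [h.fV, Module.finrank_fin_fun]
    exact (LinearMap.injective_iff_surjective_of_finrank_eq_finrank h3).1 h2
  intro ξ hξ
  obtain ⟨v, hv⟩ := h1 ⟨ξ, hξ⟩
  exact ⟨v, (congrArg Subtype.val hv).symm⟩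

/-- `v ↦ aH θ v` -/
noncomputable def aHE (θ : F2 5) (h : Fol θ) : (Fin 5 → ℂ) →ₗ[ℂ] EE (rs2 θ) 3 where
  toFun v := ⟨aH θ v, aH_mem h v⟩
  map_add' v w := Subtype.ext (aH_add θ v w)
  map_smul' c v := Subtype.ext (aH_smul θ c v)

theorem InC.aHE_bij (h : InC θ) : Function.Bijective (aHE θ h.cy.fol) := by
  haveI := finite_EE (rs2 θ) 3
  have h2 : Function.Injective (aHE θ h.cy.fol) := by
    rw [← LinearMap.ker_eq_bot, LinearMap.ker_eq_bot']
    intro v hv
    exact h.injH (congrArg Subtype.val hv)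
  have h3 : Module.finrank ℂ (Fin 5 → ℂ) = Module.finrank ℂ (EE (rs2 θ) 3) := by
    rw [h.fH, Module.finrank_fin_fun]
  exact ⟨h2, (LinearMap.injective_iff_surjective_of_finrank_eq_finrank h3).1 h2⟩

theorem InC.e3H (h : InC θ) : ∀ ξ ∈ EE (rs2 θ) 3, ∃ v, ξ = aH θ v := by
  intro ξ hξ
  obtain ⟨v, hv⟩ := h.aHE_bij.2 ⟨ξ, hξ⟩
  exact ⟨v, (congrArg Subtype.val hv).symm⟩

/-! ### relations -/

/-- relations on `H` with values in `V` -/
def IsKH (θ : F2 5) (K : Fin 4 → Fin 5 → ℂ) : Prop := ∀ j, ∑ l, X l * aH θ (K l) j = 0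

/-- a finite sum of `X l • a_l` as a form -/
private theorem XE_mem {n m k : ℕ} {θ : F2 n} {f : Fin m → F1 n} {x : Fin m → Pn n}
    (hx : ∀ l, (x l).IsHomogeneous 1) (hf : ∀ l, f l ∈ EE θ k) :
    (fun j => ∑ l, x l * f l j) ∈ EE θ (k + 1) := by
  refine ⟨fun j => ?_, fun i j k => ?_⟩
  · apply IsHomogeneous.sum
    intro l _
    have := (hx l).mul ((hf l).1 j)
    rwa [add_comm] at this
  · have h1 : w12 (fun j => ∑ l, x l * f l j) θ i j k = ∑ l, x l * w12 (f l) θ i j k := by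
      unfold w12
      simp only [Finset.sum_mul, mul_add, Finset.sum_add_distrib, mul_assoc]
    rw [h1]
    exact Finset.sum_eq_zero fun l _ => by rw [(hf l).2, mul_zero]

private theorem at0_X0 {n : ℕ} : at0 n ℂ (X 0) = 0 := by
  unfold at0
  rw [aeval_X, Fin.cons_zero]

private theorem at0_Xs {n : ℕ} (i : Fin n) : at0 n ℂ (X i.succ) = X i := by
  unfold at0
  rw [aeval_X, Fin.cons_succ]

theorem InC.extH (h : InC θ) {K : Fin 3 → Fin 5 → ℂ} (hK : IsKP θ K) :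
    ∃ K' : Fin 4 → Fin 5 → ℂ, IsKH θ K' ∧ ∀ l, K' l.succ = K l := by
  have h1 : (fun j => ∑ l : Fin 3, (X l.succ : Pn 4) * aH θ (K l) j) ∈ EE (rs2 θ) (3 + 1) :=
    XE_mem (fun l => isHomogeneous_X _ _) (fun l => aH_mem h.cy.fol _)
  obtain ⟨η, hη, hη2⟩ := EE_ker (nz_of_Fol h.folP) h1 (fun j => by
    have := hK j
    unfold res
    rw [map_sum, ← this]
    refine Finset.sum_congr rfl fun l _ => ?_
    rw [map_mul, at0_Xs]
    rfl)
  obtain ⟨v, rfl⟩ := h.e3H η hη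
  refine ⟨Fin.cons (-v) K, fun j => ?_, fun l => by rw [Fin.cons_succ]⟩
  rw [Fin.sum_univ_succ]
  simp only [Fin.cons_zero, Fin.cons_succ]
  have h2 := hη2 j
  have h3 : aH θ (-v) = (-1 : ℂ) • aH θ v := by
    rw [← aH_smul, neg_one_smul]
  rw [h3]
  rw [show (∑ i : Fin 3, X i.succ * aH θ (K i) j) = _ from h2]
  simp

theorem InC.extV (h : InC θ) {K : Fin 4 → Fin 5 → ℂ} (hK : IsKH θ K) :
    ∃ K' : Fin 5 → Fin 5 → ℂ, IsKV θ K' ∧ ∀ l, K' l.succ = K l := by
  have h1 : (fun j => ∑ l : Fin 4, (X l.succ : Pn 5) * av θ (K l) j) ∈ EE θ (3 + 1) :=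
    XE_mem (fun l => isHomogeneous_X _ _) (fun l => av_mem_EE h.cy.fol.dec h.cy.fol.hom _)
  obtain ⟨η, hη, hη2⟩ := EE_ker (nz_of_Fol h.folH) h1 (fun j => by
    have := hK j
    unfold res
    rw [map_sum, ← this]
    refine Finset.sum_congr rfl fun l _ => ?_
    rw [map_mul, at0_Xs]
    rfl)
  obtain ⟨v, rfl⟩ := h.e3V η hη
  refine ⟨Fin.cons (-v) K, fun j => ?_, fun l => by rw [Fin.cons_succ]⟩
  rw [Fin.sum_univ_succ]
  simp only [Fin.cons_zero, Fin.cons_succ]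
  have h2 := hη2 j
  have h3 : av θ (-v) = (-1 : ℂ) • av θ v := by
    rw [← av_smul, neg_one_smul]
  rw [h3]
  rw [show (∑ i : Fin 4, X i.succ * av θ (K i) j) = _ from h2]
  simp

/-- the spaces of relations -/
def KVs (θ : F2 5) : Submodule ℂ (Fin 5 → Fin 5 → ℂ) where
  carrier := {K | IsKV θ K}
  add_mem' := fun h h' => h.add h'
  zero_mem' := by
    intro j
    have h0 : av θ (0 : Fin 5 → ℂ) = 0 := by
      have := av_smul θ 0 0
      rwa [zero_smul, zero_smul] at this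
    refine Finset.sum_eq_zero fun l _ => ?_
    show X l * av θ (0 : Fin 5 → ℂ) j = 0
    rw [h0, Pi.zero_apply, mul_zero]
  smul_mem' := fun c _ h => h.smul c

def KHs (θ : F2 5) : Submodule ℂ (Fin 4 → Fin 5 → ℂ) where
  carrier := {K | IsKH θ K}
  add_mem' := by
    intro K K' h h' j
    have h1 : ∑ l, X l * aH θ ((K + K') l) j = ∑ l, X l * aH θ (K l) j + ∑ l, X l * aH θ (K' l) j := by
      rw [← Finset.sum_add_distrib]
      refine Finset.sum_congr rfl fun l _ => ?_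
      rw [Pi.add_apply, aH_add, Pi.add_apply, mul_add]
    rw [h1, h j, h' j, add_zero]
  zero_mem' := by
    intro j
    have h0 : aH θ (0 : Fin 5 → ℂ) = 0 := by
      have := aH_smul θ 0 0
      rwa [zero_smul, zero_smul] at this
    refine Finset.sum_eq_zero fun l _ => ?_
    show X l * aH θ (0 : Fin 5 → ℂ) j = 0
    rw [h0, Pi.zero_apply, mul_zero]
  smul_mem' := by
    intro c K h j
    have : ∑ l, X l * aH θ ((c • K) l) j = C c * ∑ l, X l * aH θ (K l) j := by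
      rw [Finset.mul_sum]
      refine Finset.sum_congr rfl fun l _ => ?_
      rw [Pi.smul_apply, aH_smul, Pi.smul_apply, smul_eq_C_mul]
      ring
    rw [this, h j, mul_zero]

def KPs (θ : F2 5) : Submodule ℂ (Fin 3 → Fin 5 → ℂ) where
  carrier := {K | IsKP θ K}
  add_mem' := fun h h' => h.add h'
  zero_mem' := by
    intro j
    have h0 : aP θ (0 : Fin 5 → ℂ) = 0 := by
      have := aP_smul θ 0 0
      rwa [zero_smul, zero_smul] at this
    refine Finset.sum_eq_zero fun l _ => ?_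
    show X l * aP θ (0 : Fin 5 → ℂ) j = 0
    rw [h0, Pi.zero_apply, mul_zero]
  smul_mem' := fun c _ h => h.smul c

/-- restriction of relations `V → P` -/
def rVP (θ : F2 5) : KVs θ →ₗ[ℂ] KPs θ where
  toFun K := ⟨toP K.1, IsKV.toP K.2⟩
  map_add' _ _ := rfl
  map_smul' _ _ := rfl

theorem InC.rVP_inj (h : InC θ) : Function.Injective (rVP θ) := by
  rw [← LinearMap.ker_eq_bot, LinearMap.ker_eq_bot']
  intro K hK
  exact Subtype.ext (KV_eq_zero h.cy K.2 (congrArg Subtype.val hK))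

theorem InC.rVP_surj (h : InC θ) : Function.Surjective (rVP θ) := by
  rintro ⟨K, hK⟩
  obtain ⟨K', hK', h1⟩ := h.extH hK
  obtain ⟨K'', hK'', h2⟩ := h.extV hK'
  refine ⟨⟨K'', hK''⟩, Subtype.ext ?_⟩
  funext l
  show K'' l.succ.succ = K l
  rw [h2, h1]

theorem IsKV.toH {K : Fin 5 → Fin 5 → ℂ} (h : IsKV θ K) : IsKH θ (fun l => K l.succ) := by
  intro j
  have h1 := congrArg (at0 4 ℂ) (h j.succ)
  rw [map_sum, map_zero, Fin.sum_univ_succ, map_mul, at0_X0, zero_mul, zero_add] at h1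
  rw [← h1]
  refine Finset.sum_congr rfl fun l _ => ?_
  rw [map_mul, at0_Xs]
  rfl

theorem InC.finrank_KV (h : InC θ) : 3 ≤ Module.finrank ℂ (KVs θ) := by
  let L : KVs θ →ₗ[ℂ] KHs θ :=
    { toFun := fun K => ⟨fun l => K.1 l.succ, IsKV.toH K.2⟩
      map_add' := fun _ _ => rfl
      map_smul' := fun _ _ => rfl }
  have hL : Function.Surjective L := by
    rintro ⟨K, hK⟩
    obtain ⟨K', hK', h1⟩ := h.extV hK
    exact ⟨⟨K', hK'⟩, Subtype.ext (funext h1)⟩
  have h1 : Module.finrank ℂ (KHs θ) ≤ Module.finrank ℂ (KVs θ) :=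
    LinearMap.finrank_le_finrank_of_surjective hL
  let e := LinearEquiv.ofBijective _ h.aHE_bij
  have hsm : ∀ X0 : RL (rs2 θ), (fun l => e.symm (X0.1 (Pi.single l 1))) ∈ KHs θ := by
    intro X0 j
    have hx : ∀ l, aH θ (e.symm (X0.1 (Pi.single l 1))) = (X0.1 (Pi.single l 1) : F1 4) := by
      intro l
      have h2 : e (e.symm (X0.1 (Pi.single l 1))) = X0.1 (Pi.single l 1) := e.apply_symm_apply _
      exact congrArg Subtype.val h2
    apply MvPolynomial.funext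
    intro x
    rw [map_zero, map_sum]
    have h3 := mem_KX.1 (X0.2 x) j
    have h4 : x = ∑ l, x l • (Pi.single l 1 : Fin 4 → ℂ) := by
      funext i
      simp [Pi.single_apply]
    rw [h4, map_sum] at h3
    rw [← h4] at h3
    rw [← h3]
    have h5 : ((∑ l, X0.1 (x l • (Pi.single l 1 : Fin 4 → ℂ)) : EE (rs2 θ) 3) : F1 4) j =
        ∑ l, C (x l) * (X0.1 (Pi.single l 1) : F1 4) j := by
      rw [AddSubmonoidClass.coe_finsetSum, Finset.sum_apply]
      refine Finset.sum_congr rfl fun l _ => ?_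
      rw [map_smul]
      show x l • (X0.1 (Pi.single l 1) : F1 4) j = _
      rw [smul_eq_C_mul]
    rw [h5, map_sum]
    refine Finset.sum_congr rfl fun l _ => ?_
    rw [map_mul, map_mul, eval_X, eval_C, hx]
  let M : RL (rs2 θ) →ₗ[ℂ] KHs θ :=
    { toFun := fun X0 => ⟨_, hsm X0⟩
      map_add' := fun X0 X1 => Subtype.ext (by
        funext l
        show e.symm ((X0.1 + X1.1) (Pi.single l 1)) =
          e.symm (X0.1 (Pi.single l 1)) + e.symm (X1.1 (Pi.single l 1))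
        rw [LinearMap.add_apply, map_add])
      map_smul' := fun c X0 => Subtype.ext (by
        funext l
        show e.symm ((c • X0.1) (Pi.single l 1)) = c • e.symm (X0.1 (Pi.single l 1))
        rw [LinearMap.smul_apply, map_smul]) }
  have hM : Function.Injective M := by
    intro X0 X1 h0
    apply Subtype.ext
    apply LinearMap.pi_ext'
    intro l
    apply LinearMap.ext_ring
    have h2 : e.symm (X0.1 (Pi.single l 1)) = e.symm (X1.1 (Pi.single l 1)) :=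
      congrFun (congrArg Subtype.val h0) l
    exact e.symm.injective h2
  have h2 : Module.finrank ℂ (RL (rs2 θ)) ≤ Module.finrank ℂ (KHs θ) :=
    LinearMap.finrank_le_finrank_of_injective hM
  exact h.rl.trans (h2.trans h1)

end

end Pool.Agent.Helper34.B1
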