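import Pool.Agent.Helper34.B1.Tang

/-!
B1-11.  Structure constants and traces.

* `cm_KV`: `i_[X,Y] θ = L_X i_Y θ - i_Y L_X θ = 0`.  In components: apply `L_X` (`∑ X_l ∂_l` plus the linear terms) to `∑ m, Y_m θ_mj = 0` and use `lie_zero`.
  `cm K L l = vl K (L l) - vl L (K l)` is the commutator `K L - L K` of the endomorphisms `e_l ↦ K l`, `e_l ↦ L l`; the Lie bracket of the fields is `-` it.
* `exists_s`: `KV_span`.
* `tr_eq`: for constant vectors `v = e_a, w = e_b` and `Θ = D5 (X)`: `L_{X_i} Θ = 0` as `Θ = c θ` (`D5_eq`, `lie_zero`), i.e.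
  `∑_k det(v, w, .. A_k A x ..) + det(A v, w, ..) + det(v, A w, ..) = 0` (`A = T i`, `∑ X_l ∂_l (A_k x) = A_k A x`) and
  `det(A v, w, ..) + det(v, A w, ..) + ∑_k det(v, w, .. A A_k x ..) = tr A det(v, w, ..)`; subtract: `∑_k det(v, w, .. [A, A_k] x ..) = tr A det(v, w, X)`,
  the left side is `∑_k s i k k det(v, w, X)`; choose `a, b` with `D5 a b ≠ 0`.
* `ne_of`: `ξ ∧ θ = 0` by the 6-vector identity for `e_i, e_j, e_k, X_0, X_1, X_2` (see Rel.lean) and `∑ ξ_i X_k i = 0`; so `ξ ∈ EE θ d = ⊥`.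
-/

set_option autoImplicit false

namespace Pool.Agent.Helper34.B1

open MvPolynomial
open scoped BigOperators
open Pool.Agent.Helper71.FL (w12 pf ct Dec Closed dd at0 emb res)
open Pool.Agent.Helper93 (lsub lmap OF pb)
open Pool.Agent.Helper71.FC

/-- commutator of the endomorphisms `e_l ↦ K l`, `e_l ↦ L l` -/
def cm (K L : Fin 5 → Fin 5 → ℂ) : Fin 5 → Fin 5 → ℂ := fun l => vl K (L l) - vl L (K l)

private theorem b11_lf_pd {n : ℕ} (a : Fin n → ℂ) (i : Fin n) : pderiv i (lf a) = C (a i) := by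
  unfold lf
  rw [map_sum, Finset.sum_eq_single i]
  · rw [pderiv_C_mul, pderiv_X_self, mul_one]
  · intro k _ hk
    rw [pderiv_C_mul, pderiv_X_of_ne hk, mul_zero]
  · intro h
    exact absurd (Finset.mem_univ _) h

private theorem b11_lf_add {n : ℕ} (a b : Fin n → ℂ) : lf (a + b) = lf a + lf b := by
  unfold lf
  rw [← Finset.sum_add_distrib]
  refine Finset.sum_congr rfl fun i _ => ?_
  rw [Pi.add_apply, C_add, add_mul]

private theorem b11_lf_smul {n : ℕ} (c : ℂ) (a : Fin n → ℂ) : lf (c • a) = C c * lf a := by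
  unfold lf
  rw [Finset.mul_sum]
  refine Finset.sum_congr rfl fun i _ => ?_
  rw [Pi.smul_apply, smul_eq_mul, C_mul, mul_assoc]

private theorem b11_Xf_pd (K : Fin 5 → Fin 5 → ℂ) (i l : Fin 5) : pderiv l (Xf K i) = C (K l i) :=
  b11_lf_pd _ _

private theorem b11_Xf_add (K L : Fin 5 → Fin 5 → ℂ) (i : Fin 5) : Xf (K + L) i = Xf K i + Xf L i :=
  b11_lf_add _ _

private theorem b11_Xf_smul (c : ℂ) (K : Fin 5 → Fin 5 → ℂ) (i : Fin 5) :
    Xf (c • K) i = C c * Xf K i :=
  b11_lf_smul _ _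

/-- components of the commutator -/
private theorem b11_Xf_cm (K L : Fin 5 → Fin 5 → ℂ) (i : Fin 5) :
    Xf (cm K L) i = ∑ m, Xf L m * C (K m i) - ∑ m, Xf K m * C (L m i) := by
  have h : ∀ A B : Fin 5 → Fin 5 → ℂ, ∑ m, Xf B m * C (A m i) =
      ∑ l, C (∑ m, B l m * A m i) * X l := by
    intro A B
    unfold Xf lf
    simp only [Finset.sum_mul]
    rw [Finset.sum_comm]
    refine Finset.sum_congr rfl fun l _ => ?_
    rw [map_sum, Finset.sum_mul]
    refine Finset.sum_congr rfl fun m _ => ?_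
    rw [C_mul]
    ring
  rw [h, h, ← Finset.sum_sub_distrib]
  unfold Xf lf
  refine Finset.sum_congr rfl fun l _ => ?_
  rw [← sub_mul, ← C_sub]
  rfl

theorem cm_KV {θ : F2 5} (hF : Fol θ) {K L : Fin 5 → Fin 5 → ℂ} (hK : IsKV θ K) (hL : IsKV θ L) :
    IsKV θ (cm K L) := by
  rw [IsKV_iff]
  intro j
  have hL' := (IsKV_iff θ L).1 hL
  have e1 : ∀ l, ∑ m, (C (L l m) * θ m j + Xf L m * pderiv l (θ m j)) = 0 := by
    intro l
    have h1 := congrArg (pderiv l) (hL' j)
    rw [map_zero, map_sum] at h1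
    rw [← h1]
    refine Finset.sum_congr rfl fun m _ => ?_
    rw [Derivation.leibniz, b11_Xf_pd]
    simp only [smul_eq_mul]
    ring
  have e2 : ∑ l, Xf K l * ∑ m, (C (L l m) * θ m j + Xf L m * pderiv l (θ m j)) = 0 :=
    Finset.sum_eq_zero fun l _ => by rw [e1 l, mul_zero]
  have e3 : ∑ l, Xf K l * ∑ m, (C (L l m) * θ m j + Xf L m * pderiv l (θ m j)) =
      ∑ m, (∑ l, Xf K l * C (L l m)) * θ m j + ∑ m, Xf L m * ∑ l, Xf K l * pderiv l (θ m j) := by
    simp only [Finset.mul_sum, Finset.sum_mul, mul_add, Finset.sum_add_distrib]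
    refine congrArg₂ (fun x y => x + y) ?_ ?_
    · rw [Finset.sum_comm]
      refine Finset.sum_congr rfl fun m _ => Finset.sum_congr rfl fun l _ => ?_
      ring
    · rw [Finset.sum_comm]
      refine Finset.sum_congr rfl fun m _ => Finset.sum_congr rfl fun l _ => ?_
      ring
  have e4 : ∀ m, ∑ l, Xf K l * pderiv l (θ m j) =
      - ∑ l, (C (K m l) * θ l j + C (K j l) * θ m l) := by
    intro m
    exact eq_neg_of_add_eq_zero_left (lie_zero hF hK m j)
  have e5 : ∑ m, Xf L m * ∑ l, Xf K l * pderiv l (θ m j) =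
      - ∑ l, (∑ m, Xf L m * C (K m l)) * θ l j := by
    have h1 : ∀ m, Xf L m * ∑ l, Xf K l * pderiv l (θ m j) =
        - (∑ l, Xf L m * C (K m l) * θ l j) - ∑ l, C (K j l) * (Xf L m * θ m l) := by
      intro m
      rw [e4 m, Finset.sum_add_distrib, mul_neg, mul_add, Finset.mul_sum, Finset.mul_sum, neg_add,
        sub_eq_add_neg]
      refine congrArg₂ (fun x y => -x + -y) ?_ ?_
      · refine Finset.sum_congr rfl fun l _ => ?_
        ring
      · refine Finset.sum_congr rfl fun l _ => ?_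
        ring
    rw [Finset.sum_congr rfl fun m _ => h1 m, Finset.sum_sub_distrib, Finset.sum_neg_distrib]
    have h2 : ∑ m, ∑ l, C (K j l) * (Xf L m * θ m l) = 0 := by
      rw [Finset.sum_comm]
      refine Finset.sum_eq_zero fun l _ => ?_
      rw [← Finset.mul_sum, hL' l, mul_zero]
    rw [h2, sub_zero, Finset.sum_comm]
    refine congrArg (fun x => -x) ?_
    refine Finset.sum_congr rfl fun l _ => ?_
    rw [Finset.sum_mul]
  rw [e3, e5] at e2
  have e6 : ∀ i, Xf (cm K L) i * θ i j = (∑ m, Xf L m * C (K m i)) * θ i j -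
      (∑ m, Xf K m * C (L m i)) * θ i j := by
    intro i
    rw [b11_Xf_cm, sub_mul]
  rw [Finset.sum_congr rfl fun i _ => e6 i, Finset.sum_sub_distrib]
  linear_combination -e2

variable {θ : F2 5} {σ : F1 3} {u : Fin 3 → ℂ} {T : Fin 3 → Fin 5 → Fin 5 → ℂ}

theorem exists_s (h : B1In θ σ u T) :
    ∃ s : Fin 3 → Fin 3 → Fin 3 → ℂ, ∀ i j, cm (T i) (T j) = ∑ k, s i j k • T k := by
  have h1 : ∀ i j, ∃ c : Fin 3 → ℂ, cm (T i) (T j) = ∑ k, c k • T k := fun i j =>
    KV_span h (cm_KV h.cy.fol (h.KV i) (h.KV j))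
  choose s hs using h1
  exact ⟨s, hs⟩

/-- expansion of the determinant after a change of one row -/
private theorem b11_upd {R : Type} [CommRing R] (M : Matrix (Fin 5) (Fin 5) R) (k : Fin 5)
    (b : Fin 5 → R) : (M.updateRow k b).det = ∑ j, M.adjugate j k * b j := by
  rw [← Matrix.cramer_transpose_apply, Matrix.cramer_eq_adjugate_mulVec, ← Matrix.adjugate_transpose]
  rfl

private theorem b11_tr {R : Type} [CommRing R] (M A : Matrix (Fin 5) (Fin 5) R) :
    ∑ k, (M.updateRow k ((M * A) k)).det = M.det * A.trace := by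
  have h1 : ∑ k, (M.updateRow k ((M * A) k)).det = (M.adjugate * (M * A)).trace := by
    rw [Matrix.trace_mul_comm]
    unfold Matrix.trace
    refine Finset.sum_congr rfl fun k _ => ?_
    rw [b11_upd, Matrix.diag_apply, Matrix.mul_apply]
    refine Finset.sum_congr rfl fun j _ => ?_
    rw [mul_comm]
  rw [h1, ← Matrix.mul_assoc, Matrix.adjugate_mul, Matrix.smul_mul, Matrix.one_mul,
    Matrix.trace_smul, smul_eq_mul]

private theorem b11_der (D : Derivation ℂ (Pn 5) (Pn 5)) (M : Matrix (Fin 5) (Fin 5) (Pn 5)) :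
    D M.det = ∑ k, (M.updateRow k (fun i => D (M k i))).det := by
  have h1 : ∀ N : Matrix (Fin 5) (Fin 5) (Pn 5), N.det =
      ∑ τ : Equiv.Perm (Fin 5), ((Equiv.Perm.sign τ : ℤ) : Pn 5) * ∏ i, N i (τ i) := by
    intro N
    rw [← Matrix.det_transpose, Matrix.det_apply']
    rfl
  have h2 : ∀ z : ℤ, D ((z : ℤ) : Pn 5) = 0 := fun z => D.map_intCast z
  rw [h1 M, map_sum]
  simp only [h1]
  rw [Finset.sum_comm]
  refine Finset.sum_congr rfl fun τ _ => ?_
  rw [← Finset.mul_sum, Derivation.leibniz, h2, smul_zero, add_zero, smul_eq_mul]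
  congr 1
  rw [Fin.sum_univ_five]
  simp only [Fin.prod_univ_five, Derivation.leibniz, smul_eq_mul]
  have u0 : ∀ v : Fin 5 → Pn 5, ∀ r : Fin 5, r ≠ 0 → (M.updateRow 0 v) r = M r :=
    fun v r hr => Matrix.updateRow_ne hr
  have u1 : ∀ v : Fin 5 → Pn 5, ∀ r : Fin 5, r ≠ 1 → (M.updateRow 1 v) r = M r :=
    fun v r hr => Matrix.updateRow_ne hr
  have u2 : ∀ v : Fin 5 → Pn 5, ∀ r : Fin 5, r ≠ 2 → (M.updateRow 2 v) r = M r :=
    fun v r hr => Matrix.updateRow_ne hr
  have u3 : ∀ v : Fin 5 → Pn 5, ∀ r : Fin 5, r ≠ 3 → (M.updateRow 3 v) r = M r :=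
    fun v r hr => Matrix.updateRow_ne hr
  have u4 : ∀ v : Fin 5 → Pn 5, ∀ r : Fin 5, r ≠ 4 → (M.updateRow 4 v) r = M r :=
    fun v r hr => Matrix.updateRow_ne hr
  simp only [Matrix.updateRow_self]
  rw [u0 _ 1 (by decide), u0 _ 2 (by decide), u0 _ 3 (by decide), u0 _ 4 (by decide),
    u1 _ 0 (by decide), u1 _ 2 (by decide), u1 _ 3 (by decide), u1 _ 4 (by decide),
    u2 _ 0 (by decide), u2 _ 1 (by decide), u2 _ 3 (by decide), u2 _ 4 (by decide),
    u3 _ 0 (by decide), u3 _ 1 (by decide), u3 _ 2 (by decide), u3 _ 4 (by decide),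
    u4 _ 0 (by decide), u4 _ 1 (by decide), u4 _ 2 (by decide), u4 _ 3 (by decide)]
  ring

/-- the matrix with rows `e_a, e_b, X_0, X_1, X_2` -/
private noncomputable def b11M (T : Fin 3 → Fin 5 → Fin 5 → ℂ) (a b : Fin 5) :
    Matrix (Fin 5) (Fin 5) (Pn 5) :=
  Matrix.of ![Pi.single a 1, Pi.single b 1, Xf (T 0), Xf (T 1), Xf (T 2)]

private theorem b11_M_det (T : Fin 3 → Fin 5 → Fin 5 → ℂ) (a b : Fin 5) :
    (b11M T a b).det = D5 (fun k => Xf (T k)) a b := rfl

private theorem b11_lin {R : Type} [CommRing R] (M : Matrix (Fin 5) (Fin 5) R) (k : Fin 5)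
    {ι : Type} [Fintype ι] (c : ι → R) (v : ι → Fin 5 → R) :
    (M.updateRow k (fun i => ∑ j, c j * v j i)).det = ∑ j, c j * (M.updateRow k (v j)).det := by
  simp only [b11_upd, Finset.mul_sum]
  rw [Finset.sum_comm]
  refine Finset.sum_congr rfl fun j _ => Finset.sum_congr rfl fun i _ => ?_
  ring

private theorem b11_sub {R : Type} [CommRing R] (M : Matrix (Fin 5) (Fin 5) R) (k : Fin 5)
    (v w : Fin 5 → R) :
    (M.updateRow k v).det - (M.updateRow k w).det = (M.updateRow k (fun i => v i - w i)).det := by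
  simp only [b11_upd, mul_sub, Finset.sum_sub_distrib]

private theorem b11_eq0 {R : Type} [CommRing R] (M : Matrix (Fin 5) (Fin 5) R) {k r : Fin 5}
    (h : k ≠ r) : (M.updateRow k (M r)).det = 0 :=
  Matrix.det_zero_of_row_eq h (by rw [Matrix.updateRow_self, Matrix.updateRow_ne h.symm])

private theorem b11_self {R : Type} [CommRing R] (M : Matrix (Fin 5) (Fin 5) R) (k : Fin 5) :
    (M.updateRow k (M k)).det = M.det := by
  rw [Matrix.updateRow_eq_self]

private theorem b11_row0 (T : Fin 3 → Fin 5 → Fin 5 → ℂ) (a b l : Fin 5) :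
    ((b11M T a b).updateRow 0 (Pi.single l 1)).det = D5 (fun k => Xf (T k)) l b := by
  unfold D5
  congr 1
  ext i j
  fin_cases i <;> rfl

private theorem b11_row1 (T : Fin 3 → Fin 5 → Fin 5 → ℂ) (a b l : Fin 5) :
    ((b11M T a b).updateRow 1 (Pi.single l 1)).det = D5 (fun k => Xf (T k)) a l := by
  unfold D5
  congr 1
  ext i j
  fin_cases i <;> rfl

private theorem b11_basis {R : Type} [CommRing R] (v : Fin 5 → R) :
    v = fun i => ∑ l, v l * (Pi.single l 1 : Fin 5 → R) i := by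
  funext i
  rw [Finset.sum_eq_single i]
  · rw [Pi.single_eq_same, mul_one]
  · intro l _ hl
    rw [Pi.single_eq_of_ne (Ne.symm hl), mul_zero]
  · intro h
    exact absurd (Finset.mem_univ _) h

/-- the derivation along the field `A` -/
private noncomputable def b11D (A : Fin 5 → Fin 5 → ℂ) : Derivation ℂ (Pn 5) (Pn 5) :=
  ∑ l, Xf A l • (pderiv l : Derivation ℂ (Pn 5) (Pn 5))

private theorem b11D_apply (A : Fin 5 → Fin 5 → ℂ) (f : Pn 5) :
    b11D A f = ∑ l, Xf A l * pderiv l f := by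
  have h := congrFun (map_sum (Derivation.coeFnAddMonoidHom (R := ℂ) (A := Pn 5) (M := Pn 5))
    (fun l => Xf A l • (pderiv l : Derivation ℂ (Pn 5) (Pn 5))) Finset.univ) f
  rw [Finset.sum_apply] at h
  exact h

private theorem b11_tr_key (h : B1In θ σ u T) {s : Fin 3 → Fin 3 → Fin 3 → ℂ}
    (hs : ∀ i j, cm (T i) (T j) = ∑ k, s i j k • T k) (i : Fin 3) (a b : Fin 5) :
    C (∑ l, T i l l) * D5 (fun k => Xf (T k)) a b = C (∑ j, s i j j) * D5 (fun k => Xf (T k)) a b := by
  obtain ⟨c, hc, hD⟩ := D5_eq h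
  set A : Fin 5 → Fin 5 → ℂ := T i with hA
  set Am : Matrix (Fin 5) (Fin 5) (Pn 5) := Matrix.of (fun l m => C (A l m)) with hAm
  set M := b11M T a b with hM
  -- the Lie derivative of `D5`
  have e1 : b11D A M.det + (M.updateRow 0 ((M * Am) 0)).det + (M.updateRow 1 ((M * Am) 1)).det = 0 := by
    have h1 := lie_zero h.cy.fol (h.KV i) a b
    have h2 : b11D A M.det = C c * ∑ l, Xf A l * pderiv l (θ a b) := by
      rw [hM, b11_M_det, hD a b, b11D_apply, Finset.mul_sum]
      refine Finset.sum_congr rfl fun l _ => ?_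
      rw [pderiv_C_mul]
      ring
    have h3 : (M.updateRow 0 ((M * Am) 0)).det = ∑ l, C (A a l) * (C c * θ l b) := by
      have h4 : (M * Am) 0 = fun i => ∑ l, C (A a l) * (Pi.single l 1 : Fin 5 → Pn 5) i := by
        have h5 : (M * Am) 0 = fun l => C (A a l) := by
          funext l
          rw [Matrix.mul_apply, Finset.sum_eq_single a]
          · show (Pi.single a 1 : Fin 5 → Pn 5) a * C (A a l) = _
            rw [Pi.single_eq_same, one_mul]
          · intro m _ hm
            show (Pi.single a 1 : Fin 5 → Pn 5) m * C (A m l) = 0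
            rw [Pi.single_eq_of_ne hm, zero_mul]
          · intro h
            exact absurd (Finset.mem_univ _) h
        rw [h5]
        exact b11_basis _
      rw [h4, b11_lin]
      refine Finset.sum_congr rfl fun l _ => ?_
      rw [hM, b11_row0, hD]
    have h6 : (M.updateRow 1 ((M * Am) 1)).det = ∑ l, C (A b l) * (C c * θ a l) := by
      have h4 : (M * Am) 1 = fun i => ∑ l, C (A b l) * (Pi.single l 1 : Fin 5 → Pn 5) i := by
        have h5 : (M * Am) 1 = fun l => C (A b l) := by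
          funext l
          rw [Matrix.mul_apply, Finset.sum_eq_single b]
          · show (Pi.single b 1 : Fin 5 → Pn 5) b * C (A b l) = _
            rw [Pi.single_eq_same, one_mul]
          · intro m _ hm
            show (Pi.single b 1 : Fin 5 → Pn 5) m * C (A m l) = 0
            rw [Pi.single_eq_of_ne hm, zero_mul]
          · intro h
            exact absurd (Finset.mem_univ _) h
        rw [h5]
        exact b11_basis _
      rw [h4, b11_lin]
      refine Finset.sum_congr rfl fun l _ => ?_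
      rw [hM, b11_row1, hD]
    rw [h2, h3, h6]
    have h7 : ∑ l, C (A a l) * (C c * θ l b) + ∑ l, C (A b l) * (C c * θ a l) =
        C c * ∑ l, (C (A a l) * θ l b + C (A b l) * θ a l) := by
      rw [← Finset.sum_add_distrib, Finset.mul_sum]
      refine Finset.sum_congr rfl fun l _ => ?_
      ring
    linear_combination h7 + (C c) * h1
  have e2 := b11_tr M Am
  have e3 := b11_der (b11D A) M
  rw [Fin.sum_univ_five] at e2 e3
  -- derivative of the constant rows
  have hz : ∀ (r l : Fin 5), b11D A ((Pi.single r 1 : Fin 5 → Pn 5) l) = 0 := by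
    intro r l
    rw [Pi.single_apply]
    split_ifs
    · exact (b11D A).map_one_eq_zero
    · exact map_zero _
  have hdet0 : ∀ r : Fin 5, (M.updateRow r (fun _ => 0)).det = 0 := by
    intro r
    rw [b11_upd]
    exact Finset.sum_eq_zero fun j _ => mul_zero _
  have r0 : (M.updateRow 0 (fun i => b11D A (M 0 i))).det = 0 := by
    have : (fun i => b11D A (M 0 i)) = fun _ => (0 : Pn 5) := by
      funext l
      exact hz a l
    rw [this, hdet0]
  have r1 : (M.updateRow 1 (fun i => b11D A (M 1 i))).det = 0 := by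
    have : (fun i => b11D A (M 1 i)) = fun _ => (0 : Pn 5) := by
      funext l
      exact hz b l
    rw [this, hdet0]
  -- the three rows of fields
  have hrow : ∀ (k : Fin 3) (r : Fin 5), M r = Xf (T k) →
      (∀ j, (M.updateRow r (Xf (T j))).det = if j = k then M.det else 0) →
      (M.updateRow r ((M * Am) r)).det - (M.updateRow r (fun i => b11D A (M r i))).det =
        C (s i k k) * M.det := by
    intro k r hr hj
    rw [b11_sub]
    have h1 : (fun m => (M * Am) r m - b11D A (M r m)) =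
        fun m => ∑ j, C (s i k j) * Xf (T j) m := by
      funext m
      have h2 : (M * Am) r m = ∑ l, Xf (T k) l * C (A l m) := by
        rw [Matrix.mul_apply]
        refine Finset.sum_congr rfl fun l _ => ?_
        rw [hr]
        rfl
      have h3 : b11D A (M r m) = ∑ l, Xf A l * C (T k l m) := by
        rw [hr, b11D_apply]
        refine Finset.sum_congr rfl fun l _ => ?_
        rw [b11_Xf_pd]
      rw [h2, h3, ← b11_Xf_cm, hA, hs i k, Fin.sum_univ_three, Fin.sum_univ_three, b11_Xf_add,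
        b11_Xf_add, b11_Xf_smul, b11_Xf_smul, b11_Xf_smul]
    rw [h1, b11_lin, Finset.sum_eq_single k]
    · rw [hj k, if_pos rfl]
    · intro j _ hjk
      rw [hj j, if_neg hjk, mul_zero]
    · intro h
      exact absurd (Finset.mem_univ _) h
  have m2 : M 2 = Xf (T 0) := rfl
  have m3 : M 3 = Xf (T 1) := rfl
  have m4 : M 4 = Xf (T 2) := rfl
  have k0 := hrow 0 2 m2 (by
    intro j
    fin_cases j
    · show (M.updateRow 2 (M 2)).det = M.det
      exact b11_self M 2
    · show (M.updateRow 2 (M 3)).det = 0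
      exact b11_eq0 M (by decide)
    · show (M.updateRow 2 (M 4)).det = 0
      exact b11_eq0 M (by decide))
  have k1 := hrow 1 3 m3 (by
    intro j
    fin_cases j
    · show (M.updateRow 3 (M 2)).det = 0
      exact b11_eq0 M (by decide)
    · show (M.updateRow 3 (M 3)).det = M.det
      exact b11_self M 3
    · show (M.updateRow 3 (M 4)).det = 0
      exact b11_eq0 M (by decide))
  have k2 := hrow 2 4 m4 (by
    intro j
    fin_cases j
    · show (M.updateRow 4 (M 2)).det = 0
      exact b11_eq0 M (by decide)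
    · show (M.updateRow 4 (M 3)).det = 0
      exact b11_eq0 M (by decide)
    · show (M.updateRow 4 (M 4)).det = M.det
      exact b11_self M 4)
  have ht : Am.trace = C (∑ l, A l l) := by
    rw [map_sum]
    rfl
  have hss : C (∑ j, s i j j) = (C (s i 0 0) + C (s i 1 1) + C (s i 2 2) : Pn 5) := by
    rw [Fin.sum_univ_three, C_add, C_add]
  rw [r0, r1] at e3
  have hMd : M.det = D5 (fun k => Xf (T k)) a b := rfl
  rw [← hMd, hss, ← ht]
  linear_combination -e2 + k0 + k1 + k2 + e1 - e3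

theorem tr_eq (h : B1In θ σ u T) {s : Fin 3 → Fin 3 → Fin 3 → ℂ}
    (hs : ∀ i j, cm (T i) (T j) = ∑ k, s i j k • T k) (i : Fin 3) : ∑ l, T i l l = ∑ j, s i j j := by
  obtain ⟨a, b, hab⟩ := D5_ne h
  exact C_injective (Fin 5) ℂ (mul_right_cancel₀ hab (b11_tr_key h hs i a b))

private theorem b11_cr {R : Type} [CommRing R] {X : Fin 3 → Fin 5 → R} {ξ : Fin 5 → R}
    (hX : ∀ k, ∑ i, ξ i * X k i = 0) (a b z : Fin 5) :
    D5 X a b * ξ z = D5 X z b * ξ a + D5 X a z * ξ b := by
  set M : Matrix (Fin 5) (Fin 5) R :=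
    Matrix.of ![Pi.single a 1, Pi.single b 1, X 0, X 1, X 2] with hM
  have e : ∀ t, D5 X a b * (Pi.single z 1 : Fin 5 → R) t =
      ∑ k, (M.updateRow k (Pi.single z 1)).det * M k t := by
    intro t
    have h1 := congrFun (Matrix.mulVec_cramer M.transpose (Pi.single z 1)) t
    rw [Matrix.det_transpose, Pi.smul_apply, smul_eq_mul] at h1
    have h2 : M.det = D5 X a b := rfl
    rw [← h2, ← h1, Matrix.mulVec, dotProduct]
    refine Finset.sum_congr rfl fun k _ => ?_
    rw [Matrix.cramer_transpose_apply, Matrix.transpose_apply, mul_comm]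
  have hsg : ∀ c : Fin 5, ∑ t, (Pi.single c 1 : Fin 5 → R) t * ξ t = ξ c := by
    intro c
    rw [Finset.sum_eq_single c]
    · rw [Pi.single_eq_same, one_mul]
    · intro t _ ht
      rw [Pi.single_eq_of_ne ht, zero_mul]
    · intro h
      exact absurd (Finset.mem_univ c) h
  have e1 : D5 X a b * ξ z =
      ∑ k, (M.updateRow k (Pi.single z 1)).det * ∑ t, M k t * ξ t := by
    rw [← hsg z, Finset.mul_sum]
    rw [Finset.sum_congr rfl (fun t _ => by
      rw [← mul_assoc, e t, Finset.sum_mul] :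
      ∀ t ∈ Finset.univ, D5 X a b * ((Pi.single z 1 : Fin 5 → R) t * ξ t) =
        ∑ k, (M.updateRow k (Pi.single z 1)).det * M k t * ξ t)]
    rw [Finset.sum_comm]
    refine Finset.sum_congr rfl fun k _ => ?_
    rw [Finset.mul_sum]
    exact Finset.sum_congr rfl fun t _ => mul_assoc _ _ _
  have hX' : ∀ k, ∑ t, X k t * ξ t = 0 := by
    intro k
    rw [← hX k]
    exact Finset.sum_congr rfl fun t _ => mul_comm _ _
  rw [e1, Fin.sum_univ_five]
  have m0 : ∑ t, M 0 t * ξ t = ξ a := hsg a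
  have m1 : ∑ t, M 1 t * ξ t = ξ b := hsg b
  have m2 : ∑ t, M 2 t * ξ t = 0 := hX' 0
  have m3 : ∑ t, M 3 t * ξ t = 0 := hX' 1
  have m4 : ∑ t, M 4 t * ξ t = 0 := hX' 2
  rw [m0, m1, m2, m3, m4, mul_zero, mul_zero, mul_zero, add_zero, add_zero, add_zero]
  have u0 : (M.updateRow 0 (Pi.single z 1)) =
      Matrix.of ![Pi.single z 1, Pi.single b 1, X 0, X 1, X 2] := by
    ext i j
    fin_cases i <;> rfl
  have u1 : (M.updateRow 1 (Pi.single z 1)) =
      Matrix.of ![Pi.single a 1, Pi.single z 1, X 0, X 1, X 2] := by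
    ext i j
    fin_cases i <;> rfl
  rw [u0, u1]
  rfl

theorem ne_of (h : B1In θ σ u T) {d : ℕ} (hd : d ≤ 2) {ξ : F1 5} (hh : ∀ i, (ξ i).IsHomogeneous d)
    (hk : ∀ k, ∑ i, ξ i * Xf (T k) i = 0) : ξ = 0 := by
  obtain ⟨c, hc, hD⟩ := D5_eq h
  have hc' : (C c : Pn 5) ≠ 0 := by
    rw [Ne, C_eq_zero]
    exact hc
  have hmem : ξ ∈ EE θ d := by
    refine ⟨hh, fun i j l => ?_⟩
    have h1 := b11_cr hk j l i
    rw [hD, hD, hD] at h1
    have h2 := h.cy.fol.dec.2.1 l i
    unfold w12
    apply mul_left_cancel₀ hc'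
    rw [mul_zero]
    have h3 := h.cy.fol.dec.2.1 j i
    linear_combination h1 + (C c * ξ j) * h2 + (C c * ξ l) * h3
  have hbot : EE θ d = ⊥ := by
    interval_cases d
    · exact h.cy.e0
    · exact h.cy.e1
    · exact h.cy.e2
  rw [hbot, Submodule.mem_bot] at hmem
  exact hmem

end Pool.Agent.Helper34.B1
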