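import Pool.Agent.Helper34.B1.SecS
import Pool.Agent.Helper34.B1.Cross
import Pool.Agent.Helper34.B1.Lie
import Pool.Agent.Helper26.B1E.End

/-!
B1-16.  Assembly: `B1In θ σ u T → False`.

`V_level` (k, τ, l1, l2), `exists_Sec` (φ), `cvec` (c), `theta_S`, `uV u ∈ range (lmap φ)` (`Sec.surj`, `VLev.u1, u2`).  `ρ i j l = ∑ m, T j m i * φ m l`, so that
`lf (ρ i j) = lsub φ (Xf (T j) i)` and `(fun i => ρ i j l) = vl (T j) (lmap φ e_l)`.  `CrIn ρ c k`: `p0`: the vectors `vl (T j) (uV u)` have rank 2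
(`exists_cu`: the combinations vanishing at `u` are one dimensional); `nv`: a nonzero combination `K` of the `T j` vanishing on `range (lmap φ)` (dimension 3) has
`finrank (span (range K)) ≤ 2`: `rank3`, `KPi`.  `cross`: `U`.  `S = range (lmap φ)`.  `U ≤ S`: the `vl (T j) (uV u)` are in `U` and in `S` (`tang`) and span a
2-dimensional space.  `st`: if `∑ t j a j = 0` for all admissible `a`, then `∑ t j c j = 0` (at a general point `x` of `S` the vector `a = c(x)` is admissible:
`span (g k x) = U` is an open condition, non empty at `u`; use `MvPolynomial.funext`/a product with a nonzero minor): `t = 0`.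
-/

set_option autoImplicit false

namespace Pool.Agent.Helper34.B1

open MvPolynomial
open scoped BigOperators
open Pool.Agent.Helper71.FL (w12 pf ct Dec Closed dd at0 emb res)
open Pool.Agent.Helper93 (lsub lmap OF pb)
open Pool.Agent.Helper71.FC

variable {θ : F2 5} {σ : F1 3} {u : Fin 3 → ℂ} {T : Fin 3 → Fin 5 → Fin 5 → ℂ}

/-- the endomorphism `x ↦ vl K x` -/
def gE (K : Fin 5 → Fin 5 → ℂ) : Module.End ℂ (Fin 5 → ℂ) where
  toFun x := vl K x
  map_add' := by
    intro x y; funext i
    simp only [vl, Pi.add_apply, add_mul, Finset.sum_add_distrib]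
  map_smul' := by
    intro c x; funext i
    simp only [vl, Pi.smul_apply, smul_eq_mul, RingHom.id_apply, Finset.mul_sum]
    exact Finset.sum_congr rfl fun l _ => by ring

private theorem gE_apply (K : Fin 5 → Fin 5 → ℂ) (x : Fin 5 → ℂ) : gE K x = vl K x := rfl

private theorem gE_lc (K : Fin 5 → Fin 5 → ℂ) : gE K = Fintype.linearCombination ℂ K := by
  refine LinearMap.ext fun x => ?_
  rw [Fintype.linearCombination_apply]
  funext i
  rw [Finset.sum_apply]
  rfl

private theorem gE_range (K : Fin 5 → Fin 5 → ℂ) :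
    LinearMap.range (gE K) = Submodule.span ℂ (Set.range K) := by
  rw [gE_lc, Fintype.range_linearCombination]

private theorem gE_sum (a : Fin 3 → ℂ) (T : Fin 3 → Fin 5 → Fin 5 → ℂ) :
    gE (∑ k, a k • T k) = ∑ k, a k • gE (T k) := by
  refine LinearMap.ext fun x => ?_
  rw [LinearMap.sum_apply]
  funext i
  rw [Finset.sum_apply]
  show ∑ l, x l * (∑ k, a k • T k) l i = ∑ k, a k * ∑ l, x l * T k l i
  have h1 : ∀ l, x l * (∑ k, a k • T k) l i = ∑ k, a k * (x l * T k l i) := by
    intro l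
    rw [Finset.sum_apply, Finset.sum_apply, Finset.mul_sum]
    refine Finset.sum_congr rfl fun k _ => ?_
    rw [Pi.smul_apply, Pi.smul_apply, smul_eq_mul]
    ring
  rw [Finset.sum_congr rfl fun l _ => h1 l, Finset.sum_comm]
  exact Finset.sum_congr rfl fun k _ => (Finset.mul_sum _ _ _).symm

private theorem gE_single (K : Fin 5 → Fin 5 → ℂ) (l : Fin 5) : gE K (Pi.single l 1) = K l := by
  rw [gE_lc, Fintype.linearCombination_apply_single, one_smul]

private theorem gE_cm (K L : Fin 5 → Fin 5 → ℂ) : gE (cm K L) = gE K * gE L - gE L * gE K := by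
  refine LinearMap.pi_ext' fun l => LinearMap.ext_ring ?_
  show gE (cm K L) (Pi.single l 1) = gE K (gE L (Pi.single l 1)) - gE L (gE K (Pi.single l 1))
  rw [gE_single, gE_single, gE_single]
  rfl

private theorem vl_sum (a : Fin 3 → ℂ) (T : Fin 3 → Fin 5 → Fin 5 → ℂ) (x : Fin 5 → ℂ) :
    vl (∑ k, a k • T k) x = ∑ k, a k • vl (T k) x := by
  have h1 := congrArg (fun f : Module.End ℂ (Fin 5 → ℂ) => f x) (gE_sum a T)
  simp only [LinearMap.sum_apply, LinearMap.smul_apply] at h1
  exact h1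

private theorem toP_sum (a : Fin 3 → ℂ) (T : Fin 3 → Fin 5 → Fin 5 → ℂ) :
    toP (∑ k, a k • T k) = ∑ k, a k • toP (T k) := by
  funext l i
  show (∑ k, a k • T k) l.succ.succ i = (∑ k, a k • toP (T k)) l i
  rw [Finset.sum_apply, Finset.sum_apply, Finset.sum_apply, Finset.sum_apply]
  rfl

private theorem K_ne (h : B1In θ σ u T) {a : Fin 3 → ℂ} (ha : a ≠ 0) : ∑ k, a k • T k ≠ 0 := by
  intro hz
  apply ha
  apply h.KPi
  rw [← toP_sum, hz]
  rfl

private theorem K_KV (h : B1In θ σ u T) (a : Fin 3 → ℂ) : IsKV θ (∑ k, a k • T k) := by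
  rw [Fin.sum_univ_three]
  exact (((h.KV 0).smul _).add ((h.KV 1).smul _)).add ((h.KV 2).smul _)

private theorem rk_le (h : B1In θ σ u T) {a : Fin 3 → ℂ} (ha : a ≠ 0) :
    3 ≤ Module.finrank ℂ (LinearMap.range (gE (∑ k, a k • T k))) := by
  rw [gE_range]
  exact rank3 h.cy (K_KV h a) (K_ne h ha)

private theorem two_le {v w : Fin 5 → ℂ} {W : Submodule ℂ (Fin 5 → ℂ)} (hv : v ∈ W) (hw : w ∈ W)
    {i i' : Fin 5} (h : v i * w i' - w i * v i' ≠ 0) : 2 ≤ Module.finrank ℂ W := by
  have hli : LinearIndependent ℂ ![v, w] := by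
    rw [LinearIndependent.pair_iff]
    intro s t hst
    have h1 := congrFun hst i
    have h2 := congrFun hst i'
    simp only [Pi.add_apply, Pi.smul_apply, smul_eq_mul, Pi.zero_apply] at h1 h2
    constructor
    · have : s * (v i * w i' - w i * v i') = 0 := by
        linear_combination w i' * h1 - w i * h2
      exact (mul_eq_zero.1 this).resolve_right h
    · have : t * (v i * w i' - w i * v i') = 0 := by
        linear_combination v i * h2 - v i' * h1
      exact (mul_eq_zero.1 this).resolve_right h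
  have h1 : Module.finrank ℂ (Submodule.span ℂ (Set.range ![v, w])) = 2 := by
    have h2 := finrank_span_eq_card hli
    rw [Fintype.card_fin] at h2
    exact h2
  rw [← h1]
  apply Submodule.finrank_mono
  rw [Submodule.span_le]
  rintro _ ⟨a, rfl⟩
  fin_cases a
  · exact hv
  · exact hw

/-- a matrix with at most one dimensional kernel has a non zero minor -/
private theorem minor {M : Fin 5 → Fin 3 → ℂ} {c : Fin 3 → ℂ}
    (h : ∀ a : Fin 3 → ℂ, (∀ i, ∑ j, a j * M i j = 0) → ∃ r : ℂ, a = r • c) :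
    ∃ (i i' : Fin 5) (j j' : Fin 3), M i j * M i' j' - M i j' * M i' j ≠ 0 := by
  by_contra hcon
  push Not at hcon
  -- a vector in the kernel with two different supports
  have key : ∀ (p q : Fin 3) (a b : Fin 3 → ℂ), (∀ i, ∑ j, a j * M i j = 0) →
      (∀ i, ∑ j, b j * M i j = 0) → a p ≠ 0 → a q = 0 → b q ≠ 0 → False := by
    intro p q a b ha hb hap haq hbq
    obtain ⟨r, hr⟩ := h a ha
    obtain ⟨r', hr'⟩ := h b hb
    have h1 : a p = r * c p := congrFun hr p
    have h2 : a q = r * c q := congrFun hr q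
    have h3 : b q = r' * c q := congrFun hr' q
    have hr0 : r ≠ 0 := by
      rintro rfl
      exact hap (by rw [h1, zero_mul])
    have hc : c q = 0 := by
      rw [haq] at h2
      exact (mul_eq_zero.1 h2.symm).resolve_left hr0
    exact hbq (by rw [h3, hc, mul_zero])
  have hM : ∀ i i' j j', M i j * M i' j' = M i j' * M i' j := fun i i' j j' =>
    sub_eq_zero.1 (hcon i i' j j')
  by_cases h0 : ∃ i j, M i j ≠ 0
  · obtain ⟨i0, j0, hij⟩ := h0
    -- kernel vectors `M i0 j0 e_p - M i0 p e_j0`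
    have hk : ∀ p, p ≠ j0 → ∀ i, ∑ j, (Pi.single p (M i0 j0) + Pi.single j0 (- M i0 p) :
        Fin 3 → ℂ) j * M i j = 0 := by
      intro p hp i
      have e1 : ∀ (q : Fin 3) (x : ℂ), ∑ j, (Pi.single q x : Fin 3 → ℂ) j * M i j = x * M i q := by
        intro q x
        rw [Finset.sum_eq_single q]
        · rw [Pi.single_eq_same]
        · intro b _ hb
          rw [Pi.single_eq_of_ne hb, zero_mul]
        · intro hq
          exact absurd (Finset.mem_univ q) hq
      simp only [Pi.add_apply, add_mul, Finset.sum_add_distrib]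
      rw [e1, e1]
      linear_combination hM i0 i j0 p
    obtain ⟨p, q, hp, hq, hpq⟩ : ∃ p q : Fin 3, p ≠ j0 ∧ q ≠ j0 ∧ p ≠ q := by
      revert j0
      intro j0 _ _
      fin_cases j0
      · exact ⟨1, 2, by decide, by decide, by decide⟩
      · exact ⟨0, 2, by decide, by decide, by decide⟩
      · exact ⟨0, 1, by decide, by decide, by decide⟩
    refine key p q _ _ (hk p hp) (hk q hq) ?_ ?_ ?_
    · rw [Pi.add_apply, Pi.single_eq_same, Pi.single_eq_of_ne hp, add_zero]
      exact hij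
    · rw [Pi.add_apply, Pi.single_eq_of_ne hpq.symm, Pi.single_eq_of_ne hq, add_zero]
    · rw [Pi.add_apply, Pi.single_eq_same, Pi.single_eq_of_ne hq, add_zero]
      exact hij
  · push Not at h0
    refine key 0 1 ![1, 0, 0] ![0, 1, 0] ?_ ?_ one_ne_zero rfl one_ne_zero
    · exact fun i => Finset.sum_eq_zero fun j _ => by rw [h0, mul_zero]
    · exact fun i => Finset.sum_eq_zero fun j _ => by rw [h0, mul_zero]

private theorem lsub_Xf (φ : Fin 5 → Fin 3 → ℂ) (K : Fin 5 → Fin 5 → ℂ) (i : Fin 5) :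
    lsub φ (Xf K i) = lf (fun l => ∑ m, K m i * φ m l) := by
  unfold Xf lf
  rw [map_sum]
  have h1 : ∀ m, lsub φ (C (K m i) * X m) = ∑ l, C (K m i * φ m l) * X l := by
    intro m
    rw [map_mul]
    have hC : lsub φ (C (K m i)) = C (K m i) := (lsub φ).commutes (K m i)
    have hX : lsub φ (X m) = ∑ l, C (φ m l) * X l := by
      unfold Pool.Agent.Helper93.lsub
      rw [aeval_X]
    rw [hC, hX, Finset.mul_sum]
    refine Finset.sum_congr rfl fun l _ => ?_
    rw [C_mul]
    ring
  rw [Finset.sum_congr rfl fun m _ => h1 m, Finset.sum_comm]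
  refine Finset.sum_congr rfl fun l _ => ?_
  rw [map_sum, Finset.sum_mul]

private theorem vl_lmap (φ : Fin 5 → Fin 3 → ℂ) (K : Fin 5 → Fin 5 → ℂ) (y : Fin 3 → ℂ) (i : Fin 5) :
    vl K (lmap φ y) i = ∑ l, (∑ m, K m i * φ m l) * y l := by
  show ∑ m, (∑ l, φ m l * y l) * K m i = _
  have h1 : ∀ m, (∑ l, φ m l * y l) * K m i = ∑ l, K m i * φ m l * y l := by
    intro m
    rw [Finset.sum_mul]
    refine Finset.sum_congr rfl fun l _ => ?_
    ring
  rw [Finset.sum_congr rfl fun m _ => h1 m, Finset.sum_comm]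
  exact Finset.sum_congr rfl fun l _ => (Finset.sum_mul _ _ _).symm

private theorem evlf (p a : Fin 3 → ℂ) : eval p (lf a) = ∑ l, a l * p l := by
  unfold lf
  rw [map_sum]
  refine Finset.sum_congr rfl fun l _ => ?_
  rw [map_mul, eval_C, eval_X]

private theorem pair_uV (l1 : Fin 5 → ℂ) (w : Fin 3 → ℂ) :
    ∑ l, l1 l * uV w l = ∑ l : Fin 3, l1 l.succ.succ * w l := by
  rw [Fin.sum_univ_succ, Fin.sum_univ_succ]
  show l1 0 * 0 + (l1 (Fin.succ 0) * 0 + ∑ l : Fin 3, l1 l.succ.succ * w l) = _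
  rw [mul_zero, mul_zero, zero_add, zero_add]

theorem exists_LAIn (h : B1In θ σ u T) :
    ∃ (s : Fin 3 → Fin 3 → Fin 3 → ℂ) (S U : Submodule ℂ (Fin 5 → ℂ)), LAIn (fun k => gE (T k)) s S U := by
  classical
  obtain ⟨k, τ, l1, l2, hl⟩ := V_level h
  obtain ⟨φ, hφ⟩ := exists_Sec (ind_V hl.ind)
  obtain ⟨c, hch, hcc, hcr⟩ := cvec h hl hφ
  have hz : ∀ i j, lsub φ (θ i j) = 0 := theta_S h hcc hcr
  have hu : ∃ x, lmap φ x = uV u :=
    hφ.surj (uV u) (by rw [pair_uV]; exact hl.u1) (by rw [pair_uV]; exact hl.u2)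
  have htg := tang h hφ.inj hz hu
  obtain ⟨x0, hx0⟩ := hu
  obtain ⟨cu, hcu0, hcu1, hcu2, hcu3⟩ := exists_cu h
  let ρ : Fin 5 → Fin 3 → Fin 3 → ℂ := fun i j l => ∑ m, T j m i * φ m l
  have hvl : ∀ j y i, vl (T j) (lmap φ y) i = ∑ l, ρ i j l * y l := fun j y i => vl_lmap φ (T j) y i
  have hlf : ∀ i j, lsub φ (Xf (T j) i) = lf (ρ i j) := fun i j => lsub_Xf φ (T j) i
  -- a non zero minor at `u`
  obtain ⟨i1, i2, j1, j2, hmin⟩ := minor (M := fun i j => ∑ l, ρ i j l * x0 l) (c := cu) (by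
    intro a ha
    apply hcu2
    rw [← toP_sum, ← vl_uV, ← hx0, vl_sum]
    funext i
    rw [Finset.sum_apply, Pi.zero_apply, ← ha i]
    refine Finset.sum_congr rfl fun j _ => ?_
    rw [Pi.smul_apply, smul_eq_mul, hvl])
  have hCr : CrIn ρ c k := by
    refine ⟨hl.k2, hch, hcc, fun i => ?_, ⟨x0, i1, i2, j1, j2, hmin⟩, fun a ha => ?_⟩
    · rw [← hcr i]
      exact Finset.sum_congr rfl fun j _ => by rw [hlf]
    · by_contra hcon
      push Not at hcon
      have h1 := rk_le h ha
      have h2 := LinearMap.finrank_range_add_finrank_ker (gE (∑ k, a k • T k))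
      rw [Module.finrank_fin_fun] at h2
      have h3 : LinearMap.range (lmap φ) ≤ LinearMap.ker (gE (∑ k, a k • T k)) := by
        rintro _ ⟨y, rfl⟩
        rw [LinearMap.mem_ker, gE_apply, vl_sum]
        funext i
        rw [Finset.sum_apply, Pi.zero_apply]
        have e1 : ∀ j, (a j • vl (T j) (lmap φ y)) i = ∑ l, a j * ρ i j l * y l := by
          intro j
          rw [Pi.smul_apply, smul_eq_mul, hvl, Finset.mul_sum]
          exact Finset.sum_congr rfl fun l _ => by ring
        rw [Finset.sum_congr rfl fun j _ => e1 j, Finset.sum_comm]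
        refine Finset.sum_eq_zero fun l _ => ?_
        rw [← Finset.sum_mul, hcon i l, zero_mul]
      have h4 := Submodule.finrank_mono h3
      rw [LinearMap.finrank_range_of_inj hφ.inj, Module.finrank_fin_fun] at h4
      omega
  obtain ⟨⟨U, hU2, hUm⟩, hci⟩ := cross hCr
  obtain ⟨s, hs⟩ := exists_s h
  have hgS : ∀ k, ∀ x ∈ LinearMap.range (lmap φ), gE (T k) x ∈ U := by
    rintro j _ ⟨y, rfl⟩
    have h1 : gE (T j) (lmap φ y) = ∑ l, y l • (fun i => ρ i j l) := by
      funext i
      rw [gE_apply, hvl, Finset.sum_apply]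
      refine Finset.sum_congr rfl fun l _ => ?_
      rw [Pi.smul_apply, smul_eq_mul, mul_comm]
    rw [h1]
    exact Submodule.sum_mem _ fun l _ => Submodule.smul_mem _ _ (hUm j l)
  have hspan : ∀ y : Fin 3 → ℂ, (∑ l, ρ i1 j1 l * y l) * (∑ l, ρ i2 j2 l * y l) -
      (∑ l, ρ i1 j2 l * y l) * (∑ l, ρ i2 j1 l * y l) ≠ 0 →
      Submodule.span ℂ (Set.range fun k => gE (T k) (lmap φ y)) = U := by
    intro y hy
    apply Submodule.eq_of_le_of_finrank_le
    · rw [Submodule.span_le]
      rintro _ ⟨j, rfl⟩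
      exact hgS j _ ⟨y, rfl⟩
    · rw [hU2]
      refine two_le (v := gE (T j1) (lmap φ y)) (w := gE (T j2) (lmap φ y))
        (Submodule.subset_span ⟨j1, rfl⟩) (Submodule.subset_span ⟨j2, rfl⟩) (i := i1) (i' := i2) ?_
      rw [gE_apply, gE_apply, hvl, hvl, hvl, hvl]
      exact hy
  refine ⟨s, LinearMap.range (lmap φ), U, ⟨?_, ?_, hU2, ?_, hgS, ?_, ?_, ?_, ?_⟩⟩
  · intro i j
    show gE (T i) * gE (T j) - gE (T j) * gE (T i) = _
    rw [← gE_cm, hs, gE_sum]
  · rw [LinearMap.finrank_range_of_inj hφ.inj, Module.finrank_fin_fun]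
  · rw [← hspan x0 hmin, Submodule.span_le]
    rintro _ ⟨j, rfl⟩
    obtain ⟨x, hx⟩ := htg j
    refine ⟨x, ?_⟩
    rw [hx, hx0]
    rfl
  · intro i
    rw [← tr_eq h hs i, LinearMap.trace_eq_matrix_trace ℂ (Pi.basisFun ℂ (Fin 5)), Matrix.trace]
    refine Finset.sum_congr rfl fun l _ => ?_
    rw [Matrix.diag_apply, LinearMap.toMatrix_apply, Pi.basisFun_apply, Pi.basisFun_repr, gE_single]
  · intro a ha
    rw [← gE_sum]
    exact rk_le h ha
  · by_contra hne
    obtain ⟨f, hf, hle⟩ := Submodule.exists_le_ker_of_lt_top _ (lt_top_iff_ne_top.mpr hne)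
    apply hf
    have hfa : ∀ a : Fin 3 → ℂ, f a = ∑ j, f (Pi.single j 1) * a j := by
      intro a
      conv_lhs => rw [LinearMap.pi_apply_eq_sum_univ f a]
      refine Finset.sum_congr rfl fun j _ => ?_
      rw [smul_eq_mul, mul_comm]
      congr 2
      funext l
      rw [Pi.single_apply]
      simp only [eq_comm]
    have hm0 : lf (ρ i1 j1) * lf (ρ i2 j2) - lf (ρ i1 j2) * lf (ρ i2 j1) ≠ (0 : Pn 3) := by
      intro hz0
      apply hmin
      have := congrArg (eval x0) hz0
      rw [map_sub, map_mul, map_mul, evlf, evlf, evlf, evlf, map_zero] at this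
      exact this
    have h1 : (lf (ρ i1 j1) * lf (ρ i2 j2) - lf (ρ i1 j2) * lf (ρ i2 j1)) *
        (∑ j, C (f (Pi.single j 1)) * c j) = (0 : Pn 3) := by
      apply MvPolynomial.funext
      intro y
      rw [map_zero, map_mul, map_sub, map_mul, map_mul, evlf, evlf, evlf, evlf]
      by_cases hy : (∑ l, ρ i1 j1 l * y l) * (∑ l, ρ i2 j2 l * y l) -
        (∑ l, ρ i1 j2 l * y l) * (∑ l, ρ i2 j1 l * y l) = 0
      · rw [hy, zero_mul]
      · have h2 : (fun j => eval y (c j)) ∈ LinearMap.ker f := by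
          apply hle
          apply Submodule.subset_span
          refine ⟨lmap φ y, ⟨y, rfl⟩, ?_, hspan y hy⟩
          funext i
          rw [LinearMap.sum_apply, Finset.sum_apply, Pi.zero_apply]
          have h3 := congrArg (eval y) (hcr i)
          rw [map_sum, map_zero] at h3
          rw [← h3]
          refine Finset.sum_congr rfl fun j _ => ?_
          rw [map_mul, hlf, evlf, ← hvl, LinearMap.smul_apply, Pi.smul_apply, smul_eq_mul, gE_apply]
        rw [LinearMap.mem_ker, hfa] at h2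
        rw [map_sum]
        have h4 : ∑ j, eval y (C (f (Pi.single j 1)) * c j) = 0 := by
          rw [← h2]
          exact Finset.sum_congr rfl fun j _ => by rw [map_mul, eval_C]
        rw [h4, mul_zero]
    have h5 := hci (fun j => f (Pi.single j 1)) ((mul_eq_zero.1 h1).resolve_left hm0)
    refine LinearMap.ext fun a => ?_
    rw [hfa, LinearMap.zero_apply]
    exact Finset.sum_eq_zero fun j _ => by rw [congrFun h5 j, Pi.zero_apply, zero_mul]
  · intro d hd ξ hh hk
    refine ne_of h hd hh fun k => ?_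
    rw [← hk k]
    refine Finset.sum_congr rfl fun i _ => ?_
    congr 1
    unfold Xf lf
    refine Finset.sum_congr rfl fun l _ => ?_
    rw [gE_single]

theorem B1_false (h : B1In θ σ u T) : False := by
  obtain ⟨s, S, U, hL⟩ := exists_LAIn h
  exact Pool.Agent.Helper26.B1E.LA_end hL

end Pool.Agent.Helper34.B1
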