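import Pool.Agent.Helper34.B1.Rel

/-!
B1-5.  The sections of the plane: `E_(k+2)(P) = S A|P + ℂ y_0^k σ`, `y_0^k σ ∉ S A|P`.

* `plane_E`: induction on `k`.  `k = 0`: `sspan`.  `k = 1`: `e3P`, `y = (y·u) y0 + y'` with `y'·u = 0`, `mulP`.  `k + 1 → k + 2`: `gen`:
  `ζ = ∑ X l η_l`, `η_l ≡ c_l y0^k σ`, `∑ c_l X l = (lf of some y) = (y·u) y0 + y'`.
* `plane_nosat`: if `y0^k σ = ∑ f i a_i|P`, choose `y1 ≠ 0`, `y1·u = 0`, `aP v1 = lf y1 σ` (`pv`), `v1 ≠ 0` (as `lf y1 σ ≠ 0`).  Then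
  `lf y1 f i - y0^k v1 i` is a relation, `relP` and evaluation at `u` (`lf y1 (u) = 0`, `lf y0 (u) = 1`): `v1 = - ∑ g k (u) • vl (toP (T k)) u`,
  i.e. `v1 = vl K u` for a tangent field `K` along `P` with `aP (vl K u) = lf y1 σ`: `inter` gives `v1 = 0`.
-/

set_option autoImplicit false

namespace Pool.Agent.Helper34.B1

open MvPolynomial
open scoped BigOperators
open Pool.Agent.Helper71.FL (w12 pf ct Dec Closed dd at0 emb res)
open Pool.Agent.Helper93 (lsub lmap OF pb)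
open Pool.Agent.Helper71.FC

variable {θ : F2 5} {σ : F1 3} {u : Fin 3 → ℂ} {T : Fin 3 → Fin 5 → Fin 5 → ℂ}

private theorem pe_eval {m : ℕ} (a x : Fin m → ℂ) : eval x (lf a) = ∑ l, a l * x l := by
  unfold lf
  rw [map_sum]
  refine Finset.sum_congr rfl fun t _ => ?_
  rw [map_mul, eval_C, eval_X]

private theorem pe_lf_ne {m : ℕ} {a : Fin m → ℂ} (ha : a ≠ 0) : lf a ≠ 0 := by
  intro h
  apply ha
  funext i
  have h1 := congrArg (eval (Pi.single i (1 : ℂ))) h
  rw [pe_eval, map_zero] at h1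
  rw [Finset.sum_eq_single i] at h1
  · simpa using h1
  · intro b _ hb
    rw [Pi.single_eq_of_ne hb, mul_zero]
  · intro hh
    exact absurd (Finset.mem_univ _) hh

private theorem pe_at0_C (m : ℕ) (c : ℂ) : at0 m ℂ (C c : MvPolynomial (Fin (m + 1)) ℂ) = C c := by
  unfold at0
  simp

/-- `a_v` on the plane as a combination of the rows -/
private theorem pe_aP (θ : F2 5) (v : Fin 5 → ℂ) (j : Fin 3) :
    aP θ v j = ∑ i, C (v i) * at0 3 ℂ (at0 4 ℂ (θ i j.succ.succ)) := by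
  change at0 3 ℂ (at0 4 ℂ (∑ i, C (v i) * θ i j.succ.succ)) = _
  rw [map_sum, map_sum]
  refine Finset.sum_congr rfl fun i _ => ?_
  rw [map_mul, map_mul, pe_at0_C, pe_at0_C]

/-- the decomposition `y = (y·u) y0 + y'` -/
private theorem pe_dec {y0 : Fin 3 → ℂ} (hy : ∑ l, y0 l * u l = 1) (y : Fin 3 → ℂ) :
    ∃ y' : Fin 3 → ℂ, ∑ l, y' l * u l = 0 ∧ lf y = C (∑ l, y l * u l) * lf y0 + lf y' := by
  refine ⟨fun l => y l - (∑ l, y l * u l) * y0 l, ?_, ?_⟩
  · have h1 : ∀ l, (y l - (∑ l, y l * u l) * y0 l) * u l =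
        y l * u l - (∑ l, y l * u l) * (y0 l * u l) := fun l => by ring
    simp_rw [h1]
    rw [Finset.sum_sub_distrib, ← Finset.mul_sum, hy, mul_one, sub_self]
  · unfold lf
    rw [Finset.mul_sum, ← Finset.sum_add_distrib]
    refine Finset.sum_congr rfl fun l _ => ?_
    rw [C_sub, C_mul]
    ring

theorem exists_y0 (h : B1In θ σ u T) : ∃ y0 : Fin 3 → ℂ, ∑ l, y0 l * u l = 1 := by
  obtain ⟨i, hi⟩ : ∃ i, u i ≠ 0 := by
    by_contra hc
    push Not at hc
    exact h.u0 (funext hc)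
  refine ⟨Pi.single i (u i)⁻¹, ?_⟩
  rw [Finset.sum_eq_single i]
  · rw [Pi.single_eq_same, inv_mul_cancel₀ hi]
  · intro b _ hb
    rw [Pi.single_eq_of_ne hb, zero_mul]
  · intro hh
    exact absurd (Finset.mem_univ _) hh

theorem mulP (h : B1In θ σ u T) {y : Fin 3 → ℂ} (hy : ∑ l, y l * u l = 0) :
    SP θ (fun j => lf y * σ j) := by
  obtain ⟨v, hv⟩ := h.pv y hy
  have h1 := SP_aP (θ := θ) v
  rwa [show aP θ v = fun j => lf y * σ j from funext hv] at h1

private theorem SP_sum3 {η : Fin 3 → F1 3} (hη : ∀ l, SP θ (η l)) :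
    SP θ (fun j => ∑ l, X l * η l j) := by
  have h1 := (((hη 0).mul (X 0)).add ((hη 1).mul (X 1))).add ((hη 2).mul (X 2))
  have h2 : (fun j => ∑ l, X l * η l j : F1 3) =
      fun j => X 0 * η 0 j + X 1 * η 1 j + X 2 * η 2 j := by
    funext j
    rw [Fin.sum_univ_three]
  rw [h2]
  exact h1

theorem plane_E (h : B1In θ σ u T) {y0 : Fin 3 → ℂ} (hy : ∑ l, y0 l * u l = 1) (k : ℕ) {ζ : F1 3}
    (hζ : ζ ∈ EE (rs2 (rs2 θ)) (k + 2)) :
    ∃ c : ℂ, SP θ (fun j => ζ j - C c * lf y0 ^ k * σ j) := by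
  have step1 : ∀ {ζ : F1 3}, ζ ∈ EE (rs2 (rs2 θ)) 3 →
      ∃ c : ℂ, SP θ (fun j => ζ j - C c * lf y0 ^ 1 * σ j) := by
    intro ζ hζ
    obtain ⟨v, y, hvy⟩ := h.e3P ζ hζ
    obtain ⟨y', hy', hl⟩ := pe_dec hy y
    refine ⟨∑ l, y l * u l, ?_⟩
    have h1 := (SP_aP (θ := θ) v).add (mulP h hy')
    have h2 : (fun j => ζ j - C (∑ l, y l * u l) * lf y0 ^ 1 * σ j : F1 3) =
        fun j => aP θ v j + lf y' * σ j := by
      funext j
      rw [hvy j, hl]
      ring
    rw [h2]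
    exact h1
  have key : ∀ k : ℕ, ∀ ζ : F1 3, ζ ∈ EE (rs2 (rs2 θ)) (k + 1 + 2) →
      ∃ c : ℂ, SP θ (fun j => ζ j - C c * lf y0 ^ (k + 1) * σ j) := by
    intro k
    induction k with
    | zero =>
      intro ζ hζ
      exact step1 hζ
    | succ k ih =>
      intro ζ hζ
      obtain ⟨η, hη, hs⟩ := h.gen (k + 3) (by omega) ζ hζ
      choose c hc using fun l => ih (η l) (hη l)
      obtain ⟨y', hy', hl⟩ := pe_dec hy c
      refine ⟨∑ l, c l * u l, ?_⟩
      have h1 := (SP_sum3 hc).add (((mulP h hy').mul (lf y0 ^ (k + 1))))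
      have h2 : (fun j => ζ j - C (∑ l, c l * u l) * lf y0 ^ (k + 1 + 1) * σ j : F1 3) =
          fun j => ∑ l, X l * (η l j - C (c l) * lf y0 ^ (k + 1) * σ j) +
            lf y0 ^ (k + 1) * (lf y' * σ j) := by
        funext j
        have h3 : ∑ l, X l * (η l j - C (c l) * lf y0 ^ (k + 1) * σ j) =
            ζ j - lf c * lf y0 ^ (k + 1) * σ j := by
          rw [hs j]
          unfold lf
          rw [Finset.sum_mul, Finset.sum_mul, ← Finset.sum_sub_distrib]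
          refine Finset.sum_congr rfl fun l _ => ?_
          ring
        rw [h3, hl]
        ring
      rw [h2]
      exact h1
  cases k with
  | zero =>
    obtain ⟨c, hc⟩ := h.sspan ζ hζ
    refine ⟨c, ?_⟩
    have h2 : (fun j => ζ j - C c * lf y0 ^ 0 * σ j : F1 3) = 0 := by
      funext j
      rw [hc, Pi.smul_apply, smul_eq_C_mul, pow_zero, mul_one, sub_self, Pi.zero_apply]
    rw [h2]
    exact SP.zero
  | succ k => exact key k ζ hζ

theorem plane_nosat (h : B1In θ σ u T) {y0 : Fin 3 → ℂ} (hy : ∑ l, y0 l * u l = 1) (k : ℕ) :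
    ¬ SP θ (fun j => lf y0 ^ k * σ j) := by
  rintro ⟨f, hf⟩
  obtain ⟨y1, hy1, hy1u⟩ : ∃ y1 : Fin 3 → ℂ, y1 ≠ 0 ∧ ∑ l, y1 l * u l = 0 := by
    by_cases h0 : u 0 = 0
    · refine ⟨![1, 0, 0], ?_, ?_⟩
      · intro hh
        have := congrFun hh 0
        simp at this
      · simp [Fin.sum_univ_three, h0]
    · refine ⟨![- u 1, u 0, 0], ?_, ?_⟩
      · intro hh
        have := congrFun hh 1
        simp at this
        exact h0 this
      · simp [Fin.sum_univ_three]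
        ring
  obtain ⟨v1, hv1⟩ := h.pv y1 hy1u
  obtain ⟨j0, hj0⟩ : ∃ j, σ j ≠ 0 := by
    by_contra hcon
    push Not at hcon
    exact h.s0 (funext hcon)
  have hv10 : v1 ≠ 0 := by
    rintro rfl
    have h1 := hv1 j0
    rw [pe_aP] at h1
    simp only [Pi.zero_apply, C_0, zero_mul, Finset.sum_const_zero] at h1
    rcases mul_eq_zero.mp h1.symm with h2 | h2
    · exact pe_lf_ne hy1 h2
    · exact hj0 h2
  obtain ⟨g, hg⟩ := relP h (f := fun i => lf y1 * f i - lf y0 ^ k * C (v1 i)) (fun j => by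
    have h1 : ∀ i : Fin 5, (lf y1 * f i - lf y0 ^ k * C (v1 i)) *
        at0 3 ℂ (at0 4 ℂ (θ i j.succ.succ)) =
        lf y1 * (f i * at0 3 ℂ (at0 4 ℂ (θ i j.succ.succ))) -
          lf y0 ^ k * (C (v1 i) * at0 3 ℂ (at0 4 ℂ (θ i j.succ.succ))) := fun i => by ring
    simp_rw [h1]
    rw [Finset.sum_sub_distrib, ← Finset.mul_sum, ← Finset.mul_sum, ← hf j, ← pe_aP, hv1 j]
    ring)
  have hT : ∀ a : Fin 3 → ℂ, IsKP θ (∑ k, a k • toP (T k)) := by
    intro a
    rw [Fin.sum_univ_three]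
    exact (((h.KV 0).toP.smul _).add ((h.KV 1).toP.smul _)).add ((h.KV 2).toP.smul _)
  have hK : vl (∑ k, (- eval u (g k)) • toP (T k)) u = v1 := by
    funext i
    have h1 := congrArg (eval u) (hg i)
    rw [map_sub, map_mul, map_mul, map_pow, pe_eval, pe_eval, hy1u, hy, eval_C, one_pow, zero_mul,
      one_mul, zero_sub, map_sum] at h1
    have h2 : v1 i = - ∑ k, eval u (g k) * ∑ l, u l * toP (T k) l i := by
      rw [← neg_eq_iff_eq_neg, h1]
      refine Finset.sum_congr rfl fun k _ => ?_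
      rw [map_mul]
      congr 1
      unfold Xf
      rw [pe_eval]
      refine Finset.sum_congr rfl fun l _ => ?_
      ring
    rw [h2]
    simp only [vl, Finset.sum_apply, Pi.smul_apply, smul_eq_mul]
    simp_rw [Finset.mul_sum]
    rw [Finset.sum_comm, ← Finset.sum_neg_distrib]
    refine Finset.sum_congr rfl fun k _ => ?_
    rw [← Finset.sum_neg_distrib]
    refine Finset.sum_congr rfl fun l _ => ?_
    ring
  have h3 := inter h (hT fun k => - eval u (g k)) (y := y1) (fun j => by rw [hK]; exact hv1 j)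
  rw [hK] at h3
  exact hv10 h3

end Pool.Agent.Helper34.B1
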