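import Pool.Agent.Helper34.B1.Two

/-!
B1-2.  Linear fields along the plane `P` (coordinates `Fin 3`).

* `kill`: `K` tangent along `P`, `K(p) = 0`, `p ≠ 0`, `K ≠ 0`.  Choose a basis `y1, y2` of `p^⊥ ⊂ (ℂ^3)^*`; then
  `K l = y1 l • v1 + y2 l • v2` (a linear map `ℂ^3 → ℂ^5` killing `p`), so `lf y1 * aP v1 + lf y2 * aP v2 = 0`, `two_syz_hom`:
  `aP v1 = lf y2 * η`, `aP v2 = - lf y1 * η`, `η` of degree 2, `η ∈ EE θ_P 2` (`lf y2 * (η ∧ θ_P) = 0`), `η = c σ`; `c ≠ 0`,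
  otherwise `aP v1 = aP v2 = 0`, `v1 = v2 = 0` (`inj`), `K = 0`.  By `vp`: `y2 · u = 0 = y1 · u`: `u ∈ ℂ p`, and `u ≠ 0`.
* `exists_Xu`: basis `y1, y2` of `u^⊥`, `v1, v2` with `aP v_i = lf y_i σ` (`pv`), `K l = y2 l • v1 - y1 l • v2`.
  For `K'` with `K'(u) = 0` the computation of `kill` with `p = u` gives `K' = c K` (`inj`: `aP v1' = c lf y2 σ` etc.).
  `aP (K p) = (y2·p) lf y1 σ - (y1·p) lf y2 σ`.
* `inter`: `v = K(u)`, `aP v = lf y σ` (so `y · u = 0` by `vp`).  Choose `y0` with `y0 · u = 1`; `K' l = K l - y0 l • v` kills `u`: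
  `K' l = y1 l • w1 + y2 l • w2`, `∑ X l * aP (K l) = 0` gives
  `lf y1 * aP w1 + lf y2 * aP w2 + lf y0 * lf y * σ = 0`, `y = a y1 + b y2`:
  `lf y1 (aP w1 + a lf y0 σ) + lf y2 (aP w2 + b lf y0 σ) = 0`, so `aP w1 + a lf y0 σ = lf y2 η`, `η = c σ`,
  `aP w1 = lf (c y2 - a y0) σ`, `vp`: `a = 0`; in the same way `b = 0`; `y = 0`, `aP v = 0`, `v = 0`.
-/

set_option autoImplicit false

namespace Pool.Agent.Helper34.B1

open MvPolynomial
open scoped BigOperators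
open Pool.Agent.Helper71.FL (w12 pf ct Dec Closed dd at0 emb res)
open Pool.Agent.Helper93 (lsub lmap OF pb)
open Pool.Agent.Helper71.FC

variable {θ : F2 5} {σ : F1 3} {u : Fin 3 → ℂ} {T : Fin 3 → Fin 5 → Fin 5 → ℂ}

section aux12

private theorem b12_lf_add {m : ℕ} (a b : Fin m → ℂ) : lf (a + b) = lf a + lf b := by
  unfold lf
  rw [← Finset.sum_add_distrib]
  refine Finset.sum_congr rfl fun i _ => ?_
  rw [Pi.add_apply, C_add, add_mul]

private theorem b12_lf_smul {m : ℕ} (c : ℂ) (a : Fin m → ℂ) : lf (c • a) = C c * lf a := by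
  unfold lf
  rw [Finset.mul_sum]
  refine Finset.sum_congr rfl fun i _ => ?_
  rw [Pi.smul_apply, smul_eq_mul, C_mul, mul_assoc]

private theorem b12_lf_neg {m : ℕ} (a : Fin m → ℂ) : lf (-a) = - lf a := by
  have := b12_lf_smul (-1) a
  rw [neg_one_smul] at this
  rw [this, C_neg, C_1, neg_one_mul]

private theorem b12_eval {m : ℕ} (a x : Fin m → ℂ) : eval x (lf a) = ∑ l, a l * x l := by
  unfold lf
  rw [map_sum]
  refine Finset.sum_congr rfl fun t _ => ?_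
  rw [map_mul, eval_C, eval_X]

/-- dual bases `(p, e1, e2)`, `(y0, y1, y2)` -/
private structure B3 (p y0 y1 y2 e1 e2 : Fin 3 → ℂ) : Prop where
  rel : ∀ l m, y0 l * p m + y1 l * e1 m + y2 l * e2 m = if l = m then 1 else 0
  y0p : ∑ l, y0 l * p l = 1
  y1p : ∑ l, y1 l * p l = 0
  y2p : ∑ l, y2 l * p l = 0
  y1e1 : ∑ l, y1 l * e1 l = 1
  y1e2 : ∑ l, y1 l * e2 l = 0
  y2e1 : ∑ l, y2 l * e1 l = 0
  y2e2 : ∑ l, y2 l * e2 l = 1

private theorem exists_B3 {p : Fin 3 → ℂ} (hp : p ≠ 0) :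
    ∃ y0 y1 y2 e1 e2 : Fin 3 → ℂ, B3 p y0 y1 y2 e1 e2 := by
  by_cases h0 : p 0 = 0
  · by_cases h1 : p 1 = 0
    · have h2 : p 2 ≠ 0 := by
        intro h2
        apply hp
        funext i
        fin_cases i
        · exact h0
        · exact h1
        · exact h2
      refine ⟨![0, 0, 1 / p 2], ![1, 0, - p 0 / p 2], ![0, 1, - p 1 / p 2], ![1, 0, 0], ![0, 1, 0],
        ?_, ?_, ?_, ?_, ?_, ?_, ?_, ?_⟩
      · intro l m
        fin_cases l <;> fin_cases m <;> simp [h0, h1, h2]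
      all_goals simp [Fin.sum_univ_three, h0, h1, h2]
    · refine ⟨![0, 1 / p 1, 0], ![1, - p 0 / p 1, 0], ![0, - p 2 / p 1, 1], ![1, 0, 0], ![0, 0, 1],
        ?_, ?_, ?_, ?_, ?_, ?_, ?_, ?_⟩
      · intro l m
        fin_cases l <;> fin_cases m <;> simp [h0, h1]
        ring
      all_goals simp [Fin.sum_univ_three, h0, h1]
  · refine ⟨![1 / p 0, 0, 0], ![- p 1 / p 0, 1, 0], ![- p 2 / p 0, 0, 1], ![0, 1, 0], ![0, 0, 1],
      ?_, ?_, ?_, ?_, ?_, ?_, ?_, ?_⟩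
    · intro l m
      fin_cases l <;> fin_cases m <;> simp [h0]
      all_goals ring
    all_goals simp [Fin.sum_univ_three, h0]

variable {p y0 y1 y2 e1 e2 : Fin 3 → ℂ}

private theorem B3.dec (hB : B3 p y0 y1 y2 e1 e2) (K : Fin 3 → Fin 5 → ℂ) (l : Fin 3) :
    K l = y0 l • vl K p + y1 l • vl K e1 + y2 l • vl K e2 := by
  funext i
  have h1 : K l i = ∑ m, (if l = m then (1 : ℂ) else 0) * K m i := by
    rw [Finset.sum_eq_single l]
    · rw [if_pos rfl, one_mul]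
    · intro m _ hm
      rw [if_neg (Ne.symm hm), zero_mul]
    · intro hh; exact absurd (Finset.mem_univ _) hh
  rw [h1]
  simp only [Pi.add_apply, Pi.smul_apply, smul_eq_mul, vl]
  rw [Finset.mul_sum, Finset.mul_sum, Finset.mul_sum, ← Finset.sum_add_distrib,
    ← Finset.sum_add_distrib]
  refine Finset.sum_congr rfl fun m _ => ?_
  rw [← hB.rel l m]
  ring

private theorem B3.vec (hB : B3 p y0 y1 y2 e1 e2) (q : Fin 3 → ℂ) (m : Fin 3) :
    q m = (∑ l, y0 l * q l) * p m + (∑ l, y1 l * q l) * e1 m + (∑ l, y2 l * q l) * e2 m := by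
  have h1 : q m = ∑ l, (if l = m then (1 : ℂ) else 0) * q l := by
    rw [Finset.sum_eq_single m]
    · rw [if_pos rfl, one_mul]
    · intro l _ hl
      rw [if_neg hl, zero_mul]
    · intro hh; exact absurd (Finset.mem_univ _) hh
  rw [Finset.sum_mul, Finset.sum_mul, Finset.sum_mul, ← Finset.sum_add_distrib,
    ← Finset.sum_add_distrib]
  refine h1.trans (Finset.sum_congr rfl fun l _ => ?_)
  rw [← hB.rel l m]
  ring

private theorem B3.cov (hB : B3 p y0 y1 y2 e1 e2) (z : Fin 3 → ℂ) :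
    z = (∑ l, z l * p l) • y0 + (∑ l, z l * e1 l) • y1 + (∑ l, z l * e2 l) • y2 := by
  funext l
  have h1 : z l = ∑ m, (if l = m then (1 : ℂ) else 0) * z m := by
    rw [Finset.sum_eq_single l]
    · rw [if_pos rfl, one_mul]
    · intro m _ hm
      rw [if_neg (Ne.symm hm), zero_mul]
    · intro hh; exact absurd (Finset.mem_univ _) hh
  simp only [Pi.add_apply, Pi.smul_apply, smul_eq_mul]
  rw [Finset.sum_mul, Finset.sum_mul, Finset.sum_mul, ← Finset.sum_add_distrib,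
    ← Finset.sum_add_distrib]
  refine h1.trans (Finset.sum_congr rfl fun m _ => ?_)
  rw [← hB.rel l m]
  ring

private theorem B3.li (hB : B3 p y0 y1 y2 e1 e2) : LinearIndependent ℂ ![y1, y2] := by
  rw [LinearIndependent.pair_iff]
  intro s t hst
  have h1 : ∀ l, s * y1 l + t * y2 l = 0 := fun l => congrFun hst l
  constructor
  · have h2 : s * (∑ l, y1 l * e1 l) + t * (∑ l, y2 l * e1 l) = 0 := by
      rw [Finset.mul_sum, Finset.mul_sum, ← Finset.sum_add_distrib]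
      refine Finset.sum_eq_zero fun l _ => ?_
      linear_combination e1 l * h1 l
    rw [hB.y1e1, hB.y2e1] at h2
    linear_combination h2
  · have h2 : s * (∑ l, y1 l * e2 l) + t * (∑ l, y2 l * e2 l) = 0 := by
      rw [Finset.mul_sum, Finset.mul_sum, ← Finset.sum_add_distrib]
      refine Finset.sum_eq_zero fun l _ => ?_
      linear_combination e2 l * h1 l
    rw [hB.y1e2, hB.y2e2] at h2
    linear_combination h2

private theorem B3.ne1 (hB : B3 p y0 y1 y2 e1 e2) : lf y1 ≠ 0 := by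
  intro h
  have h1 := congrArg (eval e1) h
  rw [b12_eval, hB.y1e1, map_zero] at h1
  exact one_ne_zero h1

private theorem B3.ne2 (hB : B3 p y0 y1 y2 e1 e2) : lf y2 ≠ 0 := by
  intro h
  have h1 := congrArg (eval e2) h
  rw [b12_eval, hB.y2e2, map_zero] at h1
  exact one_ne_zero h1

private theorem b12_aP0 (θ : F2 5) : aP θ 0 = 0 := by
  have := aP_smul θ 0 0
  rwa [zero_smul, zero_smul] at this

private theorem b12_lin {v w1 w2 : Fin 5 → ℂ} (θ : F2 5) (a b c : ℂ) (j : Fin 3) :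
    aP θ (a • v + b • w1 + c • w2) j = C a * aP θ v j + C b * aP θ w1 j + C c * aP θ w2 j := by
  rw [aP_add, aP_add, aP_smul, aP_smul, aP_smul]
  simp only [Pi.add_apply, Pi.smul_apply, smul_eq_C_mul]

private theorem b12_lin2 {w1 w2 : Fin 5 → ℂ} (θ : F2 5) (b c : ℂ) (j : Fin 3) :
    aP θ (b • w1 + c • w2) j = C b * aP θ w1 j + C c * aP θ w2 j := by
  rw [aP_add, aP_smul, aP_smul]
  simp only [Pi.add_apply, Pi.smul_apply, smul_eq_C_mul]

private theorem b12_tang {θ : F2 5} {K : Fin 3 → Fin 5 → ℂ} (hK : IsKP θ K)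
    (hB : B3 p y0 y1 y2 e1 e2) (j : Fin 3) :
    lf y0 * aP θ (vl K p) j + lf y1 * aP θ (vl K e1) j + lf y2 * aP θ (vl K e2) j = 0 := by
  rw [← hK j]
  unfold lf
  rw [Finset.sum_mul, Finset.sum_mul, Finset.sum_mul, ← Finset.sum_add_distrib,
    ← Finset.sum_add_distrib]
  refine Finset.sum_congr rfl fun l _ => ?_
  have h1 : aP θ (K l) j = C (y0 l) * aP θ (vl K p) j + C (y1 l) * aP θ (vl K e1) j +
      C (y2 l) * aP θ (vl K e2) j := by
    rw [← b12_lin, ← hB.dec K l]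
  rw [h1]
  ring

private theorem b12_syz (h : B1In θ σ u T) {a b : Fin 3 → ℂ} (hab : LinearIndependent ℂ ![a, b])
    (hb : lf b ≠ 0) {ξ η : F1 3} (hξ : ξ ∈ EE (rs2 (rs2 θ)) 3)
    (h0 : ∀ j, lf a * ξ j + lf b * η j = 0) :
    ∃ c : ℂ, (∀ j, ξ j = lf (c • b) * σ j) ∧ ∀ j, η j = lf (-(c • a)) * σ j := by
  obtain ⟨ζ, hζ, hr⟩ := two_syz_hom hab (k := 2) hξ.1 h0
  have hm : ζ ∈ EE (rs2 (rs2 θ)) 2 := by
    refine ⟨hζ, fun i j l => ?_⟩
    apply mul_left_cancel₀ hb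
    rw [mul_zero, ← Pool.Agent.Helper71.FL.w12_smul]
    have h1 : (fun l => lf b * ζ l) = ξ := funext fun i => (hr i).1.symm
    rw [h1]
    exact hξ.2 i j l
  obtain ⟨c, hc⟩ := h.sspan ζ hm
  refine ⟨c, fun j => ?_, fun j => ?_⟩
  · rw [(hr j).1, hc, b12_lf_smul, Pi.smul_apply, smul_eq_C_mul]
    ring
  · rw [(hr j).2, hc, b12_lf_neg, b12_lf_smul, Pi.smul_apply, smul_eq_C_mul]
    ring

private theorem b12_dot_smul (c : ℂ) (y q : Fin 3 → ℂ) :
    ∑ l, (c • y) l * q l = c * ∑ l, y l * q l := by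
  rw [Finset.mul_sum]
  refine Finset.sum_congr rfl fun l _ => ?_
  rw [Pi.smul_apply, smul_eq_mul, mul_assoc]

private theorem b12_dot_neg (y q : Fin 3 → ℂ) : ∑ l, (-y) l * q l = - ∑ l, y l * q l := by
  rw [← Finset.sum_neg_distrib]
  refine Finset.sum_congr rfl fun l _ => ?_
  rw [Pi.neg_apply, neg_mul]

private theorem b12_dot_add (y z q : Fin 3 → ℂ) :
    ∑ l, (y + z) l * q l = (∑ l, y l * q l) + ∑ l, z l * q l := by
  rw [← Finset.sum_add_distrib]
  refine Finset.sum_congr rfl fun l _ => ?_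
  rw [Pi.add_apply, add_mul]

private theorem b12_inj2 (h : B1In θ σ u T) {v w : Fin 5 → ℂ} {c : ℂ}
    (hv : ∀ j, aP θ v j = C c * aP θ w j) : v = c • w := by
  have h1 : aP θ (v + (-c) • w) = 0 := by
    rw [aP_add, aP_smul]
    funext j
    rw [Pi.add_apply, Pi.smul_apply, smul_eq_C_mul, hv j, C_neg, Pi.zero_apply]
    ring
  have h2 := h.inj _ h1
  rw [neg_smul] at h2
  exact add_neg_eq_zero.mp h2

end aux12

theorem kill (h : B1In θ σ u T) {K : Fin 3 → Fin 5 → ℂ} (hK : IsKP θ K) (h0 : K ≠ 0)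
    {p : Fin 3 → ℂ} (hp : p ≠ 0) (hv : vl K p = 0) : ∃ c : ℂ, p = c • u := by
  obtain ⟨y0, y1, y2, e1, e2, hB⟩ := exists_B3 hp
  have ht : ∀ j, lf y1 * aP θ (vl K e1) j + lf y2 * aP θ (vl K e2) j = 0 := by
    intro j
    have h1 := b12_tang hK hB j
    rw [hv, b12_aP0, Pi.zero_apply, mul_zero, zero_add] at h1
    exact h1
  obtain ⟨c, hc1, hc2⟩ := b12_syz h hB.li hB.ne2 (aP_mem h.cy.fol _) ht
  have hc0 : c ≠ 0 := by
    rintro rfl
    apply h0
    have w1 : vl K e1 = 0 := h.inj _ (funext fun j => by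
      rw [hc1 j, b12_lf_smul, C_0, zero_mul, zero_mul]; rfl)
    have w2 : vl K e2 = 0 := h.inj _ (funext fun j => by
      rw [hc2 j, b12_lf_neg, b12_lf_smul, C_0, zero_mul, neg_zero, zero_mul]; rfl)
    funext l
    rw [hB.dec K l, hv, w1, w2, smul_zero, smul_zero, smul_zero, add_zero, add_zero]
    rfl
  have h1 := h.vp _ _ hc1
  have h2 := h.vp _ _ hc2
  rw [b12_dot_smul] at h1
  rw [b12_dot_neg, b12_dot_smul, neg_eq_zero] at h2
  have h3 := (mul_eq_zero.mp h1).resolve_left hc0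
  have h4 := (mul_eq_zero.mp h2).resolve_left hc0
  have h5 : u = (∑ l, y0 l * u l) • p := by
    funext m
    refine (hB.vec u m).trans ?_
    rw [h3, h4, zero_mul, zero_mul, add_zero, add_zero]
    rfl
  have h6 : (∑ l, y0 l * u l) ≠ 0 := by
    intro h6
    rw [h6, zero_smul] at h5
    exact h.u0 h5
  refine ⟨(∑ l, y0 l * u l)⁻¹, ?_⟩
  rw [h5, smul_smul, ← h5, inv_mul_cancel₀ h6, one_smul]

theorem exists_Xu (h : B1In θ σ u T) : ∃ K : Fin 3 → Fin 5 → ℂ, IsKP θ K ∧ K ≠ 0 ∧ vl K u = 0 ∧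
    (∀ K', IsKP θ K' → vl K' u = 0 → ∃ c : ℂ, K' = c • K) ∧
    (∀ p : Fin 3 → ℂ, ∃ y : Fin 3 → ℂ, ∀ j, aP θ (vl K p) j = lf y * σ j) := by
  obtain ⟨y0, y1, y2, e1, e2, hB⟩ := exists_B3 h.u0
  obtain ⟨v1, hv1⟩ := h.pv y1 hB.y1p
  obtain ⟨v2, hv2⟩ := h.pv y2 hB.y2p
  obtain ⟨j0, hj0⟩ : ∃ j, σ j ≠ 0 := by
    by_contra hcon
    push Not at hcon
    exact h.s0 (funext hcon)
  have hvl : ∀ q : Fin 3 → ℂ, vl (fun l => y2 l • v1 + (- y1 l) • v2) q =
      (∑ l, y2 l * q l) • v1 + (-(∑ l, y1 l * q l)) • v2 := by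
    intro q
    funext i
    simp only [vl, Pi.add_apply, Pi.smul_apply, smul_eq_mul]
    rw [Finset.sum_mul, ← Finset.sum_neg_distrib, Finset.sum_mul, ← Finset.sum_add_distrib]
    refine Finset.sum_congr rfl fun l _ => ?_
    ring
  refine ⟨fun l => y2 l • v1 + (- y1 l) • v2, ?_, ?_, ?_, ?_, ?_⟩
  · intro j
    have h1 : ∀ l : Fin 3, X l * aP θ (y2 l • v1 + (- y1 l) • v2) j =
        (C (y2 l) * X l) * (lf y1 * σ j) + (- (C (y1 l) * X l)) * (lf y2 * σ j) := by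
      intro l
      rw [b12_lin2, hv1, hv2, C_neg]
      ring
    rw [Finset.sum_congr rfl fun l _ => h1 l, Finset.sum_add_distrib, ← Finset.sum_mul,
      ← Finset.sum_mul, Finset.sum_neg_distrib]
    show lf y2 * (lf y1 * σ j) + (- lf y1) * (lf y2 * σ j) = 0
    ring
  · intro h0
    have h1 := hvl e2
    rw [h0, hB.y2e2, hB.y1e2, one_smul, neg_zero, zero_smul, add_zero] at h1
    have h2 : v1 = 0 := by
      rw [← h1]
      funext i
      simp [vl]
    have h3 := hv1 j0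
    rw [h2, b12_aP0, Pi.zero_apply] at h3
    rcases mul_eq_zero.mp h3.symm with h4 | h4
    · exact hB.ne1 h4
    · exact hj0 h4
  · rw [hvl, hB.y1p, hB.y2p, neg_zero, zero_smul, zero_smul, add_zero]
  · intro K' hK' hu
    have ht : ∀ j, lf y1 * aP θ (vl K' e1) j + lf y2 * aP θ (vl K' e2) j = 0 := by
      intro j
      have h1 := b12_tang hK' hB j
      rw [hu, b12_aP0, Pi.zero_apply, mul_zero, zero_add] at h1
      exact h1
    obtain ⟨c, hc1, hc2⟩ := b12_syz h hB.li hB.ne2 (aP_mem h.cy.fol _) ht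
    have w1 : vl K' e1 = c • v2 := b12_inj2 h fun j => by
      rw [hc1 j, hv2 j, b12_lf_smul, mul_assoc]
    have w2 : vl K' e2 = (-c) • v1 := b12_inj2 h fun j => by
      rw [hc2 j, hv1 j, b12_lf_neg, b12_lf_smul, C_neg]
      ring
    refine ⟨-c, ?_⟩
    funext l
    rw [hB.dec K' l, hu, w1, w2, smul_zero, zero_add, Pi.smul_apply, smul_add, smul_smul, smul_smul,
      smul_smul, smul_smul, add_comm]
    congr 2 <;> ring
  · intro q
    refine ⟨(∑ l, y2 l * q l) • y1 + (-(∑ l, y1 l * q l)) • y2, fun j => ?_⟩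
    rw [hvl, b12_lin2, hv1, hv2, b12_lf_add, b12_lf_smul, b12_lf_smul]
    ring

theorem inter (h : B1In θ σ u T) {K : Fin 3 → Fin 5 → ℂ} (hK : IsKP θ K) {y : Fin 3 → ℂ}
    (hy : ∀ j, aP θ (vl K u) j = lf y * σ j) : vl K u = 0 := by
  obtain ⟨y0, y1, y2, e1, e2, hB⟩ := exists_B3 h.u0
  have hyu := h.vp _ _ hy
  have hye := hB.cov y
  rw [hyu, zero_smul, zero_add] at hye
  set a := ∑ l, y l * e1 l with ha
  set b := ∑ l, y l * e2 l with hb
  have hσ3 : (fun j => C a * (lf y0 * σ j) : F1 3) ∈ EE (rs2 (rs2 θ)) 3 := by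
    have hl : (lf y0).IsHomogeneous 1 := by
      unfold lf
      refine IsHomogeneous.sum _ _ _ fun i _ => ?_
      have := (isHomogeneous_C (Fin 3) (y0 i)).mul (isHomogeneous_X ℂ i)
      rwa [zero_add] at this
    refine ⟨fun j => ?_, fun i j l => ?_⟩
    · have := (isHomogeneous_C (Fin 3) a).mul (hl.mul (h.sE.1 j))
      rwa [zero_add] at this
    · rw [Pool.Agent.Helper71.FL.w12_smul, Pool.Agent.Helper71.FL.w12_smul, h.sE.2, mul_zero, mul_zero]
  have hξ := (EE (rs2 (rs2 θ)) 3).add_mem (aP_mem h.cy.fol (vl K e1)) hσ3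
  obtain ⟨c, hc1, hc2⟩ := b12_syz h hB.li hB.ne2 (η := fun j => aP θ (vl K e2) j + C b * (lf y0 * σ j)) hξ
    (fun j => by
      have h1 := b12_tang hK hB j
      rw [hy, hye, b12_lf_add, b12_lf_smul, b12_lf_smul] at h1
      rw [Pi.add_apply]
      linear_combination h1)
  have ha0 : a = 0 := by
    have h1 := h.vp (vl K e1) (c • y2 + (-a) • y0) (fun j => by
      have h2 := hc1 j
      rw [Pi.add_apply] at h2
      rw [b12_lf_add, b12_lf_smul _ y0, C_neg]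
      linear_combination h2)
    rw [b12_dot_add, b12_dot_smul, b12_dot_smul, hB.y2p, hB.y0p] at h1
    linear_combination -h1
  have hb0 : b = 0 := by
    have h1 := h.vp (vl K e2) (-(c • y1) + (-b) • y0) (fun j => by
      have h2 := hc2 j
      rw [b12_lf_add, b12_lf_smul _ y0, C_neg]
      linear_combination h2)
    rw [b12_dot_add, b12_dot_neg, b12_dot_smul, b12_dot_smul, hB.y1p, hB.y0p] at h1
    linear_combination -h1
  apply h.inj
  funext j
  rw [hy j, hye, ha0, hb0, b12_lf_add, b12_lf_smul, b12_lf_smul, C_0, zero_mul, zero_mul, add_zero,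
    zero_mul]
  rfl

/-- coefficient form of the above, for the basis `T` -/
theorem exists_cu (h : B1In θ σ u T) : ∃ c : Fin 3 → ℂ, c ≠ 0 ∧
    vl (∑ k, c k • toP (T k)) u = 0 ∧
    (∀ a : Fin 3 → ℂ, vl (∑ k, a k • toP (T k)) u = 0 → ∃ r : ℂ, a = r • c) ∧
    (∀ (p : Fin 3 → ℂ) (a : Fin 3 → ℂ),
      vl (∑ k, c k • toP (T k)) p = vl (∑ k, a k • toP (T k)) u → ∃ r : ℂ, p = r • u) := by
  obtain ⟨K, hK, hK0, hKu, hK1, hK2⟩ := exists_Xu h
  obtain ⟨c, hc⟩ := h.KP K hK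
  have hT : ∀ a : Fin 3 → ℂ, IsKP θ (∑ k, a k • toP (T k)) := by
    intro a
    rw [Fin.sum_univ_three]
    exact (((h.KV 0).toP.smul _).add ((h.KV 1).toP.smul _)).add ((h.KV 2).toP.smul _)
  refine ⟨c, ?_, ?_, ?_, ?_⟩
  · rintro rfl
    apply hK0
    rw [hc]
    simp
  · rw [← hc]
    exact hKu
  · intro a ha
    obtain ⟨r, hr⟩ := hK1 _ (hT a) ha
    refine ⟨r, ?_⟩
    have h1 : ∑ k, (a - r • c) k • toP (T k) = 0 := by
      simp only [Pi.sub_apply, Pi.smul_apply, sub_smul, smul_eq_mul, mul_smul, Finset.sum_sub_distrib,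
        ← Finset.smul_sum]
      rw [← hc, hr, sub_self]
    exact sub_eq_zero.mp (h.KPi _ h1)
  · intro p a hpa
    rw [← hc] at hpa
    obtain ⟨y, hy⟩ := hK2 p
    rw [hpa] at hy
    have h1 := inter h (hT a) hy
    rw [h1] at hpa
    by_cases hp : p = 0
    · exact ⟨0, by rw [hp, zero_smul]⟩
    · exact kill h hK hK0 hp hpa

end Pool.Agent.Helper34.B1
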