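import Pool.Agent.Helper34.B1.Det5

/-!
B1-4.  Relations among the `a_v`, closure properties of `SV, SH, SP`, lifting steps.

* `rel_of` (Cramer).  Let `Dk i j := D5 (Function.update X k f) i j`.  By `D5_prop` (hypothesis: `f` and the `X k` are killed by
  `θ`) and coprimality (UFD; compare `wedge_eq_mul` in `Helper71/FC/Rest.lean`) `Dk i j = g k * θ i j`.  The 6-vector identity for
  `e_i, e_j, f, X_0, X_1, X_2` in `R^5` (`∑ ± v_r det(the others) = 0`) reads, because `det(e_j, f, X_0, X_1, X_2) = c ∑ i, f i * θ j i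
  = 0`:  `c θ i j f = ∑ k, Dk i j X_k` (up to order of rows, i.e. exactly with `update`).  Cancel `θ i j ≠ 0`, divide by the unit `c`.
* `full_H`: `α_j = ∑ i, f i * at0 (θ i j)`, `α_j = 0` for `j ≥ 1`; `pf (θ) = 0` gives `α_0 θ_jk + α_j θ_k0 + α_k θ_0j = 0` at `x_0 = 0`
  for `j, k ≥ 1`: `α_0 θ_jk = 0`.  `full_P` the same with `j, k ≥ 2` for `α_0` and `α_1`.
* `relV, relH, relP`: `rel_of` over `Pn 5, Pn 4, Pn 3` with `X k = Xf (T k)`, its restrictions (`D5_map`, `D5_eq`), coprimality of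
  `at0 (θ i j)` because already the `rs2 θ i j` are coprime (`folH.prim`, `folP.prim`).
* `nzdV`: `X 0 * ξ = ∑ f i θ_i`; restrict to `x_0 = 0`: `f|H` is a relation, `f|H = ∑ g k Xf(T k)|H`; `f - ∑ emb (g k) Xf (T k) = X 0 * f'`
  and `∑ (f - ∑ emb (g k) Xf (T k)) θ = X 0 ξ`, cancel `X 0`.  `nzdH` the same with `relP`.
* `stepV`: `res ξ = ∑ f i θ_i|H`, `f` homogeneous (take the component, `SH_hom`); `ζ = ∑ emb (f i) * θ i` is homogeneous and in the
  span, `res (ξ - ζ) = 0`: `EE_ker` (`Helper71/FC/Rest.lean`).  (`ζ ∈ EE θ (k+1)` by `w12_ct`.)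
-/

set_option autoImplicit false

namespace Pool.Agent.Helper34.B1

open MvPolynomial
open scoped BigOperators
open Pool.Agent.Helper71.FL (w12 pf ct Dec Closed dd at0 emb res)
open Pool.Agent.Helper93 (lsub lmap OF pb)
open Pool.Agent.Helper71.FC


private theorem rl_at0_C {n : ℕ} (c : ℂ) : at0 n ℂ (C c) = C c := (at0 n ℂ).commutes c

private theorem rl_at0_X0 {n : ℕ} : at0 n ℂ (X 0) = 0 := by
  unfold Pool.Agent.Helper71.FL.at0
  rw [aeval_X, Fin.cons_zero]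

private theorem rl_at0_Xs {n : ℕ} (l : Fin n) : at0 n ℂ (X l.succ) = X l := by
  unfold Pool.Agent.Helper71.FL.at0
  rw [aeval_X, Fin.cons_succ]

private theorem rl_at0_emb {n : ℕ} (f : Pn n) : at0 n ℂ (emb n ℂ f) = f := by
  have h : (at0 n ℂ).comp (emb n ℂ) = AlgHom.id ℂ (Pn n) := by
    apply MvPolynomial.algHom_ext
    intro i
    rw [AlgHom.comp_apply, AlgHom.id_apply]
    unfold emb
    rw [rename_X, rl_at0_Xs]
  exact congrArg (fun g : Pn n →ₐ[ℂ] Pn n => g f) h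

private theorem rl_at0_lf {n : ℕ} (a : Fin (n + 1) → ℂ) :
    at0 n ℂ (lf a) = lf (fun l => a l.succ) := by
  unfold lf
  rw [map_sum, Fin.sum_univ_succ, map_mul, rl_at0_X0, mul_zero, zero_add]
  refine Finset.sum_congr rfl fun l _ => ?_
  rw [map_mul, rl_at0_C, rl_at0_Xs]

private theorem rl_at0_hom {n : ℕ} {f : Pn (n + 1)} {d : ℕ} (h : f.IsHomogeneous d) :
    (at0 n ℂ f).IsHomogeneous d := by
  unfold Pool.Agent.Helper71.FL.at0
  have h1 := h.aeval (Fin.cons (0 : Pn n) (fun i => (X i : Pn n)) : Fin (n + 1) → Pn n) (n := 1)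
    (by
      intro i
      refine Fin.cases ?_ (fun j => ?_) i
      · rw [Fin.cons_zero]; exact isHomogeneous_zero _ _ _
      · rw [Fin.cons_succ]; exact isHomogeneous_X _ _)
  rwa [one_mul] at h1

private theorem rl_emb_hom {n : ℕ} {f : Pn n} {d : ℕ} (h : f.IsHomogeneous d) :
    (emb n ℂ f).IsHomogeneous d := h.rename_isHomogeneous

private theorem rl_lf_hom {n : ℕ} (a : Fin n → ℂ) : (lf a).IsHomogeneous 1 := by
  unfold lf
  refine IsHomogeneous.sum _ _ _ fun l _ => ?_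
  have := (isHomogeneous_C (Fin n) (a l)).mul (isHomogeneous_X ℂ l)
  rwa [zero_add] at this

private theorem rl_hc_mul {n : ℕ} {f g : Pn n} {d : ℕ} (hg : g.IsHomogeneous d) (m : ℕ) :
    homogeneousComponent (m + d) (f * g) = homogeneousComponent m f * g := by
  have h1 : ∀ i, homogeneousComponent (m + d) (homogeneousComponent i f * g) =
      if i = m then homogeneousComponent m f * g else 0 := by
    intro i
    rw [homogeneousComponent_of_mem (n := i + d) ((homogeneousComponent_isHomogeneous i f).mul hg)]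
    by_cases h : i = m
    · rw [if_pos h, if_pos (by omega), h]
    · rw [if_neg h, if_neg (by omega)]
  conv_lhs => rw [← sum_homogeneousComponent f, Finset.sum_mul, map_sum]
  rw [Finset.sum_congr rfl (fun i _ => h1 i), Finset.sum_ite_eq']
  split_ifs with h
  · rfl
  · rw [homogeneousComponent_eq_zero, zero_mul]
    rw [Finset.mem_range] at h
    omega

private theorem rl_hc_mul_lt {n : ℕ} {f g : Pn n} {d : ℕ} (hg : g.IsHomogeneous d) {m : ℕ}
    (hm : m < d) : homogeneousComponent m (f * g) = 0 := by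
  have h1 : ∀ i, homogeneousComponent m (homogeneousComponent i f * g) = 0 := by
    intro i
    rw [homogeneousComponent_of_mem (n := i + d) ((homogeneousComponent_isHomogeneous i f).mul hg),
      if_neg (by omega)]
  conv_lhs => rw [← sum_homogeneousComponent f, Finset.sum_mul, map_sum]
  exact Finset.sum_eq_zero fun i _ => h1 i

private theorem rl_prim_div {R : Type} [CommRing R] [IsDomain R] [UniqueFactorizationMonoid R]
    {θ : Fin 5 → Fin 5 → R} (hp : ∀ p, (∀ i j, p ∣ θ i j) → IsUnit p) {A : Fin 5 → Fin 5 → R}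
    (h : ∀ i j k l, A i j * θ k l = A k l * θ i j) : ∃ f : R, ∀ i j, A i j = f * θ i j := by
  classical
  obtain ⟨k, l, hkl⟩ : ∃ k l, θ k l ≠ 0 := by
    by_contra hcon
    push Not at hcon
    have := hp 0 (fun i j => by rw [hcon])
    exact not_isUnit_zero this
  obtain ⟨inst⟩ : Nonempty (NormalizedGCDMonoid R) := inferInstance
  have h1 : θ k l ∣ A k l := by
    have h2 : θ k l ∣ (Finset.univ : Finset (Fin 5 × Fin 5)).gcd (fun q => A k l * θ q.1 q.2) := by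
      apply Finset.dvd_gcd
      rintro ⟨i, j⟩ _
      show θ k l ∣ A k l * θ i j
      rw [← h i j k l]
      exact dvd_mul_left _ _
    have h4 := h2.trans (Finset.gcd_mul_left' (Finset.univ : Finset (Fin 5 × Fin 5))
      (fun q : Fin 5 × Fin 5 => θ q.1 q.2) (A k l)).dvd
    have h3 : IsUnit ((Finset.univ : Finset (Fin 5 × Fin 5)).gcd (fun q => θ q.1 q.2)) :=
      hp _ (fun i j => Finset.gcd_dvd (f := fun q : Fin 5 × Fin 5 => θ q.1 q.2)
        (Finset.mem_univ (i, j)))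
    exact (IsUnit.dvd_mul_right h3).1 h4
  obtain ⟨f, hf⟩ := h1
  refine ⟨f, fun i j => ?_⟩
  apply mul_right_cancel₀ hkl
  rw [h i j k l, hf]
  ring

private theorem rl_cram {R : Type} [CommRing R] (M : Matrix (Fin 5) (Fin 5) R) (z : Fin 5 → R)
    (y : Fin 5) : M.det * z y = ∑ k, (M.updateRow k z).det * M k y := by
  have h1 := congrFun (Matrix.mulVec_cramer M.transpose z) y
  rw [Matrix.det_transpose, Pi.smul_apply, smul_eq_mul] at h1
  rw [← h1, Matrix.mulVec, dotProduct]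
  refine Finset.sum_congr rfl fun k _ => ?_
  rw [Matrix.cramer_transpose_apply, Matrix.transpose_apply, mul_comm]

private theorem rl_single {R : Type} [CommRing R] (f : Fin 5 → Fin 5 → R) (a i : Fin 5) :
    ∑ b, (Pi.single a 1 : Fin 5 → R) b * f b i = f a i := by
  rw [Finset.sum_eq_single a]
  · rw [Pi.single_eq_same, one_mul]
  · intro b _ hb
    rw [Pi.single_eq_of_ne hb, zero_mul]
  · intro h
    exact absurd (Finset.mem_univ _) h

theorem rel_of {R : Type} [CommRing R] [IsDomain R] [UniqueFactorizationMonoid R]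
    {θ : Fin 5 → Fin 5 → R} (hd : Dec θ) (hp : ∀ p, (∀ i j, p ∣ θ i j) → IsUnit p)
    {X : Fin 3 → Fin 5 → R} {c : R} (hc : IsUnit c) (hD : ∀ i j, D5 X i j = c * θ i j)
    (hX : ∀ k j, ∑ i, X k i * θ i j = 0)
    {f : Fin 5 → R} (hf : ∀ j, ∑ i, f i * θ i j = 0) :
    ∃ g : Fin 3 → R, ∀ i, f i = ∑ k, g k * X k i := by
  obtain ⟨a, b, hab⟩ : ∃ i j, θ i j ≠ 0 := by
    by_contra hcon
    push Not at hcon
    have := hp 0 (fun i j => by rw [hcon])
    exact not_isUnit_zero this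
  have h1 : ∀ k : Fin 3, ∃ g : R, ∀ i j, D5 (Function.update X k f) i j = g * θ i j := by
    intro k
    refine rl_prim_div hp (A := fun i j => D5 (Function.update X k f) i j) ?_
    intro i j p q
    refine D5_prop hd ?_ i j p q
    intro l j
    by_cases hl : l = k
    · subst hl
      rw [Function.update_self]
      exact hf j
    · rw [Function.update_of_ne hl]
      exact hX l j
  choose g hg using h1
  obtain ⟨c', hc'⟩ := hc
  have hcc : (↑c'⁻¹ : R) * c = 1 := by rw [← hc']; exact Units.inv_mul c'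
  refine ⟨fun k => (↑c'⁻¹ : R) * g k, fun t => ?_⟩
  have e := rl_cram (Matrix.of ![Pi.single a 1, Pi.single b 1, X 0, X 1, X 2]) f t
  rw [Fin.sum_univ_five] at e
  have u0 : (Matrix.of ![Pi.single a 1, Pi.single b 1, X 0, X 1, X 2]).updateRow 0 f =
      Matrix.of ![f, Pi.single b 1, X 0, X 1, X 2] := by
    ext i j
    fin_cases i <;> rfl
  have u1 : (Matrix.of ![Pi.single a 1, Pi.single b 1, X 0, X 1, X 2]).updateRow 1 f =
      Matrix.of ![Pi.single a 1, f, X 0, X 1, X 2] := by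
    ext i j
    fin_cases i <;> rfl
  have u2 : (Matrix.of ![Pi.single a 1, Pi.single b 1, X 0, X 1, X 2]).updateRow 2 f =
      Matrix.of ![Pi.single a 1, Pi.single b 1, (Function.update X 0 f) 0,
        (Function.update X 0 f) 1, (Function.update X 0 f) 2] := by
    ext i j
    fin_cases i <;> rfl
  have u3 : (Matrix.of ![Pi.single a 1, Pi.single b 1, X 0, X 1, X 2]).updateRow 3 f =
      Matrix.of ![Pi.single a 1, Pi.single b 1, (Function.update X 1 f) 0,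
        (Function.update X 1 f) 1, (Function.update X 1 f) 2] := by
    ext i j
    fin_cases i <;> rfl
  have u4 : (Matrix.of ![Pi.single a 1, Pi.single b 1, X 0, X 1, X 2]).updateRow 4 f =
      Matrix.of ![Pi.single a 1, Pi.single b 1, (Function.update X 2 f) 0,
        (Function.update X 2 f) 1, (Function.update X 2 f) 2] := by
    ext i j
    fin_cases i <;> rfl
  have z0 : Matrix.det (Matrix.of ![f, Pi.single b 1, X 0, X 1, X 2]) = 0 := by
    rw [D5_sum]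
    have : ∀ i, ∑ j, f i * (Pi.single b 1 : Fin 5 → R) j * D5 X i j = c * (f i * θ i b) := by
      intro i
      have h2 := rl_single (fun j _ => f i * D5 X i j) b 0
      calc ∑ j, f i * (Pi.single b 1 : Fin 5 → R) j * D5 X i j
          = ∑ j, (Pi.single b 1 : Fin 5 → R) j * (f i * D5 X i j) :=
            Finset.sum_congr rfl fun j _ => by ring
        _ = f i * D5 X i b := h2
        _ = _ := by rw [hD i b]; ring
    rw [Finset.sum_congr rfl fun i _ => this i, ← Finset.mul_sum, hf b, mul_zero]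
  have z1 : Matrix.det (Matrix.of ![Pi.single a 1, f, X 0, X 1, X 2]) = 0 := by
    rw [D5_sum]
    have : ∀ i, ∑ j, (Pi.single a 1 : Fin 5 → R) i * f j * D5 X i j =
        (Pi.single a 1 : Fin 5 → R) i * ∑ j, f j * D5 X i j := by
      intro i
      rw [Finset.mul_sum]
      exact Finset.sum_congr rfl fun j _ => by ring
    rw [Finset.sum_congr rfl fun i _ => this i,
      rl_single (fun i _ => ∑ j, f j * D5 X i j) a 0]
    have h3 : ∀ j, f j * D5 X a j = (-c) * (f j * θ j a) := by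
      intro j
      rw [hD, hd.2.1 a j]
      ring
    rw [Finset.sum_congr rfl fun j _ => h3 j, ← Finset.mul_sum, hf a, mul_zero]
  rw [u0, u1, u2, u3, u4, z0, z1, zero_mul, zero_mul, zero_add, zero_add] at e
  have e2 : D5 X a b * f t = D5 (Function.update X 0 f) a b * X 0 t +
      D5 (Function.update X 1 f) a b * X 1 t + D5 (Function.update X 2 f) a b * X 2 t := e
  rw [hD, hg, hg, hg] at e2
  have e3 : c * f t = g 0 * X 0 t + g 1 * X 1 t + g 2 * X 2 t := by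
    apply mul_left_cancel₀ hab
    linear_combination e2
  rw [Fin.sum_univ_three]
  calc f t = (↑c'⁻¹ : R) * (c * f t) := by rw [← mul_assoc, hcc, one_mul]
    _ = _ := by rw [e3]; ring

/-- a combination of the rows of a decomposable form vanishing at two columns vanishes -/
private theorem rl_full {R S : Type} [CommRing R] [CommRing S] [IsDomain S] {θ : Fin 5 → Fin 5 → R}
    (hd : Dec θ) (ρ : R →+* S) {f : Fin 5 → S} {a b : Fin 5} (hab : ρ (θ a b) ≠ 0)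
    (ha : ∑ i, f i * ρ (θ i a) = 0) (hb : ∑ i, f i * ρ (θ i b) = 0) (j : Fin 5) :
    ∑ i, f i * ρ (θ i j) = 0 := by
  have h1 : (∑ i, f i * ρ (θ i j)) * ρ (θ a b) = (∑ i, f i * ρ (θ i a)) * ρ (θ j b) -
      (∑ i, f i * ρ (θ i b)) * ρ (θ j a) := by
    rw [Finset.sum_mul, Finset.sum_mul, Finset.sum_mul, ← Finset.sum_sub_distrib]
    refine Finset.sum_congr rfl fun i _ => ?_
    have h2 := congrArg ρ (hd.2.2 i j a b)
    unfold pf at h2
    rw [map_add, map_sub, map_mul, map_mul, map_mul, map_zero] at h2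
    linear_combination (f i) * h2
  rw [ha, hb, zero_mul, zero_mul, sub_zero] at h1
  exact (mul_eq_zero.1 h1).resolve_right hab

theorem full_H {θ : F2 5} (hd : Dec θ) (h0 : ∃ i j, rs2 θ i j ≠ 0) {f : Fin 5 → Pn 4}
    (hf : ∀ j : Fin 4, ∑ i, f i * at0 4 ℂ (θ i j.succ) = 0) (j : Fin 5) :
    ∑ i, f i * at0 4 ℂ (θ i j) = 0 := by
  obtain ⟨a, b, hab⟩ := h0
  exact rl_full hd (at0 4 ℂ : Pn 5 →+* Pn 4) (a := a.succ) (b := b.succ) hab (hf a) (hf b) j

theorem full_P {θ : F2 5} (hd : Dec θ) (h0 : ∃ i j, rs2 (rs2 θ) i j ≠ 0) {f : Fin 5 → Pn 3}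
    (hf : ∀ j : Fin 3, ∑ i, f i * at0 3 ℂ (at0 4 ℂ (θ i j.succ.succ)) = 0) (j : Fin 5) :
    ∑ i, f i * at0 3 ℂ (at0 4 ℂ (θ i j)) = 0 := by
  obtain ⟨a, b, hab⟩ := h0
  exact rl_full hd ((at0 3 ℂ : Pn 4 →+* Pn 3).comp (at0 4 ℂ : Pn 5 →+* Pn 4))
    (a := a.succ.succ) (b := b.succ.succ) hab (hf a) (hf b) j

/-- restriction of the components of a field to `P` -/
theorem at0_Xf (K : Fin 5 → Fin 5 → ℂ) (i : Fin 5) :
    at0 3 ℂ (at0 4 ℂ (Xf K i)) = Xf (toP K) i := by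
  unfold Xf toP
  rw [rl_at0_lf, rl_at0_lf]

section
variable {θ : F2 5} {σ : F1 3} {u : Fin 3 → ℂ} {T : Fin 3 → Fin 5 → Fin 5 → ℂ}

theorem Xf_indep (h : B1In θ σ u T) {g : Fin 3 → Pn 5} (hg : ∀ i, ∑ k, g k * Xf (T k) i = 0) :
    g = 0 := by
  by_contra h0
  obtain ⟨i, j, hij⟩ := D5_ne h
  exact hij (D5_dep h0 hg i j)

theorem relV (h : B1In θ σ u T) {f : Fin 5 → Pn 5} (hf : ∀ j, ∑ i, f i * θ i j = 0) :
    ∃ g : Fin 3 → Pn 5, ∀ i, f i = ∑ k, g k * Xf (T k) i := by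
  obtain ⟨c, hc, hD⟩ := D5_eq h
  exact rel_of h.cy.fol.dec h.cy.fol.prim (X := fun k => Xf (T k)) (hc.isUnit.map C) hD
    (fun k => (IsKV_iff θ (T k)).1 (h.KV k)) hf

theorem relV_hom (h : B1In θ σ u T) {f : Fin 5 → Pn 5} (hf : ∀ j, ∑ i, f i * θ i j = 0) {d : ℕ}
    (hh : ∀ i, (f i).IsHomogeneous (d + 1)) :
    ∃ g : Fin 3 → Pn 5, (∀ k, (g k).IsHomogeneous d) ∧ ∀ i, f i = ∑ k, g k * Xf (T k) i := by
  obtain ⟨g, hg⟩ := relV h hf
  refine ⟨fun k => homogeneousComponent d (g k), fun k => homogeneousComponent_isHomogeneous _ _,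
    fun i => ?_⟩
  have h1 := congrArg (homogeneousComponent (d + 1)) (hg i)
  rw [homogeneousComponent_eq_self (hh i), map_sum] at h1
  rw [h1]
  exact Finset.sum_congr rfl fun k _ => rl_hc_mul (rl_lf_hom _) d

private theorem rl_ne {n : ℕ} {θ : F2 n} (hp : ∀ p, (∀ i j, p ∣ θ i j) → IsUnit p) :
    ∃ i j, θ i j ≠ 0 := by
  by_contra hcon
  push Not at hcon
  have := hp 0 (fun i j => by rw [hcon])
  exact not_isUnit_zero this

theorem relH (h : B1In θ σ u T) {f : Fin 5 → Pn 4}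
    (hf : ∀ j : Fin 4, ∑ i, f i * at0 4 ℂ (θ i j.succ) = 0) :
    ∃ g : Fin 3 → Pn 4, ∀ i, f i = ∑ k, g k * at0 4 ℂ (Xf (T k) i) := by
  obtain ⟨c, hc, hD⟩ := D5_eq h
  have hne : ∃ i j, rs2 θ i j ≠ 0 := rl_ne h.folH.prim
  have hd : Dec (fun i j => at0 4 ℂ (θ i j)) :=
    h.cy.fol.dec.map (at0 4 ℂ : Pn 5 →+* Pn 4)
  refine rel_of hd ?_ (X := fun k i => at0 4 ℂ (Xf (T k) i)) (c := C c) (hc.isUnit.map C) ?_ ?_ ?_
  · intro p hp
    exact h.folH.prim p (fun i j => hp i.succ j.succ)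
  · intro i j
    have h1 := D5_map (at0 4 ℂ : Pn 5 →+* Pn 4) (fun k => Xf (T k)) i j
    rw [hD] at h1
    refine h1.trans ?_
    show at0 4 ℂ (C c * θ i j) = C c * at0 4 ℂ (θ i j)
    rw [map_mul, rl_at0_C]
  · intro k j
    have h1 := congrArg (at0 4 ℂ) ((IsKV_iff θ (T k)).1 (h.KV k) j)
    rw [map_zero, map_sum] at h1
    rw [← h1]
    exact Finset.sum_congr rfl fun i _ => (map_mul _ _ _).symm
  · exact full_H h.cy.fol.dec hne hf

theorem relP (h : B1In θ σ u T) {f : Fin 5 → Pn 3}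
    (hf : ∀ j : Fin 3, ∑ i, f i * at0 3 ℂ (at0 4 ℂ (θ i j.succ.succ)) = 0) :
    ∃ g : Fin 3 → Pn 3, ∀ i, f i = ∑ k, g k * Xf (toP (T k)) i := by
  obtain ⟨c, hc, hD⟩ := D5_eq h
  have hne : ∃ i j, rs2 (rs2 θ) i j ≠ 0 := rl_ne h.folP.prim
  let ρ : Pn 5 →+* Pn 3 := (at0 3 ℂ : Pn 4 →+* Pn 3).comp (at0 4 ℂ : Pn 5 →+* Pn 4)
  have hρX : ∀ k i, ρ (Xf (T k) i) = Xf (toP (T k)) i := fun k i => at0_Xf (T k) i
  have hd : Dec (fun i j => ρ (θ i j)) := h.cy.fol.dec.map ρ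
  refine rel_of hd ?_ (X := fun k i => Xf (toP (T k)) i) (c := C c) (hc.isUnit.map C) ?_ ?_ ?_
  · intro p hp
    exact h.folP.prim p (fun i j => hp i.succ.succ j.succ.succ)
  · intro i j
    have h1 := D5_map ρ (fun k => Xf (T k)) i j
    rw [hD] at h1
    have h2 : (fun k l => ρ (Xf (T k) l)) = (fun k i => Xf (toP (T k)) i) := by
      funext k l; exact hρX k l
    rw [h2] at h1
    refine h1.trans ?_
    show at0 3 ℂ (at0 4 ℂ (C c * θ i j)) = C c * at0 3 ℂ (at0 4 ℂ (θ i j))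
    rw [map_mul, rl_at0_C, map_mul, rl_at0_C]
  · intro k j
    have h1 := congrArg ρ ((IsKV_iff θ (T k)).1 (h.KV k) j)
    rw [map_zero, map_sum] at h1
    rw [← h1]
    refine Finset.sum_congr rfl fun i _ => ?_
    rw [map_mul, hρX]
  · exact full_P h.cy.fol.dec hne hf

end

/-! ### closure properties -/

section
variable {θ : F2 5}

theorem SV.add {ξ η : F1 5} (h : SV θ ξ) (h' : SV θ η) : SV θ (fun j => ξ j + η j) := by
  obtain ⟨f, hf⟩ := h
  obtain ⟨g, hg⟩ := h'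
  refine ⟨fun i => f i + g i, fun j => ?_⟩
  beta_reduce
  rw [hf j, hg j, ← Finset.sum_add_distrib]
  exact Finset.sum_congr rfl fun i _ => (add_mul _ _ _).symm

theorem SV.mul {ξ : F1 5} (h : SV θ ξ) (f : Pn 5) : SV θ (fun j => f * ξ j) := by
  obtain ⟨g, hg⟩ := h
  refine ⟨fun i => f * g i, fun j => ?_⟩
  beta_reduce
  rw [hg j, Finset.mul_sum]
  exact Finset.sum_congr rfl fun i _ => (mul_assoc _ _ _).symm

theorem SV_av (v : Fin 5 → ℂ) : SV θ (av θ v) := by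
  exact ⟨fun i => C (v i), fun j => rfl⟩

theorem SV.zero : SV θ 0 := by
  refine ⟨fun _ => 0, fun j => ?_⟩
  rw [Pi.zero_apply]
  exact (Finset.sum_eq_zero fun i _ => zero_mul _).symm

theorem SH.add {ξ η : F1 4} (h : SH θ ξ) (h' : SH θ η) : SH θ (fun j => ξ j + η j) := by
  obtain ⟨f, hf⟩ := h
  obtain ⟨g, hg⟩ := h'
  refine ⟨fun i => f i + g i, fun j => ?_⟩
  beta_reduce
  rw [hf j, hg j, ← Finset.sum_add_distrib]
  exact Finset.sum_congr rfl fun i _ => (add_mul _ _ _).symm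

theorem SH.mul {ξ : F1 4} (h : SH θ ξ) (f : Pn 4) : SH θ (fun j => f * ξ j) := by
  obtain ⟨g, hg⟩ := h
  refine ⟨fun i => f * g i, fun j => ?_⟩
  beta_reduce
  rw [hg j, Finset.mul_sum]
  exact Finset.sum_congr rfl fun i _ => (mul_assoc _ _ _).symm

theorem SH_aH (v : Fin 5 → ℂ) : SH θ (aH θ v) := by
  refine ⟨fun i => C (v i), fun j => ?_⟩
  show at0 4 ℂ (∑ i, C (v i) * θ i j.succ) = _
  rw [map_sum]
  exact Finset.sum_congr rfl fun i _ => by rw [map_mul, rl_at0_C]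

theorem SH.zero : SH θ 0 := by
  refine ⟨fun _ => 0, fun j => ?_⟩
  rw [Pi.zero_apply]
  exact (Finset.sum_eq_zero fun i _ => zero_mul _).symm

theorem SP.add {ξ η : F1 3} (h : SP θ ξ) (h' : SP θ η) : SP θ (fun j => ξ j + η j) := by
  obtain ⟨f, hf⟩ := h
  obtain ⟨g, hg⟩ := h'
  refine ⟨fun i => f i + g i, fun j => ?_⟩
  beta_reduce
  rw [hf j, hg j, ← Finset.sum_add_distrib]
  exact Finset.sum_congr rfl fun i _ => (add_mul _ _ _).symm

theorem SP.mul {ξ : F1 3} (h : SP θ ξ) (f : Pn 3) : SP θ (fun j => f * ξ j) := by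
  obtain ⟨g, hg⟩ := h
  refine ⟨fun i => f * g i, fun j => ?_⟩
  beta_reduce
  rw [hg j, Finset.mul_sum]
  exact Finset.sum_congr rfl fun i _ => (mul_assoc _ _ _).symm

theorem SP_aP (v : Fin 5 → ℂ) : SP θ (aP θ v) := by
  refine ⟨fun i => C (v i), fun j => ?_⟩
  show at0 3 ℂ (at0 4 ℂ (∑ i, C (v i) * θ i j.succ.succ)) = _
  rw [map_sum, map_sum]
  exact Finset.sum_congr rfl fun i _ => by rw [map_mul, rl_at0_C, map_mul, rl_at0_C]

theorem SP.zero : SP θ 0 := by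
  refine ⟨fun _ => 0, fun j => ?_⟩
  rw [Pi.zero_apply]
  exact (Finset.sum_eq_zero fun i _ => zero_mul _).symm

theorem SV_res {ξ : F1 5} (h : SV θ ξ) : SH θ (res ξ) := by
  obtain ⟨f, hf⟩ := h
  refine ⟨fun i => at0 4 ℂ (f i), fun j => ?_⟩
  show at0 4 ℂ (ξ j.succ) = _
  rw [hf, map_sum]
  exact Finset.sum_congr rfl fun i _ => map_mul _ _ _

theorem SH_res {ξ : F1 4} (h : SH θ ξ) : SP θ (res ξ) := by
  obtain ⟨f, hf⟩ := h
  refine ⟨fun i => at0 3 ℂ (f i), fun j => ?_⟩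
  show at0 3 ℂ (ξ j.succ) = _
  rw [hf, map_sum]
  exact Finset.sum_congr rfl fun i _ => map_mul _ _ _

private theorem rl_comp {n m : ℕ} {f : Fin 5 → Pn n} {ξ : Fin m → Pn n} {t : Fin 5 → Fin m → Pn n}
    (hf : ∀ j, ξ j = ∑ i, f i * t i j) (ht : ∀ i j, (t i j).IsHomogeneous 3) {k : ℕ}
    (hh : ∀ j, (ξ j).IsHomogeneous (k + 3)) :
    ∃ f : Fin 5 → Pn n, (∀ i, (f i).IsHomogeneous k) ∧ ∀ j, ξ j = ∑ i, f i * t i j := by
  refine ⟨fun i => homogeneousComponent k (f i), fun i => homogeneousComponent_isHomogeneous _ _,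
    fun j => ?_⟩
  have h1 := congrArg (homogeneousComponent (k + 3)) (hf j)
  rw [homogeneousComponent_eq_self (hh j), map_sum] at h1
  rw [h1]
  exact Finset.sum_congr rfl fun i _ => rl_hc_mul (ht i j) k

private theorem rl_comp_low {n m : ℕ} {f : Fin 5 → Pn n} {ξ : Fin m → Pn n}
    {t : Fin 5 → Fin m → Pn n} (hf : ∀ j, ξ j = ∑ i, f i * t i j)
    (ht : ∀ i j, (t i j).IsHomogeneous 3) {k : ℕ} (hk : k < 3)
    (hh : ∀ j, (ξ j).IsHomogeneous k) : ξ = 0 := by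
  funext j
  have h1 := congrArg (homogeneousComponent k) (hf j)
  rw [homogeneousComponent_eq_self (hh j), map_sum] at h1
  rw [h1, Pi.zero_apply]
  exact Finset.sum_eq_zero fun i _ => rl_hc_mul_lt (ht i j) hk

theorem SV_hom {θ : F2 5} (hθ : Fol θ) {ξ : F1 5} (h : SV θ ξ) {k : ℕ}
    (hh : ∀ j, (ξ j).IsHomogeneous (k + 3)) :
    ∃ f : Fin 5 → Pn 5, (∀ i, (f i).IsHomogeneous k) ∧ ∀ j, ξ j = ∑ i, f i * θ i j := by
  obtain ⟨f, hf⟩ := h
  exact rl_comp hf (fun i j => hθ.hom i j) hh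

theorem SH_hom {θ : F2 5} (hθ : Fol θ) {ξ : F1 4} (h : SH θ ξ) {k : ℕ}
    (hh : ∀ j, (ξ j).IsHomogeneous (k + 3)) :
    ∃ f : Fin 5 → Pn 4, (∀ i, (f i).IsHomogeneous k) ∧
      ∀ j, ξ j = ∑ i, f i * at0 4 ℂ (θ i j.succ) := by
  obtain ⟨f, hf⟩ := h
  exact rl_comp hf (fun i j => rl_at0_hom (hθ.hom i j.succ)) hh

theorem SP_hom {θ : F2 5} (hθ : Fol θ) {ξ : F1 3} (h : SP θ ξ) {k : ℕ}
    (hh : ∀ j, (ξ j).IsHomogeneous (k + 3)) :
    ∃ f : Fin 5 → Pn 3, (∀ i, (f i).IsHomogeneous k) ∧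
      ∀ j, ξ j = ∑ i, f i * at0 3 ℂ (at0 4 ℂ (θ i j.succ.succ)) := by
  obtain ⟨f, hf⟩ := h
  exact rl_comp hf (fun i j => rl_at0_hom (rl_at0_hom (hθ.hom i j.succ.succ))) hh

theorem SH_low {θ : F2 5} (hθ : Fol θ) {ξ : F1 4} (h : SH θ ξ) {k : ℕ} (hk : k < 3)
    (hh : ∀ j, (ξ j).IsHomogeneous k) : ξ = 0 := by
  obtain ⟨f, hf⟩ := h
  exact rl_comp_low hf (fun i j => rl_at0_hom (hθ.hom i j.succ)) hk hh

theorem SP_low {θ : F2 5} (hθ : Fol θ) {ξ : F1 3} (h : SP θ ξ) {k : ℕ} (hk : k < 3)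
    (hh : ∀ j, (ξ j).IsHomogeneous k) : ξ = 0 := by
  obtain ⟨f, hf⟩ := h
  exact rl_comp_low hf (fun i j => rl_at0_hom (rl_at0_hom (hθ.hom i j.succ.succ))) hk hh

end

section
variable {θ : F2 5} {σ : F1 3} {u : Fin 3 → ℂ} {T : Fin 3 → Fin 5 → Fin 5 → ℂ}

theorem nzdV (h : B1In θ σ u T) {ξ : F1 5} (hξ : SV θ (fun j => X 0 * ξ j)) : SV θ ξ := by
  obtain ⟨f, hf⟩ := hξ
  beta_reduce at hf
  have h1 : ∀ j : Fin 4, ∑ i, at0 4 ℂ (f i) * at0 4 ℂ (θ i j.succ) = 0 := by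
    intro j
    have h2 := congrArg (at0 4 ℂ) (hf j.succ)
    rw [map_mul, rl_at0_X0, zero_mul, map_sum] at h2
    rw [h2]
    exact Finset.sum_congr rfl fun i _ => (map_mul _ _ _).symm
  obtain ⟨g, hg⟩ := relH h h1
  have h3 : ∀ i, ∃ f', f i - ∑ k, emb 4 ℂ (g k) * Xf (T k) i = X 0 * f' := by
    intro i
    rw [← at0_eq_zero_iff, map_sub, map_sum, hg i, sub_eq_zero]
    exact Finset.sum_congr rfl fun k _ => by rw [map_mul, rl_at0_emb]
  choose f' hf' using h3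
  refine ⟨f', fun j => ?_⟩
  apply mul_left_cancel₀ (X_ne_zero (R := ℂ) (0 : Fin 5))
  rw [hf j, Finset.mul_sum]
  have h4 : ∑ i, (∑ k, emb 4 ℂ (g k) * Xf (T k) i) * θ i j = 0 := by
    have h5 : ∀ i, (∑ k, emb 4 ℂ (g k) * Xf (T k) i) * θ i j =
        ∑ k, emb 4 ℂ (g k) * (Xf (T k) i * θ i j) := by
      intro i
      rw [Finset.sum_mul]
      exact Finset.sum_congr rfl fun k _ => mul_assoc _ _ _
    rw [Finset.sum_congr rfl fun i _ => h5 i, Finset.sum_comm]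
    refine Finset.sum_eq_zero fun k _ => ?_
    rw [← Finset.mul_sum, (IsKV_iff θ (T k)).1 (h.KV k) j, mul_zero]
  have h6 : ∀ i, X 0 * (f' i * θ i j) = f i * θ i j -
      (∑ k, emb 4 ℂ (g k) * Xf (T k) i) * θ i j := by
    intro i
    rw [← mul_assoc, ← hf' i, sub_mul]
  rw [Finset.sum_congr rfl fun i _ => h6 i, Finset.sum_sub_distrib, h4, sub_zero]

theorem nzdH (h : B1In θ σ u T) {ξ : F1 4} (hξ : SH θ (fun j => X 0 * ξ j)) : SH θ ξ := by
  obtain ⟨f, hf⟩ := hξ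
  beta_reduce at hf
  have h1 : ∀ j : Fin 3, ∑ i, at0 3 ℂ (f i) * at0 3 ℂ (at0 4 ℂ (θ i j.succ.succ)) = 0 := by
    intro j
    have h2 := congrArg (at0 3 ℂ) (hf j.succ)
    rw [map_mul, rl_at0_X0, zero_mul, map_sum] at h2
    rw [h2]
    exact Finset.sum_congr rfl fun i _ => (map_mul _ _ _).symm
  obtain ⟨g, hg⟩ := relP h h1
  have h3 : ∀ i, ∃ f', f i - ∑ k, emb 3 ℂ (g k) * at0 4 ℂ (Xf (T k) i) = X 0 * f' := by
    intro i
    rw [← at0_eq_zero_iff, map_sub, map_sum, hg i, sub_eq_zero]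
    exact Finset.sum_congr rfl fun k _ => by rw [map_mul, rl_at0_emb, at0_Xf]
  choose f' hf' using h3
  refine ⟨f', fun j => ?_⟩
  apply mul_left_cancel₀ (X_ne_zero (R := ℂ) (0 : Fin 4))
  rw [hf j, Finset.mul_sum]
  have h4 : ∑ i, (∑ k, emb 3 ℂ (g k) * at0 4 ℂ (Xf (T k) i)) * at0 4 ℂ (θ i j.succ) = 0 := by
    have h5 : ∀ i, (∑ k, emb 3 ℂ (g k) * at0 4 ℂ (Xf (T k) i)) * at0 4 ℂ (θ i j.succ) =
        ∑ k, emb 3 ℂ (g k) * (at0 4 ℂ (Xf (T k) i) * at0 4 ℂ (θ i j.succ)) := by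
      intro i
      rw [Finset.sum_mul]
      exact Finset.sum_congr rfl fun k _ => mul_assoc _ _ _
    rw [Finset.sum_congr rfl fun i _ => h5 i, Finset.sum_comm]
    refine Finset.sum_eq_zero fun k _ => ?_
    have h7 := congrArg (at0 4 ℂ) ((IsKV_iff θ (T k)).1 (h.KV k) j.succ)
    rw [map_zero, map_sum] at h7
    have h8 : ∑ i, at0 4 ℂ (Xf (T k) i) * at0 4 ℂ (θ i j.succ) = 0 := by
      rw [← h7]
      exact Finset.sum_congr rfl fun i _ => (map_mul _ _ _).symm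
    rw [← Finset.mul_sum, h8, mul_zero]
  have h6 : ∀ i, X 0 * (f' i * at0 4 ℂ (θ i j.succ)) = f i * at0 4 ℂ (θ i j.succ) -
      (∑ k, emb 3 ℂ (g k) * at0 4 ℂ (Xf (T k) i)) * at0 4 ℂ (θ i j.succ) := by
    intro i
    rw [← mul_assoc, ← hf' i, sub_mul]
  rw [Finset.sum_congr rfl fun i _ => h6 i, Finset.sum_sub_distrib, h4, sub_zero]

theorem stepV (h : B1In θ σ u T) {k : ℕ} {ξ : F1 5} (hξ : ξ ∈ EE θ (k + 1)) (hr : SH θ (res ξ)) :
    ∃ ζ η : F1 5, SV θ ζ ∧ η ∈ EE θ k ∧ ∀ j, ξ j = ζ j + X 0 * η j := by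
  have hne : ∃ i j, rs2 θ i j ≠ 0 := rl_ne h.folH.prim
  have hres := res_mem_EE hξ
  by_cases hk : k + 1 < 3
  · have h0 := SH_low h.cy.fol hr hk hres.1
    obtain ⟨η, hη, he⟩ := EE_ker hne hξ (fun i => by rw [h0]; rfl)
    refine ⟨0, η, SV.zero, hη, fun j => ?_⟩
    rw [he j, Pi.zero_apply, zero_add]
  · obtain ⟨e, he⟩ : ∃ e, k + 1 = e + 3 := ⟨k - 2, by omega⟩
    obtain ⟨f, hf1, hf2⟩ := SH_hom h.cy.fol hr (k := e) (fun j => by rw [← he]; exact hres.1 j)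
    set ζ : F1 5 := fun j => ∑ i, emb 4 ℂ (f i) * θ i j with hζ
    have hζE : ζ ∈ EE θ (k + 1) := by
      refine ⟨fun j => ?_, fun i j l => ?_⟩
      · rw [he]
        apply IsHomogeneous.sum
        intro i _
        exact (rl_emb_hom (hf1 i)).mul (h.cy.fol.hom i j)
      · exact Pool.Agent.Helper71.FL.w12_ct h.cy.fol.dec (fun i => emb 4 ℂ (f i)) i j l
    have hsub : ξ - ζ ∈ EE θ (k + 1) := Submodule.sub_mem _ hξ hζE
    obtain ⟨η, hη, hη2⟩ := EE_ker hne hsub (fun j => by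
      show at0 4 ℂ (ξ j.succ - ζ j.succ) = 0
      have h1 : at0 4 ℂ (ξ j.succ) = _ := hf2 j
      rw [map_sub, h1, hζ, map_sum, sub_eq_zero]
      exact Finset.sum_congr rfl fun i _ => by rw [map_mul, rl_at0_emb])
    refine ⟨ζ, η, ⟨fun i => emb 4 ℂ (f i), fun j => rfl⟩, hη, fun j => ?_⟩
    rw [← hη2 j, Pi.sub_apply]
    ring

theorem stepH (h : B1In θ σ u T) {k : ℕ} {ξ : F1 4} (hξ : ξ ∈ EE (rs2 θ) (k + 1)) (hr : SP θ (res ξ)) :
    ∃ ζ η : F1 4, SH θ ζ ∧ η ∈ EE (rs2 θ) k ∧ ∀ j, ξ j = ζ j + X 0 * η j := by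
  have hne : ∃ i j, rs2 (rs2 θ) i j ≠ 0 := rl_ne h.folP.prim
  have hres := res_mem_EE hξ
  by_cases hk : k + 1 < 3
  · have h0 := SP_low h.cy.fol hr hk hres.1
    obtain ⟨η, hη, he⟩ := EE_ker hne hξ (fun i => by rw [h0]; rfl)
    refine ⟨0, η, SH.zero, hη, fun j => ?_⟩
    rw [he j, Pi.zero_apply, zero_add]
  · obtain ⟨e, he⟩ : ∃ e, k + 1 = e + 3 := ⟨k - 2, by omega⟩
    obtain ⟨f, hf1, hf2⟩ := SP_hom h.cy.fol hr (k := e) (fun j => by rw [← he]; exact hres.1 j)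
    set ζ : F1 4 := fun j => ∑ i, emb 3 ℂ (f i) * at0 4 ℂ (θ i j.succ) with hζ
    have hζE : ζ ∈ EE (rs2 θ) (k + 1) := by
      refine ⟨fun j => ?_, fun i j l => ?_⟩
      · rw [he]
        apply IsHomogeneous.sum
        intro i _
        exact (rl_emb_hom (hf1 i)).mul (rl_at0_hom (h.cy.fol.hom i j.succ))
      · have h1 : w12 ζ (rs2 θ) i j l =
            ∑ a, emb 3 ℂ (f a) * at0 4 ℂ (pf θ a i.succ j.succ l.succ) := by
          unfold w12 rs2 pf
          rw [hζ]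
          beta_reduce
          rw [Finset.sum_mul, Finset.sum_mul, Finset.sum_mul, ← Finset.sum_add_distrib,
            ← Finset.sum_add_distrib]
          refine Finset.sum_congr rfl fun a _ => ?_
          rw [h.cy.fol.dec.2.1 l.succ i.succ]
          simp only [map_add, map_sub, map_mul, map_neg]
          ring
        rw [h1]
        refine Finset.sum_eq_zero fun a _ => ?_
        rw [h.cy.fol.dec.2.2, map_zero, mul_zero]
    have hsub : ξ - ζ ∈ EE (rs2 θ) (k + 1) := Submodule.sub_mem _ hξ hζE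
    obtain ⟨η, hη, hη2⟩ := EE_ker hne hsub (fun j => by
      show at0 3 ℂ (ξ j.succ - ζ j.succ) = 0
      have h1 : at0 3 ℂ (ξ j.succ) = _ := hf2 j
      rw [map_sub, h1, hζ, map_sum, sub_eq_zero]
      exact Finset.sum_congr rfl fun i _ => by rw [map_mul, rl_at0_emb])
    refine ⟨ζ, η, ⟨fun i => emb 3 ℂ (f i), fun j => rfl⟩, hη, fun j => ?_⟩
    rw [← hη2 j, Pi.sub_apply]
    ring

end

end Pool.Agent.Helper34.B1
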