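import Pool.Agent.Helper34.B1.Vlev
import Pool.Agent.Helper18.LB.Alg

/-!
B1-8.  The linear space `S = {l1 = l2 = 0} ⊂ V`, dimension 3, parametrised by `φ : Fin 5 → Fin 3 → ℂ`.

* `exists_Sec`: `exists_coord`/`exists_basis` (GL2.lean): a change of coordinates `g` with `lf l1, lf l2` becoming two of the variables; `φ` = the
  columns of `g` for the other three variables; `lsub φ f = 0` iff `f` is in the ideal of the two variables, after the change of coordinates.
* `cvec`: `SV_hom` for `l1 τ`, `l2 τ` (degree `k + 3`): `lf l1 τ = ∑ f i θ_i`, `lf l2 τ = ∑ f' i θ_i`, degrees `k`.  `lf l2 f - lf l1 f'` is a relation of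
  degree `k + 1`: `relV_hom` gives `ĉ j` of degree `k` with `lf l2 f i - lf l1 f' i = ∑ ĉ j Xf (T j) i`.  `c j := lsub φ (ĉ j)`.
  - `∑ c j lsub φ (Xf (T j) i) = 0` since `lsub φ (lf l1) = lsub φ (lf l2) = 0`.
  - coprime: let `p` be a common factor, not a unit.  If all `c j = 0`: `ĉ j = l1 α_j + l2 β_j` (`Sec.ker`), so
    `l2 (f - ∑ β_j X_j) = l1 (f' + ∑ α_j X_j)`, `two_syz` (`lf l1, lf l2` independent): `f i - ∑ β_j X_j i = l1 h i`, so
    `l1 τ = l1 ∑ h i θ_i` (the `X_j` are killed by `θ`), `τ = ∑ h i θ_i`, `SV τ`: contradiction.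
    If some `c j ≠ 0`, `p ≠ 0` and we may take `p` irreducible; it is homogeneous (a divisor of a nonzero homogeneous polynomial; Mathlib:
    `IsHomogeneous.of_mul_left`-type lemma or `Helper93/CopL`), of degree `r ≥ 1`, `r ≤ k`, `c j = p d j`, `d j` homogeneous of degree `k - r`.
    Lift `d j` to `D j` (`Sec.sec`), then `lsub φ (∑ D j Xf (T j) i) = 0` (cancel `p`), `Sec.kerh`: `∑ D j X_j i = l2 F i - l1 F' i`, `F, F'` homogeneous of
    degree `k - r`; contraction with `θ`: `l1 (∑ F' i θ_i) = l2 (∑ F i θ_i)`, `two_syz_hom`: `∑ F i θ_i = l1 τ'`, `∑ F' i θ_i = l2 τ'`, `τ' ∈ EE θ (k - r + 2)`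
    (`l1 (τ' ∧ θ) = 0`), `SV τ'` by `VLev.low`: `τ' = ∑ h i θ_i`; `F - l1 h` and `F' - l2 h` are relations: `relV`: `F = l1 h + ∑ m_j X_j`,
    `F' = l2 h + ∑ m'_j X_j`; `∑ D j X_j = ∑ (l2 m_j - l1 m'_j) X_j`, `Xf_indep`: `D j = l2 m_j - l1 m'_j`, `d j = lsub φ (D j) = 0`, all `c j = 0`.
* `theta_S`: `D5_map`, `D5_eq`, `D5_dep` with `g = c ≠ 0` over `Pn 3`.
-/

set_option autoImplicit false

namespace Pool.Agent.Helper34.B1

open MvPolynomial
open scoped BigOperators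
open Pool.Agent.Helper71.FL (w12 pf ct Dec Closed dd at0 emb res)
open Pool.Agent.Helper93 (lsub lmap OF pb)
open Pool.Agent.Helper71.FC

/-- coordinates on `{l1 = l2 = 0}` -/
structure Sec (l1 l2 : Fin 5 → ℂ) (φ : Fin 5 → Fin 3 → ℂ) : Prop where
  inj : Function.Injective (lmap φ)
  s1 : lsub φ (lf l1) = 0
  s2 : lsub φ (lf l2) = 0
  surj : ∀ v : Fin 5 → ℂ, ∑ l, l1 l * v l = 0 → ∑ l, l2 l * v l = 0 → ∃ x, lmap φ x = v
  ker : ∀ f : Pn 5, lsub φ f = 0 → ∃ a b, f = lf l1 * a + lf l2 * b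
  kerh : ∀ (f : Pn 5) (d : ℕ), f.IsHomogeneous (d + 1) → lsub φ f = 0 →
    ∃ a b, a.IsHomogeneous d ∧ b.IsHomogeneous d ∧ f = lf l1 * a + lf l2 * b
  sec : ∀ (g : Pn 3) (d : ℕ), g.IsHomogeneous d → ∃ f : Pn 5, f.IsHomogeneous d ∧ lsub φ f = g

private theorem ss_at0_C {n : ℕ} (c : ℂ) : at0 n ℂ (C c) = C c := algHom_C (at0 n ℂ) c

private theorem ss_at0_X0 {n : ℕ} : at0 n ℂ (X 0) = 0 := by
  unfold at0
  rw [aeval_X, Fin.cons_zero]

private theorem ss_at0_Xs {n : ℕ} (j : Fin n) : at0 n ℂ (X j.succ) = X j := by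
  unfold at0
  rw [aeval_X, Fin.cons_succ]

private theorem ss_emb_X {n : ℕ} (j : Fin n) : emb n ℂ (X j) = X j.succ := by
  unfold emb
  rw [rename_X]

private theorem ss_at0_emb {n : ℕ} (f : Pn n) : at0 n ℂ (emb n ℂ f) = f := by
  have h : (at0 n ℂ).comp (emb n ℂ) = AlgHom.id ℂ (Pn n) := by
    apply MvPolynomial.algHom_ext
    intro j
    rw [AlgHom.comp_apply, ss_emb_X, ss_at0_Xs]
    rfl
  exact DFunLike.congr_fun h f

private theorem ss_split0 {n : ℕ} (f : Pn (n + 1)) :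
    ∃ g, f = emb n ℂ (at0 n ℂ f) + X 0 * g := by
  induction f using MvPolynomial.induction_on with
  | C c =>
    refine ⟨0, ?_⟩
    rw [ss_at0_C, mul_zero, add_zero]
    exact (algHom_C (emb n ℂ) c).symm
  | add p q hp hq =>
    obtain ⟨g, hg⟩ := hp
    obtain ⟨g', hg'⟩ := hq
    refine ⟨g + g', ?_⟩
    rw [map_add, map_add]
    linear_combination hg + hg'
  | mul_X p i hp =>
    obtain ⟨g, hg⟩ := hp
    refine Fin.cases ?_ (fun j => ?_) i
    · refine ⟨p, ?_⟩
      rw [map_mul, ss_at0_X0, mul_zero, map_zero, zero_add, mul_comm]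
    · refine ⟨g * X j.succ, ?_⟩
      rw [map_mul, ss_at0_Xs, map_mul, ss_emb_X]
      linear_combination (X j.succ) * hg

/-- restriction to `x_0 = x_1 = 0` -/
private theorem ss_ker {f : Pn 5} (h : at0 3 ℂ (at0 4 ℂ f) = 0) :
    ∃ a b, f = X 0 * a + X 1 * b := by
  obtain ⟨a, ha⟩ := ss_split0 f
  obtain ⟨b, hb⟩ := ss_split0 (at0 4 ℂ f)
  rw [h, map_zero, zero_add] at hb
  refine ⟨a, emb 4 ℂ b, ?_⟩
  rw [hb, map_mul, ss_emb_X] at ha
  rw [Fin.succ_zero_eq_one] at ha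
  linear_combination ha

private theorem ss_rho (g : Fin 5 → Fin 5 → ℂ) (f : Pn 5) :
    lsub (fun i (j : Fin 3) => g i j.succ.succ) f = at0 3 ℂ (at0 4 ℂ (lsub g f)) := by
  have h : (lsub (fun i (j : Fin 3) => g i j.succ.succ)) =
      ((at0 3 ℂ).comp (at0 4 ℂ)).comp (lsub g) := by
    apply MvPolynomial.algHom_ext
    intro k
    rw [AlgHom.comp_apply, AlgHom.comp_apply]
    unfold lsub
    rw [aeval_X, aeval_X, Fin.sum_univ_succ (n := 4), Fin.sum_univ_succ (n := 3)]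
    simp only [map_add, map_mul, map_sum, ss_at0_C, ss_at0_X0, ss_at0_Xs, mul_zero, zero_add]
  exact DFunLike.congr_fun h f

private theorem ss_lf_hom {n : ℕ} (a : Fin n → ℂ) : (lf a).IsHomogeneous 1 := by
  unfold lf
  refine IsHomogeneous.sum _ _ _ fun l _ => ?_
  have := (isHomogeneous_C (Fin n) (a l)).mul (isHomogeneous_X ℂ l)
  rwa [zero_add] at this

private theorem ss_eval_lf {n : ℕ} (a x : Fin n → ℂ) : eval x (lf a) = ∑ l, a l * x l := by
  unfold lf
  rw [map_sum]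
  exact Finset.sum_congr rfl fun l _ => by rw [map_mul, eval_C, eval_X]

private theorem ss_lmap_inv {g g' : Fin 5 → Fin 5 → ℂ} (hg : Inv g g') (v : Fin 5 → ℂ) :
    lmap g (lmap g' v) = v := by
  funext i
  have h1 : eval (lmap g (lmap g' v)) (X i : Pn 5) = eval v (X i) := by
    rw [← Pool.Agent.Helper93.eval_lsub, ← Pool.Agent.Helper93.eval_lsub, lsub_mm, hg.1, lsub_idm]
  rwa [eval_X, eval_X] at h1

private theorem ss_lmap (g : Fin 5 → Fin 5 → ℂ) (w : Fin 5 → ℂ) (h0 : w 0 = 0) (h1 : w 1 = 0) :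
    lmap (fun i (j : Fin 3) => g i j.succ.succ) (fun j => w j.succ.succ) = lmap g w := by
  funext i
  change ∑ l : Fin 3, g i l.succ.succ * w l.succ.succ = ∑ l : Fin 5, g i l * w l
  rw [Fin.sum_univ_succ (n := 4), Fin.sum_univ_succ (n := 3), h0, Fin.succ_zero_eq_one, h1]
  simp

theorem exists_Sec {l1 l2 : Fin 5 → ℂ} (h : LinearIndependent ℂ ![l1, l2]) : ∃ φ, Sec l1 l2 φ := by
  obtain ⟨g, g', hg, hX⟩ := exists_coord (n := 5) (r := 2) (by norm_num) ![l1, l2] h
  have hX0 : lsub g (lf l1) = X 0 := hX 0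
  have hX1 : lsub g (lf l2) = X 1 := hX 1
  have hY0 : lsub g' (X 0) = lf l1 := by rw [← hX0, lsub_mm, hg.1, lsub_idm]
  have hY1 : lsub g' (X 1) = lf l2 := by rw [← hX1, lsub_mm, hg.1, lsub_idm]
  have ker : ∀ f : Pn 5, lsub (fun i (j : Fin 3) => g i j.succ.succ) f = 0 →
      ∃ a b, f = lf l1 * a + lf l2 * b := by
    intro f hf
    rw [ss_rho] at hf
    obtain ⟨a, b, hab⟩ := ss_ker hf
    refine ⟨lsub g' a, lsub g' b, ?_⟩
    have h1 := congrArg (lsub g') hab
    rw [lsub_mm, hg.1, lsub_idm, map_add, map_mul, map_mul, hY0, hY1] at h1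
    exact h1
  refine ⟨fun i j => g i j.succ.succ, ?_, ?_, ?_, ?_, ker, ?_, ?_⟩
  · intro x y hxy
    obtain ⟨x', hx'⟩ : ∃ x' : Fin 5 → ℂ, x' = Fin.cons 0 (Fin.cons 0 x) := ⟨_, rfl⟩
    obtain ⟨y', hy'⟩ : ∃ y' : Fin 5 → ℂ, y' = Fin.cons 0 (Fin.cons 0 y) := ⟨_, rfl⟩
    have e1 : (fun j : Fin 3 => x' j.succ.succ) = x := by
      rw [hx']; funext j; simp
    have e2 : (fun j : Fin 3 => y' j.succ.succ) = y := by
      rw [hy']; funext j; simp
    have e3 : lmap g x' = lmap g y' := by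
      rw [← ss_lmap g x' (by rw [hx']; rfl) (by rw [hx']; rfl),
        ← ss_lmap g y' (by rw [hy']; rfl) (by rw [hy']; rfl), e1, e2]
      exact hxy
    have e4 : x' = y' := by
      rw [← ss_lmap_inv ⟨hg.2, hg.1⟩ x', ← ss_lmap_inv ⟨hg.2, hg.1⟩ y', e3]
    rw [← e1, ← e2, e4]
  · rw [ss_rho, hX0, ss_at0_X0, map_zero]
  · rw [ss_rho, hX1, ← Fin.succ_zero_eq_one, ss_at0_Xs, ss_at0_X0]
  · intro v h1 h2
    refine ⟨fun j => lmap g' v j.succ.succ, ?_⟩
    have e0 : ∀ p : Pn 5, eval (lmap g' v) (lsub g p) = eval v p := by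
      intro p
      rw [Pool.Agent.Helper93.eval_lsub, ss_lmap_inv hg]
    rw [ss_lmap g (lmap g' v), ss_lmap_inv hg]
    · have h3 := e0 (lf l1)
      rw [hX0, eval_X, ss_eval_lf, h1] at h3
      exact h3
    · have h3 := e0 (lf l2)
      rw [hX1, eval_X, ss_eval_lf, h2] at h3
      exact h3
  · intro f d hf h0
    obtain ⟨a, b, hab⟩ := ker f h0
    refine ⟨homogeneousComponent d a, homogeneousComponent d b,
      homogeneousComponent_isHomogeneous _ _, homogeneousComponent_isHomogeneous _ _, ?_⟩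
    have h1 := congrArg (homogeneousComponent (d + 1)) hab
    rw [homogeneousComponent_eq_self hf, map_add, mul_comm (lf l1), mul_comm (lf l2),
      sat_hc_mul _ _ _ _ (ss_lf_hom l1), sat_hc_mul _ _ _ _ (ss_lf_hom l2)] at h1
    rw [h1]
    ring
  · intro p d hp
    refine ⟨lsub g' (emb 4 ℂ (emb 3 ℂ p)), ?_, ?_⟩
    · apply lsub_hom
      unfold emb
      exact (hp.rename_isHomogeneous).rename_isHomogeneous
    · rw [ss_rho, lsub_mm, hg.2, lsub_idm, ss_at0_emb, ss_at0_emb]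

/-- independence on `P` implies independence on `V` -/
theorem ind_V {l1 l2 : Fin 5 → ℂ}
    (h : LinearIndependent ℂ ![fun l : Fin 3 => l1 l.succ.succ, fun l => l2 l.succ.succ]) :
    LinearIndependent ℂ ![l1, l2] := by
  apply LinearIndependent.of_comp (LinearMap.funLeft ℂ ℂ fun l : Fin 3 => l.succ.succ)
  have e : (LinearMap.funLeft ℂ ℂ fun l : Fin 3 => l.succ.succ) ∘ ![l1, l2] =
      ![fun l : Fin 3 => l1 l.succ.succ, fun l => l2 l.succ.succ] := by
    funext i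
    fin_cases i <;> rfl
  rw [e]
  exact h

variable {θ : F2 5} {σ : F1 3} {u : Fin 3 → ℂ} {T : Fin 3 → Fin 5 → Fin 5 → ℂ}

private theorem ss_kill (h : B1In θ σ u T) (D : Fin 3 → Pn 5) (j : Fin 5) :
    ∑ i, (∑ k, D k * Xf (T k) i) * θ i j = 0 := by
  have h1 : ∀ i, (∑ k, D k * Xf (T k) i) * θ i j = ∑ k, D k * (Xf (T k) i * θ i j) := by
    intro i
    rw [Finset.sum_mul]
    exact Finset.sum_congr rfl fun k _ => by ring
  rw [Finset.sum_congr rfl fun i _ => h1 i, Finset.sum_comm]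
  refine Finset.sum_eq_zero fun k _ => ?_
  rw [← Finset.mul_sum, (IsKV_iff θ (T k)).1 (h.KV k), mul_zero]

theorem cvec (h : B1In θ σ u T) {k : ℕ} {τ : F1 5} {l1 l2 : Fin 5 → ℂ} (hl : VLev θ u k τ l1 l2)
    {φ : Fin 5 → Fin 3 → ℂ} (hφ : Sec l1 l2 φ) :
    ∃ c : Fin 3 → Pn 3, (∀ j, (c j).IsHomogeneous k) ∧ CopF c ∧
      ∀ i, ∑ j, c j * lsub φ (Xf (T j) i) = 0 := by
  have hind : LinearIndependent ℂ ![l1, l2] := ind_V hl.ind
  have hτ : ∀ j, (τ j).IsHomogeneous (k + 2) := hl.mem.1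
  obtain ⟨f, hf, hf'⟩ := SV_hom h.cy.fol hl.m1 (k := k) (fun j => by
    have := (ss_lf_hom l1).mul (hτ j)
    rwa [show 1 + (k + 2) = k + 3 by omega] at this)
  obtain ⟨f', hg, hg'⟩ := SV_hom h.cy.fol hl.m2 (k := k) (fun j => by
    have := (ss_lf_hom l2).mul (hτ j)
    rwa [show 1 + (k + 2) = k + 3 by omega] at this)
  obtain ⟨c', hc', hcX⟩ := relV_hom h (f := fun i => lf l2 * f i - lf l1 * f' i) (d := k)
    (by
      intro j
      have e : ∑ i, (lf l2 * f i - lf l1 * f' i) * θ i j =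
          lf l2 * ∑ i, f i * θ i j - lf l1 * ∑ i, f' i * θ i j := by
        rw [Finset.mul_sum, Finset.mul_sum, ← Finset.sum_sub_distrib]
        exact Finset.sum_congr rfl fun i _ => by ring
      rw [e, ← hf' j, ← hg' j]
      ring)
    (by
      intro i
      have h1 := (ss_lf_hom l2).mul (hf i)
      have h2 := (ss_lf_hom l1).mul (hg i)
      rw [add_comm 1 k] at h1 h2
      exact h1.sub h2)
  have hrel : ∀ i, ∑ j, lsub φ (c' j) * lsub φ (Xf (T j) i) = 0 := by
    intro i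
    have h1 := congrArg (lsub φ) (hcX i)
    rw [map_sub, map_mul, map_mul, hφ.s1, hφ.s2, zero_mul, zero_mul, sub_zero, map_sum] at h1
    rw [h1]
    exact Finset.sum_congr rfl fun j _ => by rw [map_mul]
  refine ⟨fun j => lsub φ (c' j), fun j => lsub_hom (hc' j), ?_, hrel⟩
  -- not all of them are zero
  have hne : ∃ j0, lsub φ (c' j0) ≠ 0 := by
    by_contra hcon
    push Not at hcon
    have h1 : ∀ j, ∃ a b, c' j = lf l1 * a + lf l2 * b := fun j => hφ.ker _ (hcon j)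
    choose α β hαβ using h1
    obtain ⟨ζ, hζ⟩ := two_syz (ι := Fin 5) hind
      (ξ := fun i => -(f' i) - ∑ j, α j * Xf (T j) i) (η := fun i => f i - ∑ j, β j * Xf (T j) i)
      (by
        intro i
        have h2 := hcX i
        have h3 : ∑ j, c' j * Xf (T j) i =
            lf l1 * ∑ j, α j * Xf (T j) i + lf l2 * ∑ j, β j * Xf (T j) i := by
          rw [Finset.mul_sum, Finset.mul_sum, ← Finset.sum_add_distrib]
          refine Finset.sum_congr rfl fun j _ => ?_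
          rw [hαβ j]
          ring
        rw [h3] at h2
        linear_combination h2)
    apply hl.nSV
    refine ⟨fun i => -ζ i, fun l => ?_⟩
    have hl1 : (lf l1 : Pn 5) ≠ 0 := by
      intro h0
      have h2 := (two_syz (ι := Unit) hind (ξ := fun _ => 1) (η := fun _ => 0) (by
        intro _
        rw [h0]; ring))
      obtain ⟨z, hz⟩ := h2
      have h3 := (hz ()).1
      have h4 := congrArg (eval (0 : Fin 5 → ℂ)) h3
      rw [map_one, map_mul, ss_eval_lf] at h4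
      simp at h4
    apply mul_left_cancel₀ hl1
    rw [hf' l]
    have h2 : ∀ i, f i * θ i l = (∑ j, β j * Xf (T j) i) * θ i l - lf l1 * (ζ i * θ i l) := by
      intro i
      have h3 := (hζ i).2
      linear_combination (θ i l) * h3
    rw [Finset.sum_congr rfl fun i _ => h2 i, Finset.sum_sub_distrib, ss_kill h β l,
      ← Finset.mul_sum, zero_sub, ← mul_neg, ← Finset.sum_neg_distrib]
    congr 1
    exact Finset.sum_congr rfl fun i _ => by ring
  obtain ⟨j0, hj0⟩ := hne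
  intro p hp
  by_contra hpu
  choose d hd using hp
  simp only at hd
  have hp0 : p ≠ 0 := by
    rintro rfl
    apply hj0
    rw [hd j0, zero_mul]
  have hd0 : d j0 ≠ 0 := by
    intro h0
    apply hj0
    rw [hd j0, h0, mul_zero]
  obtain ⟨r, r', hr, hr', hrr⟩ := Pool.Agent.Helper18.LB.hom_of_mul (f := p) (g := d j0) (d := k)
    (by rw [← hd j0]; exact lsub_hom (hc' j0)) hp0 hd0
  have hr0 : r ≠ 0 := by
    rintro rfl
    apply hpu
    have h1 : p = C (coeff 0 p) := by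
      rw [← totalDegree_zero_iff_isHomogeneous, totalDegree_eq_zero_iff_eq_C] at hr
      exact hr
    rw [h1]
    have h2 : coeff 0 p ≠ 0 := by
      intro h0
      rw [h0, C_0] at h1
      exact hp0 h1
    exact (isUnit_iff_ne_zero.2 h2).map C
  have hdh : ∀ j, (d j).IsHomogeneous r' := by
    intro j
    refine Pool.Agent.Helper18.LB.hom_right (f := p) (d := r) ?_ hr hp0
    rw [← hd j, hrr]
    exact lsub_hom (hc' j)
  choose D hD hDd using fun j => hφ.sec (d j) r' (hdh j)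
  have hXh : ∀ j i, (Xf (T j) i).IsHomogeneous 1 := fun j i => ss_lf_hom _
  have h1 : ∀ i, ∃ a b, a.IsHomogeneous r' ∧ b.IsHomogeneous r' ∧
      ∑ j, D j * Xf (T j) i = lf l1 * a + lf l2 * b := by
    intro i
    refine hφ.kerh _ r' (IsHomogeneous.sum _ _ _ fun j _ => (hD j).mul (hXh j i)) ?_
    apply mul_left_cancel₀ hp0
    rw [mul_zero, map_sum, Finset.mul_sum, ← hrel i]
    refine Finset.sum_congr rfl fun j _ => ?_
    rw [map_mul, hDd, hd j, mul_assoc]
  choose a b ha hb hab using h1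
  have hθ := h.cy.fol.hom
  have hA : ∀ l, lf l1 * (∑ i, a i * θ i l) + lf l2 * (∑ i, b i * θ i l) = 0 := by
    intro l
    rw [← ss_kill h D l, Finset.mul_sum, Finset.mul_sum, ← Finset.sum_add_distrib]
    refine Finset.sum_congr rfl fun i _ => ?_
    rw [hab i]
    ring
  obtain ⟨ζ, hζh, hζ⟩ := two_syz_hom (ι := Fin 5) hind (k := r' + 2)
    (ξ := fun l => ∑ i, a i * θ i l) (η := fun l => ∑ i, b i * θ i l)
    (fun l => IsHomogeneous.sum _ _ _ fun i _ => (ha i).mul (hθ i l)) hA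
  have hl2 : (lf l2 : Pn 5) ≠ 0 := by
    intro h0
    have h2 := (two_syz (ι := Unit) hind (ξ := fun _ => 0) (η := fun _ => 1) (by
      intro _
      rw [h0]; ring))
    obtain ⟨z, hz⟩ := h2
    have h3 := (hz ()).2
    have h4 := congrArg (eval (0 : Fin 5 → ℂ)) h3
    rw [map_one, map_neg, map_mul, ss_eval_lf] at h4
    simp at h4
  have hζE : ζ ∈ EE θ (r' + 2) := by
    refine ⟨hζh, fun i j l => ?_⟩
    apply mul_left_cancel₀ hl2
    rw [mul_zero]
    have h2 := Pool.Agent.Helper71.FL.w12_ct h.cy.fol.dec a i j l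
    have h3 : ∀ l, ct a θ l = lf l2 * ζ l := fun l => (hζ l).1
    unfold w12 at h2 ⊢
    rw [h3, h3, h3] at h2
    linear_combination h2
  obtain ⟨s, hs⟩ := hl.low (r' + 2) (by omega) ζ hζE
  obtain ⟨m, hm⟩ := relV h (f := fun i => a i - lf l2 * s i) (by
    intro j
    have e : ∑ i, (a i - lf l2 * s i) * θ i j =
        ∑ i, a i * θ i j - lf l2 * ∑ i, s i * θ i j := by
      rw [Finset.mul_sum, ← Finset.sum_sub_distrib]
      exact Finset.sum_congr rfl fun i _ => by ring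
    rw [e, ← hs j]
    have h2 := (hζ j).1
    rw [h2, sub_self])
  obtain ⟨m', hm'⟩ := relV h (f := fun i => b i + lf l1 * s i) (by
    intro j
    have e : ∑ i, (b i + lf l1 * s i) * θ i j =
        ∑ i, b i * θ i j + lf l1 * ∑ i, s i * θ i j := by
      rw [Finset.mul_sum, ← Finset.sum_add_distrib]
      exact Finset.sum_congr rfl fun i _ => by ring
    rw [e, ← hs j]
    have h2 := (hζ j).2
    rw [h2, neg_add_cancel])
  have hfin : (fun j => D j - (lf l1 * m j + lf l2 * m' j)) = 0 := by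
    apply Xf_indep h
    intro i
    have h2 := hab i
    have h3 := hm i
    have h4 := hm' i
    have e : ∑ j, (D j - (lf l1 * m j + lf l2 * m' j)) * Xf (T j) i =
        ∑ j, D j * Xf (T j) i - (lf l1 * ∑ j, m j * Xf (T j) i +
          lf l2 * ∑ j, m' j * Xf (T j) i) := by
      rw [Finset.mul_sum, Finset.mul_sum, ← Finset.sum_add_distrib, ← Finset.sum_sub_distrib]
      exact Finset.sum_congr rfl fun j _ => by ring
    rw [e, h2, ← h3, ← h4]
    ring
  apply hd0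
  have h2 := congrFun hfin j0
  simp only [Pi.zero_apply] at h2
  rw [← hDd j0, sub_eq_zero.1 h2, map_add, map_mul, map_mul, hφ.s1, hφ.s2, zero_mul, zero_mul,
    add_zero]

theorem theta_S (h : B1In θ σ u T) {φ : Fin 5 → Fin 3 → ℂ} {c : Fin 3 → Pn 3} (hc : CopF c)
    (hr : ∀ i, ∑ j, c j * lsub φ (Xf (T j) i) = 0) (i j : Fin 5) : lsub φ (θ i j) = 0 := by
  have hc0 : c ≠ 0 := by
    rintro rfl
    exact not_isUnit_zero (hc 0 fun i => dvd_refl _)
  obtain ⟨q, hq, hD⟩ := D5_eq h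
  have h1 := D5_dep (X := fun k l => lsub φ (Xf (T k) l)) hc0 hr i j
  have h2 := D5_map (lsub φ).toRingHom (fun k => Xf (T k)) i j
  change D5 (fun k l => lsub φ (Xf (T k) l)) i j = lsub φ (D5 (fun k => Xf (T k)) i j) at h2
  rw [h1, hD i j, map_mul] at h2
  have h3 : lsub φ (C q) = C q := algHom_C (lsub φ) q
  rw [h3] at h2
  rcases mul_eq_zero.1 h2.symm with h4 | h4
  · exact absurd (C_eq_zero.1 h4) hq
  · exact h4

end Pool.Agent.Helper34.B1
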