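import Pool.Agent.Helper34.B1.Det5

/-!
B1-10.  The Lie derivative and the tangent space of the zero set at `u`.

* `lie_zero`: `∂_i` of `∑ l, X_l θ_lj = 0` (`IsKV_iff`): `∑ X_l ∂_i θ_lj = - ∑ (∂_i X_l) θ_lj`, `∂_i X_l = C (K i l)`; the same with `j`; insert into closedness
  `∂_l θ_ij + ∂_i θ_jl + ∂_j θ_li = 0` contracted with `X_l`.
* `Nu`: take `c` from `exists_cu` and let `A k` be an invertible `3 × 3` matrix with first row `c`: the fields `Y_k = ∑ A k j T_j`; `D5 (Y) = det A * D5 (T)`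
  (or: `eval` at `uV + t wV` and expand `D5` in `t`): `Y_0 (uV) = 0`, so the linear part of `θ_ij` at `uV` in direction `w` is
  `const * det(e_i, e_j, Y_0(w), Y_1(u), Y_2(u))`; it vanishes for all `i, j` iff the three vectors `Y_0(w), Y_1(u), Y_2(u)` are dependent; `Y_1(u), Y_2(u)` are
  independent (`exists_cu`, uniqueness), so `Y_0(w) = vl (∑ a k • toP (T k)) u`: `w = r u` (`exists_cu`, last part).
* `N_le`: `N ⊓ P ⊂ ℂ uV` (`P` = vectors with first two coordinates 0, dimension 3), so `dim N + 3 ≤ 5 + 1`.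
* `tang`: `range (lmap φ) ≤ N` (differentiate `lsub φ (θ i j) = 0`, i.e. `θ i j` vanishes at all `lmap φ x`; in particular at `uV + t v`), dimensions 3 and
  `≤ 3`, so equality; `vl (T k) uV ∈ N` by `lie_zero` evaluated at `uV` where all `θ i j` vanish.
-/

set_option autoImplicit false

namespace Pool.Agent.Helper34.B1

open MvPolynomial
open scoped BigOperators
open Pool.Agent.Helper71.FL (w12 pf ct Dec Closed dd at0 emb res)
open Pool.Agent.Helper93 (lsub lmap OF pb)
open Pool.Agent.Helper71.FC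

private theorem b10_pd_lf {m : ℕ} (a : Fin m → ℂ) (i : Fin m) : pderiv i (lf a) = C (a i) := by
  unfold lf
  rw [map_sum, Finset.sum_eq_single i]
  · rw [pderiv_C_mul, pderiv_X_self, mul_one]
  · intro l _ hl
    rw [pderiv_C_mul, pderiv_X_of_ne hl, mul_zero]
  · intro hh; exact absurd (Finset.mem_univ _) hh

private theorem b10_ev_lf {m : ℕ} (a x : Fin m → ℂ) : eval x (lf a) = ∑ l, a l * x l := by
  unfold lf
  rw [map_sum]
  refine Finset.sum_congr rfl fun t _ => ?_
  rw [map_mul, eval_C, eval_X]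

private theorem b10_dKV {θ : F2 5} {K : Fin 5 → Fin 5 → ℂ} (hK : IsKV θ K) (i j : Fin 5) :
    ∑ l, (C (K i l) * θ l j + Xf K l * pderiv i (θ l j)) = 0 := by
  have h1 := congrArg (pderiv i) ((IsKV_iff θ K).1 hK j)
  rw [map_zero, map_sum] at h1
  rw [← h1]
  refine Finset.sum_congr rfl fun l _ => ?_
  rw [Derivation.leibniz, smul_eq_mul, smul_eq_mul]
  have h2 : pderiv i (Xf K l) = C (K i l) := b10_pd_lf _ _
  rw [h2]
  ring

theorem lie_zero {θ : F2 5} (hF : Fol θ) {K : Fin 5 → Fin 5 → ℂ} (hK : IsKV θ K) (i j : Fin 5) :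
    ∑ l, Xf K l * pderiv l (θ i j) + ∑ l, (C (K i l) * θ l j + C (K j l) * θ i l) = 0 := by
  have h1 := b10_dKV hK i j
  have h2 := b10_dKV hK j i
  have h3 : ∑ l, Xf K l * pderiv l (θ i j) + ∑ l, (C (K i l) * θ l j + C (K j l) * θ i l) =
      ∑ l, (C (K i l) * θ l j + Xf K l * pderiv i (θ l j)) -
      ∑ l, (C (K j l) * θ l i + Xf K l * pderiv j (θ l i)) := by
    rw [← Finset.sum_add_distrib, ← Finset.sum_sub_distrib]
    refine Finset.sum_congr rfl fun l _ => ?_
    have e1 := hF.closed l i j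
    have e2 := hF.dec.2.1 i l
    have e3 : pderiv i (θ j l) = - pderiv i (θ l j) := by
      rw [hF.dec.2.1 j l, map_neg]
    rw [e3] at e1
    linear_combination Xf K l * e1 + C (K j l) * e2
  rw [h3, h1, h2, sub_zero]

/-- vectors of `P` as vectors of `V` -/
def uV (w : Fin 3 → ℂ) : Fin 5 → ℂ := Fin.cons 0 (Fin.cons 0 w)

/-- derivative of all coefficients in direction `w` at `uV u` -/
def DZ (θ : F2 5) (u : Fin 3 → ℂ) (w : Fin 5 → ℂ) : Prop :=
  ∀ i j, ∑ l, w l * eval (uV u) (pderiv l (θ i j)) = 0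

theorem vl_uV (K : Fin 5 → Fin 5 → ℂ) (w : Fin 3 → ℂ) : vl K (uV w) = vl (toP K) w := by
  funext i
  show ∑ l, uV w l * K l i = ∑ l, w l * K l.succ.succ i
  rw [Fin.sum_univ_succ, Fin.sum_univ_succ]
  have h0 : uV w 0 = 0 := rfl
  have h1 : uV w (Fin.succ 0) = 0 := rfl
  have h2 : ∀ l : Fin 3, uV w l.succ.succ = w l := fun _ => rfl
  rw [h0, h1, zero_mul, zero_mul, zero_add, zero_add]
  exact Finset.sum_congr rfl fun l _ => by rw [h2]

section dual
open TrivSqZeroExt

/-- the point `x + ε w` -/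
private noncomputable def b10_du {m : ℕ} (x w : Fin m → ℂ) (l : Fin m) : DualNumber ℂ :=
  inl (x l) + inr (w l)

private theorem b10_taylor {m : ℕ} (x w : Fin m → ℂ) (f : Pn m) :
    aeval (b10_du x w) f = inl (eval x f) + inr (∑ l, w l * eval x (pderiv l f)) := by
  induction f using MvPolynomial.induction_on with
  | C c =>
    simp only [algHom_C, eval_C, pderiv_C, map_zero, mul_zero, Finset.sum_const_zero, inr_zero,
      add_zero]
    rfl
  | add p q hp hq =>
    rw [map_add, hp, hq, map_add, inl_add]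
    have : ∑ l, w l * eval x (pderiv l (p + q)) =
        ∑ l, w l * eval x (pderiv l p) + ∑ l, w l * eval x (pderiv l q) := by
      rw [← Finset.sum_add_distrib]
      refine Finset.sum_congr rfl fun l _ => ?_
      rw [map_add, map_add, mul_add]
    rw [this, inr_add]
    abel
  | mul_X p i hp =>
    rw [map_mul, hp, aeval_X, map_mul, eval_X]
    have : ∑ l, w l * eval x (pderiv l (p * X i)) =
        x i * ∑ l, w l * eval x (pderiv l p) + eval x p * w i := by
      have h1 : ∀ l, w l * eval x (pderiv l (p * X i)) =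
          x i * (w l * eval x (pderiv l p)) + (if l = i then eval x p * w l else 0) := by
        intro l
        rw [Derivation.leibniz, smul_eq_mul, smul_eq_mul, map_add, map_mul, map_mul, eval_X]
        by_cases hl : l = i
        · subst hl
          rw [if_pos rfl, pderiv_X_self, map_one]
          ring
        · rw [if_neg hl, pderiv_X_of_ne (Ne.symm hl), map_zero]
          ring
      rw [Finset.sum_congr rfl fun l _ => h1 l, Finset.sum_add_distrib, ← Finset.mul_sum,
        Finset.sum_ite_eq' Finset.univ i, if_pos (Finset.mem_univ _)]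
    rw [this]
    unfold b10_du
    ext
    · simp
    · simp [mul_comm]

end dual

variable {θ : F2 5} {σ : F1 3} {u : Fin 3 → ℂ} {T : Fin 3 → Fin 5 → Fin 5 → ℂ}

private theorem b10_evX (K : Fin 5 → Fin 5 → ℂ) (x : Fin 5 → ℂ) (l : Fin 5) :
    eval x (Xf K l) = vl K x l := by
  unfold Xf
  rw [b10_ev_lf]
  exact Finset.sum_congr rfl fun t _ => mul_comm _ _

private theorem b10_vl_sum (c : Fin 3 → ℂ) (x : Fin 3 → ℂ) (l : Fin 5) :
    vl (∑ k, c k • toP (T k)) x l = ∑ k, c k * vl (toP (T k)) x l := by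
  unfold vl
  simp only [Finset.sum_apply, Pi.smul_apply, smul_eq_mul, Finset.mul_sum]
  rw [Finset.sum_comm]
  refine Finset.sum_congr rfl fun k _ => Finset.sum_congr rfl fun t _ => ?_
  ring

private theorem b10_zero_u (h : B1In θ σ u T) (i j : Fin 5) : eval (uV u) (θ i j) = 0 := by
  obtain ⟨c0, hc0, hD⟩ := D5_eq h
  obtain ⟨c, hc, hcu, _, _⟩ := exists_cu h
  have h1 := congrArg (eval (uV u)) (hD i j)
  rw [← D5_map, map_mul, eval_C] at h1
  have h2 : D5 (fun k l => eval (uV u) (Xf (T k) l)) i j = 0 := by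
    refine D5_dep hc (fun l => ?_) i j
    have h3 := congrFun hcu l
    rw [b10_vl_sum] at h3
    refine Eq.trans ?_ h3
    refine Finset.sum_congr rfl fun k _ => ?_
    rw [b10_evX, vl_uV]
  rw [h2] at h1
  exact (mul_eq_zero.1 h1.symm).resolve_left hc0

private theorem b10_D5_upd {R : Type} [CommRing R] (Y : Fin 3 → Fin 5 → R) (k : Fin 3)
    (Z : Fin 5 → R) (i j : Fin 5) :
    D5 (Function.update Y k Z) i j =
      ((Matrix.of ![Pi.single i 1, Pi.single j 1, Y 0, Y 1, Y 2]).updateRow k.succ.succ Z).det := by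
  unfold D5
  congr 1
  ext a b
  fin_cases k <;> fin_cases a <;> rfl

private theorem b10_D5_smul {R : Type} [CommRing R] (Y : Fin 3 → Fin 5 → R) (k : Fin 3)
    (Z : Fin 5 → R) (e : R) (i j : Fin 5) :
    D5 (Function.update Y k (e • Z)) i j = e * D5 (Function.update Y k Z) i j := by
  rw [b10_D5_upd, b10_D5_upd, Matrix.det_updateRow_smul]

private theorem b10_D5_comb {R : Type} [CommRing R] (Y : Fin 3 → Fin 5 → R) (k : Fin 3)
    (c : Fin 3 → R) (i j : Fin 5) :
    D5 (Function.update Y k (∑ l, c l • Y l)) i j = c k * D5 Y i j := by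
  rw [b10_D5_upd]
  have h1 := Matrix.det_updateRow_sum (Matrix.of ![Pi.single i 1, Pi.single j 1, Y 0, Y 1, Y 2])
    k.succ.succ (Fin.cons 0 (Fin.cons 0 c))
  rw [Fin.sum_univ_succ, Fin.sum_univ_succ] at h1
  simp only [Fin.cons_zero, Fin.cons_succ, zero_smul, zero_add] at h1
  rw [smul_eq_mul] at h1
  have h2 : (∑ l, c l • Y l) = ∑ l : Fin 3, c l • (Matrix.of ![Pi.single i 1, Pi.single j 1,
      Y 0, Y 1, Y 2]) l.succ.succ := by
    refine Finset.sum_congr rfl fun l _ => ?_
    fin_cases l <;> rfl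
  rw [h2]
  exact h1

section dual2
open TrivSqZeroExt

private theorem b10_key (h : B1In θ σ u T) {w : Fin 3 → ℂ} (hw : DZ θ u (uV w)) {c : Fin 3 → ℂ}
    (hcu : vl (∑ k, c k • toP (T k)) u = 0) (k0 : Fin 3) (i j : Fin 5) :
    D5 (Function.update (fun k => vl (toP (T k)) u) k0 (vl (∑ k, c k • toP (T k)) w)) i j = 0 := by
  obtain ⟨c0, hc0, hD⟩ := D5_eq h
  let ρ : Pn 5 →+* DualNumber ℂ := (aeval (b10_du (uV u) (uV w))).toRingHom
  let Y : Fin 3 → Fin 5 → DualNumber ℂ := fun k l => ρ (Xf (T k) l)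
  have hY : ∀ k l, Y k l = inl (vl (toP (T k)) u l) + inr (vl (toP (T k)) w l) := by
    intro k l
    have h1 : Y k l = inl (eval (uV u) (Xf (T k) l)) +
        inr (∑ t, uV w t * eval (uV u) (pderiv t (Xf (T k) l))) := b10_taylor _ _ _
    rw [h1, b10_evX, vl_uV]
    congr 2
    rw [← vl_uV]
    refine Finset.sum_congr rfl fun t _ => ?_
    have h2 : pderiv t (Xf (T k) l) = C (T k t l) := b10_pd_lf _ _
    rw [h2, eval_C]
  have hθ : ρ (θ i j) = 0 := by
    have h1 : ρ (θ i j) = inl (eval (uV u) (θ i j)) +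
        inr (∑ t, uV w t * eval (uV u) (pderiv t (θ i j))) := b10_taylor _ _ _
    rw [h1, b10_zero_u h, hw i j, inl_zero, inr_zero, add_zero]
  have h0 : D5 Y i j = 0 := by
    have h1 : D5 Y i j = ρ (D5 (fun k => Xf (T k)) i j) := D5_map ρ _ i j
    rw [h1, hD, map_mul, hθ, mul_zero]
  have h1 := b10_D5_comb Y k0 (fun k => (inl (c k) : DualNumber ℂ)) i j
  rw [h0, mul_zero] at h1
  have h2 : (∑ k, (inl (c k) : DualNumber ℂ) • Y k) =
      (DualNumber.eps : DualNumber ℂ) • (fun l => (inl (vl (∑ k, c k • toP (T k)) w l) :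
        DualNumber ℂ)) := by
    funext l
    rw [Finset.sum_apply]
    simp only [Pi.smul_apply, smul_eq_mul, hY]
    ext
    · simp only [fst_sum, fst_mul, fst_add, fst_inl, fst_inr, add_zero, DualNumber.fst_eps, zero_mul]
      have h3 := congrFun hcu l
      rw [b10_vl_sum] at h3
      exact h3
    · simp only [snd_sum, snd_mul, snd_add, snd_inl, snd_inr, fst_add, fst_inl, fst_inr,
        DualNumber.fst_eps, DualNumber.snd_eps, smul_zero, zero_add, add_zero]
      rw [b10_vl_sum]
      simp [smul_eq_mul]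
  rw [h2, b10_D5_smul] at h1
  have h3 : fst (D5 (Function.update Y k0 (fun l => (inl (vl (∑ k, c k • toP (T k)) w l) :
      DualNumber ℂ))) i j) = 0 := by
    have h4 := congrArg snd h1
    simpa using h4
  have h4 := D5_map (fstHom ℂ ℂ ℂ : DualNumber ℂ →ₐ[ℂ] ℂ).toRingHom (Function.update Y k0
    (fun l => (inl (vl (∑ k, c k • toP (T k)) w l) : DualNumber ℂ))) i j
  have h5 : (fun k l => (fstHom ℂ ℂ ℂ : DualNumber ℂ →ₐ[ℂ] ℂ).toRingHom ((Function.update Y k0
    (fun l => (inl (vl (∑ k, c k • toP (T k)) w l) : DualNumber ℂ))) k l)) =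
      Function.update (fun k => vl (toP (T k)) u) k0 (vl (∑ k, c k • toP (T k)) w) := by
    funext k l
    by_cases hk : k = k0
    · subst hk
      rw [Function.update_self, Function.update_self]
      simp
    · rw [Function.update_of_ne hk, Function.update_of_ne hk, hY]
      simp
  rw [h5] at h4
  rw [h4]
  exact h3

end dual2

theorem Nu (h : B1In θ σ u T) {w : Fin 3 → ℂ} (hw : DZ θ u (uV w)) : ∃ r : ℂ, w = r • u := by
  obtain ⟨c, hc, hcu, hc1, hc2⟩ := exists_cu h
  obtain ⟨k0, hk0⟩ : ∃ k0, c k0 ≠ 0 := by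
    by_contra hcon
    push Not at hcon
    exact hc (funext hcon)
  obtain ⟨g, hg, hg1⟩ := dep_of_D5 (b10_key h hw hcu k0)
  have hg2 : ∀ l, g k0 * vl (∑ k, c k • toP (T k)) w l +
      ∑ k, (Function.update g k0 0) k * vl (toP (T k)) u l = 0 := by
    intro l
    have e1 := Finset.add_sum_erase Finset.univ (fun k => g k * Function.update
      (fun k => vl (toP (T k)) u) k0 (vl (∑ k, c k • toP (T k)) w) k l) (Finset.mem_univ k0)
    have e2 := Finset.add_sum_erase Finset.univ (fun k => (Function.update g k0 0) k *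
      vl (toP (T k)) u l) (Finset.mem_univ k0)
    rw [hg1 l] at e1
    rw [← e2]
    refine Eq.trans ?_ e1
    simp only [Function.update_self, zero_mul, zero_add]
    refine congrArg (fun z => g k0 * vl (∑ k, c k • toP (T k)) w l + z) ?_
    refine Finset.sum_congr rfl fun k hk => ?_
    have hk' := Finset.ne_of_mem_erase hk
    rw [Function.update_of_ne hk', Function.update_of_ne hk']
  have hgk : g k0 ≠ 0 := by
    intro hgk
    obtain ⟨r, hr⟩ := hc1 g (by
      funext l
      rw [b10_vl_sum]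
      have h1 := hg2 l
      have h2 : Function.update g k0 0 = g := by
        rw [← hgk, Function.update_eq_self]
      rw [h2, hgk, zero_mul, zero_add] at h1
      exact h1)
    have h1 := congrFun hr k0
    rw [hgk, Pi.smul_apply, smul_eq_mul] at h1
    have h2 : r = 0 := (mul_eq_zero.1 h1.symm).resolve_right hk0
    rw [h2, zero_smul] at hr
    exact hg hr
  refine hc2 w (fun k => - (g k0)⁻¹ * (Function.update g k0 0) k) ?_
  funext l
  rw [b10_vl_sum (fun k => - (g k0)⁻¹ * (Function.update g k0 0) k)]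
  have h1 := hg2 l
  have h2 : ∑ k, - (g k0)⁻¹ * (Function.update g k0 0) k * vl (toP (T k)) u l =
      - (g k0)⁻¹ * ∑ k, (Function.update g k0 0) k * vl (toP (T k)) u l := by
    rw [Finset.mul_sum]
    exact Finset.sum_congr rfl fun k _ => mul_assoc _ _ _
  rw [h2]
  have h3 : (g k0)⁻¹ * g k0 = 1 := inv_mul_cancel₀ hgk
  linear_combination (g k0)⁻¹ * h1 - vl (∑ k, c k • toP (T k)) w l * h3

/-- `uV` as a linear map -/
private noncomputable def b10_L : (Fin 3 → ℂ) →ₗ[ℂ] (Fin 5 → ℂ) where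
  toFun := uV
  map_add' := by
    intro x y
    funext i
    refine Fin.cases ?_ (fun i => Fin.cases ?_ (fun i => ?_) i) i
    · show (0 : ℂ) = 0 + 0
      rw [add_zero]
    · show (0 : ℂ) = 0 + 0
      rw [add_zero]
    · rfl
  map_smul' := by
    intro c x
    funext i
    refine Fin.cases ?_ (fun i => Fin.cases ?_ (fun i => ?_) i) i
    · show (0 : ℂ) = c * 0
      rw [mul_zero]
    · show (0 : ℂ) = c * 0
      rw [mul_zero]
    · rfl

private theorem b10_L_inj : Function.Injective b10_L := by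
  intro x y hxy
  funext i
  exact congrFun hxy i.succ.succ

theorem N_le (h : B1In θ σ u T) {N : Submodule ℂ (Fin 5 → ℂ)} (hN : ∀ w ∈ N, DZ θ u w) :
    Module.finrank ℂ N ≤ 3 := by
  have h1 := Submodule.finrank_sup_add_finrank_inf_eq N (LinearMap.range b10_L)
  have h2 : Module.finrank ℂ (LinearMap.range b10_L) = 3 := by
    rw [LinearMap.finrank_range_of_inj b10_L_inj, Module.finrank_fin_fun]
  have h3 : Module.finrank ℂ (N ⊔ LinearMap.range b10_L : Submodule ℂ (Fin 5 → ℂ)) ≤ 5 := by
    have := Submodule.finrank_le (N ⊔ LinearMap.range b10_L)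
    rwa [Module.finrank_fin_fun] at this
  have h4 : Module.finrank ℂ (N ⊓ LinearMap.range b10_L : Submodule ℂ (Fin 5 → ℂ)) ≤ 1 := by
    have h5 : N ⊓ LinearMap.range b10_L ≤ Submodule.span ℂ {uV u} := by
      rintro x ⟨hx, ⟨w, rfl⟩⟩
      obtain ⟨r, hr⟩ := Nu h (hN _ hx)
      rw [Submodule.mem_span_singleton]
      refine ⟨r, ?_⟩
      rw [hr]
      exact (b10_L.map_smul r u).symm
    exact (Submodule.finrank_mono h5).trans (by
      have := finrank_span_le_card (R := ℂ) ({uV u} : Set (Fin 5 → ℂ))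
      simpa using this)
  omega

private theorem b10_du_lmap (φ : Fin 5 → Fin 3 → ℂ) (x y : Fin 3 → ℂ) (f : Pn 5) :
    aeval (b10_du x y) (lsub φ f) = aeval (b10_du (lmap φ x) (lmap φ y)) f := by
  have h1 : (aeval (b10_du x y)).comp (lsub φ) = aeval (b10_du (lmap φ x) (lmap φ y)) := by
    refine MvPolynomial.algHom_ext fun k => ?_
    rw [AlgHom.comp_apply]
    unfold Pool.Agent.Helper93.lsub
    rw [aeval_X, aeval_X, map_sum]
    have h2 : ∀ l, aeval (b10_du x y) (C (φ k l) * X l : Pn 3) =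
        (TrivSqZeroExt.inl (φ k l * x l) + TrivSqZeroExt.inr (φ k l * y l) : DualNumber ℂ) := by
      intro l
      rw [map_mul, aeval_X, aeval_C]
      unfold b10_du
      have h3 : (algebraMap ℂ (DualNumber ℂ)) (φ k l) = TrivSqZeroExt.inl (φ k l) := rfl
      rw [h3]
      ext <;> simp
    rw [Finset.sum_congr rfl fun l _ => h2 l]
    unfold b10_du
    show _ = TrivSqZeroExt.inl (∑ l, φ k l * x l) + TrivSqZeroExt.inr (∑ l, φ k l * y l)
    rw [Finset.sum_add_distrib, TrivSqZeroExt.inl_sum, TrivSqZeroExt.inr_sum]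
  rw [← h1]
  rfl

theorem tang (h : B1In θ σ u T) {φ : Fin 5 → Fin 3 → ℂ} (hφ : Function.Injective (lmap φ))
    (hz : ∀ i j, lsub φ (θ i j) = 0) (hu : ∃ x, lmap φ x = uV u) (k : Fin 3) :
    ∃ x, lmap φ x = vl (T k) (uV u) := by
  let N : Submodule ℂ (Fin 5 → ℂ) :=
    { carrier := {w | DZ θ u w}
      add_mem' := by
        intro a b ha hb i j
        simp only [Pi.add_apply, add_mul, Finset.sum_add_distrib]
        rw [ha i j, hb i j, add_zero]
      zero_mem' := by
        intro i j
        simp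
      smul_mem' := by
        intro c a ha i j
        simp only [Pi.smul_apply, smul_eq_mul, mul_assoc]
        rw [← Finset.mul_sum, ha i j, mul_zero] }
  have hN : ∀ w ∈ N, DZ θ u w := fun w hw => hw
  obtain ⟨x0, hx0⟩ := hu
  have h1 : LinearMap.range (lmap φ) ≤ N := by
    rintro _ ⟨y, rfl⟩ i j
    have h2 := b10_du_lmap φ x0 y (θ i j)
    rw [hz, map_zero, b10_taylor, hx0] at h2
    have h3 := congrArg TrivSqZeroExt.snd h2
    simpa using h3.symm
  have h2 : Module.finrank ℂ (LinearMap.range (lmap φ)) = 3 := by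
    rw [LinearMap.finrank_range_of_inj hφ, Module.finrank_fin_fun]
  have h3 : LinearMap.range (lmap φ) = N :=
    Submodule.eq_of_le_of_finrank_le h1 (by rw [h2]; exact N_le h hN)
  have h4 : vl (T k) (uV u) ∈ N := by
    intro i j
    have h5 := congrArg (eval (uV u)) (lie_zero h.cy.fol (h.KV k) i j)
    rw [map_add, map_sum, map_sum, map_zero] at h5
    have h6 : ∑ l, eval (uV u) (C (T k i l) * θ l j + C (T k j l) * θ i l) = 0 := by
      refine Finset.sum_eq_zero fun l _ => ?_
      rw [map_add, map_mul, map_mul, b10_zero_u h, b10_zero_u h, mul_zero, mul_zero, add_zero]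
    rw [h6, add_zero] at h5
    rw [← h5]
    refine Finset.sum_congr rfl fun l _ => ?_
    rw [map_mul, b10_evX]
  rw [← h3] at h4
  exact h4

end Pool.Agent.Helper34.B1
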