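import Pool.Agent.Helper34.B1.Hlev

/-!
B1-7.  The first unsaturated degree on `V`.

* `exists_bad_V`: for large `m` (`BS_large` for `θ`, `lift_of_sat` with `hzV`) the form `emb(lf y0)^(m-k-2) τ ∈ EE (rs2 θ) m` (`τ` of `H_level`) lifts to
  `ξ ∈ EE θ m`; if `SV ξ` then `SH (res ξ)`, `SP (res (res ξ))`, `res (res ξ) = y0^(m-2) σ`: `plane_nosat`.
* `V_level`: `k + 2` = the least degree with a bad form, `≥ 4` by `cy.e0, e1, e2, e3V`.  `L = EE θ (k + 2) / SV` (quotient by the subspace of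
  forms in `SV`), finite dimensional (`finite_EE`), not zero.  For `l = l_i` (forms of `H_level`, extended to `V` by the coefficient `0` at
  `x_0`) and `ξ ∈ EE θ (k + 2)`: `res ξ = SH + f τ` (if `k + 2 ≥ k_H + 2`, `HLev.gen`; otherwise `HLev.low`), so `res (l ξ) ∈ SH`, `stepV`:
  `l ξ = ζ + X 0 η`, `η ∈ EE θ (k + 2)`.  `η` is unique modulo `SV` (`nzdV`), this gives linear maps `φ_1, φ_2 : L → L`, commuting since
  `X 0^2 (φ_1 φ_2 - φ_2 φ_1) ξ ∈ SV`.  A common eigenvector `τ`, eigenvalues `c_1, c_2`: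
  `(l_i - c_i X 0) τ ∈ SV`.  (Common eigenvector: `Module.End.exists_eigenvalue` for `φ_1`, then `φ_2` on the eigenspace, or
  avoid quotients: take `W ≤ EE θ (k+2)` the subspace in `SV` and work with submodules.)
-/

set_option autoImplicit false

namespace Pool.Agent.Helper34.B1

open MvPolynomial
open scoped BigOperators
open Pool.Agent.Helper71.FL (w12 pf ct Dec Closed dd at0 emb res)
open Pool.Agent.Helper93 (lsub lmap OF pb)
open Pool.Agent.Helper71.FC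

variable {θ : F2 5} {σ : F1 3} {u : Fin 3 → ℂ} {T : Fin 3 → Fin 5 → Fin 5 → ℂ}

section aux17

private theorem b17_at0_X0 {n : ℕ} : at0 n ℂ (X 0) = 0 := by
  unfold Pool.Agent.Helper71.FL.at0
  rw [aeval_X, Fin.cons_zero]

private theorem b17_at0_Xs {n : ℕ} (i : Fin n) : at0 n ℂ (X i.succ) = X i := by
  unfold Pool.Agent.Helper71.FL.at0
  rw [aeval_X, Fin.cons_succ]

private theorem b17_at0_emb {n : ℕ} (f : Pn n) : at0 n ℂ (emb n ℂ f) = f := by
  have h : (at0 n ℂ).comp (emb n ℂ) = AlgHom.id ℂ (Pn n) := by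
    apply MvPolynomial.algHom_ext
    intro i
    rw [AlgHom.comp_apply, AlgHom.id_apply]
    unfold Pool.Agent.Helper71.FL.emb
    rw [rename_X, b17_at0_Xs]
  exact congrArg (fun g : Pn n →ₐ[ℂ] Pn n => g f) h

private theorem b17_emb_hom {n : ℕ} {f : Pn n} {d : ℕ} (h : f.IsHomogeneous d) :
    (emb n ℂ f).IsHomogeneous d := h.rename_isHomogeneous

private theorem b17_lf_hom {n : ℕ} (a : Fin n → ℂ) : (lf a).IsHomogeneous 1 := by
  unfold lf
  refine IsHomogeneous.sum _ _ _ fun l _ => ?_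
  have := (isHomogeneous_C (Fin n) (a l)).mul (isHomogeneous_X ℂ l)
  rwa [zero_add] at this

private theorem b17_lf_cons {n : ℕ} (c : ℂ) (y : Fin n → ℂ) :
    lf (Fin.cons c y : Fin (n + 1) → ℂ) = C c * X 0 + emb n ℂ (lf y) := by
  unfold lf
  rw [Fin.sum_univ_succ, Fin.cons_zero, map_sum]
  congr 1
  refine Finset.sum_congr rfl fun i _ => ?_
  rw [Fin.cons_succ, map_mul]
  unfold Pool.Agent.Helper71.FL.emb
  rw [rename_X, rename_C]

private theorem b17_EE_mul {n : ℕ} {Θ : F2 n} {m k : ℕ} {f : Pn n} (hf : f.IsHomogeneous m)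
    {ξ : F1 n} (hξ : ξ ∈ EE Θ k) : (fun j => f * ξ j) ∈ EE Θ (m + k) :=
  ⟨fun j => hf.mul (hξ.1 j), fun i j l => by
    rw [Pool.Agent.Helper71.FL.w12_smul, hξ.2, mul_zero]⟩

private theorem b17_SV_congr {θ : F2 5} {ξ η : F1 5} (h : SV θ ξ) (e : ∀ j, η j = ξ j) : SV θ η := by
  obtain ⟨f, hf⟩ := h
  exact ⟨f, fun j => (e j).trans (hf j)⟩

private theorem b17_SH_congr {θ : F2 5} {ξ η : F1 4} (h : SH θ ξ) (e : ∀ j, η j = ξ j) : SH θ η := by
  obtain ⟨f, hf⟩ := h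
  exact ⟨f, fun j => (e j).trans (hf j)⟩

private theorem b17_SP_congr {θ : F2 5} {ξ η : F1 3} (h : SP θ ξ) (e : ∀ j, η j = ξ j) : SP θ η := by
  obtain ⟨f, hf⟩ := h
  exact ⟨f, fun j => (e j).trans (hf j)⟩

/-- common eigenvector of two commuting linear relations -/
private theorem b17_eig {E : Type} [AddCommGroup E] [Module ℂ E] [Module.Finite ℂ E]
    (W : Submodule ℂ E) (hW : W ≠ ⊤) (R : Fin 2 → E → E → Prop) (hex : ∀ i ξ, ∃ η, R i ξ η)
    (hadd : ∀ i ξ η ξ' η', R i ξ η → R i ξ' η' → R i (ξ + ξ') (η + η'))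
    (hsmul : ∀ i (c : ℂ) ξ η, R i ξ η → R i (c • ξ) (c • η))
    (hW0 : ∀ i ξ η, ξ ∈ W → R i ξ η → η ∈ W) (hWa : ∀ i ξ η w, w ∈ W → R i ξ η → R i ξ (η + w))
    (hcomm : ∀ ξ a b c d, R 0 ξ a → R 1 a b → R 1 ξ c → R 0 c d → b - d ∈ W) :
    ∃ ξ, ξ ∉ W ∧ ∃ c : Fin 2 → ℂ, ∀ i, R i ξ (c i • ξ) := by
  choose g hg using hex
  have huniq : ∀ i ξ η η', R i ξ η → R i ξ η' → η - η' ∈ W := by
    intro i ξ η η' h1 h2
    have h3 := hadd i ξ η ((-1 : ℂ) • ξ) ((-1 : ℂ) • η') h1 (hsmul i (-1) ξ η' h2)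
    have h4 : ξ + (-1 : ℂ) • ξ = 0 := by rw [neg_one_smul, add_neg_cancel]
    have h5 := hW0 i _ _ (by rw [h4]; exact W.zero_mem) h3
    rwa [neg_one_smul, ← sub_eq_add_neg] at h5
  let φ0 : Fin 2 → E →ₗ[ℂ] (E ⧸ W) := fun i =>
    { toFun := fun ξ => W.mkQ (g i ξ)
      map_add' := by
        intro a b
        rw [← map_add, ← sub_eq_zero, ← map_sub, Submodule.mkQ_apply,
          Submodule.Quotient.mk_eq_zero]
        exact huniq i (a + b) _ _ (hg i (a + b)) (hadd i _ _ _ _ (hg i a) (hg i b))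
      map_smul' := by
        intro c a
        rw [RingHom.id_apply, ← map_smul, ← sub_eq_zero, ← map_sub, Submodule.mkQ_apply,
          Submodule.Quotient.mk_eq_zero]
        exact huniq i (c • a) _ _ (hg i (c • a)) (hsmul i _ _ _ (hg i a)) }
  have hφ0 : ∀ i ξ η, R i ξ η → φ0 i ξ = W.mkQ η := by
    intro i ξ η h
    change W.mkQ (g i ξ) = W.mkQ η
    rw [← sub_eq_zero, ← map_sub, Submodule.mkQ_apply, Submodule.Quotient.mk_eq_zero]
    exact huniq i ξ _ _ (hg i ξ) h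
  have hker : ∀ i, W ≤ LinearMap.ker (φ0 i) := by
    intro i ξ hξ
    rw [LinearMap.mem_ker]
    change W.mkQ (g i ξ) = 0
    rw [Submodule.mkQ_apply, Submodule.Quotient.mk_eq_zero]
    exact hW0 i ξ _ hξ (hg i ξ)
  let φ : Fin 2 → Module.End ℂ (E ⧸ W) := fun i => W.liftQ (φ0 i) (hker i)
  have hφ : ∀ i ξ η, R i ξ η → φ i (W.mkQ ξ) = W.mkQ η := by
    intro i ξ η h
    rw [← hφ0 i ξ η h]
    exact Submodule.liftQ_apply _ _ _
  have hc : ∀ q, φ 0 (φ 1 q) = φ 1 (φ 0 q) := by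
    intro q
    obtain ⟨ξ, rfl⟩ := W.mkQ_surjective q
    rw [hφ 1 ξ _ (hg 1 ξ), hφ 0 _ _ (hg 0 (g 1 ξ)), hφ 0 ξ _ (hg 0 ξ), hφ 1 _ _ (hg 1 (g 0 ξ))]
    symm
    rw [← sub_eq_zero, ← map_sub, Submodule.mkQ_apply, Submodule.Quotient.mk_eq_zero]
    exact hcomm ξ _ _ _ _ (hg 0 ξ) (hg 1 _) (hg 1 ξ) (hg 0 _)
  have hnt : Nontrivial (E ⧸ W) := Submodule.Quotient.nontrivial_iff.2 hW
  obtain ⟨c0, hc0⟩ := Module.End.exists_eigenvalue (φ 0)
  have hmt : ∀ q ∈ (φ 0).eigenspace c0, φ 1 q ∈ (φ 0).eigenspace c0 := by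
    intro q hq
    rw [Module.End.mem_eigenspace_iff] at hq ⊢
    rw [hc, hq, map_smul]
  have hnt2 : Nontrivial ((φ 0).eigenspace c0) := by
    rw [Submodule.nontrivial_iff_ne_bot]
    exact hc0
  obtain ⟨c1, hc1⟩ := Module.End.exists_eigenvalue ((φ 1).restrict hmt)
  obtain ⟨v, hv⟩ := hc1.exists_hasEigenvector
  have hv1 : φ 1 v.1 = c1 • v.1 := congrArg Subtype.val hv.apply_eq_smul
  have hv0 : φ 0 v.1 = c0 • v.1 := Module.End.mem_eigenspace_iff.1 v.2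
  have hvne : v.1 ≠ 0 := fun h => hv.2 (Subtype.ext h)
  obtain ⟨ξ, hξ⟩ := W.mkQ_surjective v.1
  refine ⟨ξ, ?_, ![c0, c1], ?_⟩
  · intro hmem
    apply hvne
    rw [← hξ, Submodule.mkQ_apply, Submodule.Quotient.mk_eq_zero]
    exact hmem
  · have key : ∀ i (c : ℂ), φ i v.1 = c • v.1 → R i ξ (c • ξ) := by
      intro i c h
      rw [← hξ, hφ i ξ _ (hg i ξ), ← map_smul, ← sub_eq_zero, ← map_sub, Submodule.mkQ_apply,
        Submodule.Quotient.mk_eq_zero] at h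
      have h2 := hWa i ξ (g i ξ) (c • ξ - g i ξ) (by
        have := W.neg_mem h
        rwa [neg_sub] at this) (hg i ξ)
      rwa [add_sub_cancel] at h2
    intro i
    fin_cases i
    · exact key 0 c0 hv0
    · exact key 1 c1 hv1

end aux17

theorem exists_bad_V (h : B1In θ σ u T) : ∃ m, ∃ ξ ∈ EE θ m, ¬ SV θ ξ := by
  obtain ⟨y0, hy⟩ := exists_y0 h
  obtain ⟨k, τ, l1, l2, hH⟩ := H_level h hy
  obtain ⟨D, hD⟩ := BS_large h.cy.fol.hom
  have hm : (fun j => emb 3 ℂ (lf y0) ^ D * τ j) ∈ EE (rs2 θ) (D + (k + 2)) := by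
    have h1 : (emb 3 ℂ (lf y0) ^ D : Pn 4).IsHomogeneous D := by
      have := (b17_emb_hom (b17_lf_hom y0)).pow D
      rwa [one_mul] at this
    exact b17_EE_mul h1 hH.mem
  obtain ⟨ξ, hξ, hr⟩ := lift_of_sat (n := 4) (by norm_num) h.cy.fol.hom h.cy.fol.dec h.folH.prim
    h.hzV (k := D + (k + 2)) (fun b hb => hD _ (by omega) b hb) hm
  refine ⟨D + (k + 2), ξ, hξ, fun hS => ?_⟩
  have h1 : SH θ (fun j => emb 3 ℂ (lf y0) ^ D * τ j) :=
    b17_SH_congr (SV_res hS) (fun j => (hr j).symm)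
  refine plane_nosat h hy (D + k) (b17_SP_congr (SH_res h1) (fun j => ?_))
  have h2 : res (fun j => emb 3 ℂ (lf y0) ^ D * τ j) j = lf y0 ^ D * res τ j := by
    unfold Pool.Agent.Helper71.FL.res
    rw [map_mul, map_pow, b17_at0_emb]
  rw [h2, hH.rs j, pow_add]
  ring

/-- output of the level `V` -/
structure VLev (θ : F2 5) (u : Fin 3 → ℂ) (k : ℕ) (τ : F1 5) (l1 l2 : Fin 5 → ℂ) : Prop where
  k2 : 2 ≤ k
  mem : τ ∈ EE θ (k + 2)
  nSV : ¬ SV θ τ
  low : ∀ m < k + 2, ∀ ξ ∈ EE θ m, SV θ ξ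
  ind : LinearIndependent ℂ ![fun l : Fin 3 => l1 l.succ.succ, fun l => l2 l.succ.succ]
  u1 : ∑ l : Fin 3, l1 l.succ.succ * u l = 0
  u2 : ∑ l : Fin 3, l2 l.succ.succ * u l = 0
  m1 : SV θ (fun j => lf l1 * τ j)
  m2 : SV θ (fun j => lf l2 * τ j)

/-- the forms of degree `k` in the span of the `a_v` -/
private def b17W (θ : F2 5) (k : ℕ) : Submodule ℂ (EE θ k) where
  carrier := {ξ | SV θ ξ.1}
  add_mem' := by
    intro a b ha hb
    exact b17_SV_congr (SV.add ha hb) (fun j => rfl)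
  zero_mem' := SV.zero
  smul_mem' := by
    intro c a ha
    exact b17_SV_congr (SV.mul ha (C c)) (fun j => smul_eq_C_mul _ _)

theorem V_level (h : B1In θ σ u T) : ∃ (k : ℕ) (τ : F1 5) (l1 l2 : Fin 5 → ℂ), VLev θ u k τ l1 l2 := by
  classical
  obtain ⟨y0, hy⟩ := exists_y0 h
  obtain ⟨kH, τH, l1, l2, hH⟩ := H_level h hy
  have hex := exists_bad_V h
  obtain ⟨n0, hn0⟩ : ∃ n0, n0 = Nat.find hex := ⟨_, rfl⟩
  have hbad : ∃ ξ ∈ EE θ n0, ¬ SV θ ξ := by rw [hn0]; exact Nat.find_spec hex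
  have hlow : ∀ m < n0, ∀ ξ ∈ EE θ m, SV θ ξ := by
    intro m hm ξ hξ
    by_contra hS
    rw [hn0] at hm
    exact Nat.find_min hex hm ⟨ξ, hξ, hS⟩
  have hn4 : 4 ≤ n0 := by
    obtain ⟨ξ, hξ, hS⟩ := hbad
    by_contra hlt
    have hcases : n0 = 0 ∨ n0 = 1 ∨ n0 = 2 ∨ n0 = 3 := by omega
    rcases hcases with rfl | rfl | rfl | rfl
    · rw [h.cy.e0, Submodule.mem_bot] at hξ
      exact hS (hξ ▸ SV.zero)
    · rw [h.cy.e1, Submodule.mem_bot] at hξ
      exact hS (hξ ▸ SV.zero)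
    · rw [h.cy.e2, Submodule.mem_bot] at hξ
      exact hS (hξ ▸ SV.zero)
    · obtain ⟨v, hv⟩ := h.e3V ξ hξ
      exact hS (hv ▸ SV_av v)
  obtain ⟨k, rfl⟩ : ∃ k, n0 = k + 2 := ⟨n0 - 2, by omega⟩
  obtain ⟨ξ0, hξ0, hS0⟩ := hbad
  -- multiplication by a linear form
  have hres : ∀ (l : Fin 4 → ℂ), SH θ (fun j => lf l * τH j) → ∀ ξ ∈ EE θ (k + 2),
      SH θ (fun j => lf l * res ξ j) := by
    intro l hl ξ hξ
    have h1 := res_mem_EE hξ
    rcases Nat.lt_or_ge (k + 2) (kH + 2) with hlt | hge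
    · exact (hH.low _ hlt _ h1).mul (lf l)
    · obtain ⟨m, hm⟩ : ∃ m, k + 2 = kH + 2 + m := ⟨k - kH, by omega⟩
      rw [hm] at h1
      obtain ⟨f, -, hf⟩ := hH.gen m _ h1
      refine b17_SH_congr ((hf.mul (lf l)).add (hl.mul f)) (fun j => ?_)
      ring
  have hstep : ∀ (l : Fin 4 → ℂ), SH θ (fun j => lf l * τH j) → ∀ ξ ∈ EE θ (k + 2),
      ∃ η ∈ EE θ (k + 2), SV θ (fun j => emb 4 ℂ (lf l) * ξ j - X 0 * η j) := by
    intro l hl ξ hξ
    have h1 : (fun j => emb 4 ℂ (lf l) * ξ j) ∈ EE θ (k + 2 + 1) := by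
      have h2 := b17_EE_mul (b17_emb_hom (b17_lf_hom l)) hξ
      rw [add_comm 1 (k + 2)] at h2
      exact h2
    have h3 : SH θ (res (fun j => emb 4 ℂ (lf l) * ξ j)) := by
      refine b17_SH_congr (hres l hl ξ hξ) (fun j => ?_)
      unfold Pool.Agent.Helper71.FL.res
      rw [map_mul, b17_at0_emb]
    obtain ⟨ζ, η, h4, h5, h6⟩ := stepV h h1 h3
    refine ⟨η, h5, b17_SV_congr h4 (fun j => ?_)⟩
    linear_combination h6 j
  obtain ⟨L, hL⟩ : ∃ L : Fin 2 → Fin 4 → ℂ, L = ![l1, l2] := ⟨_, rfl⟩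
  have hLm : ∀ i, SH θ (fun j => lf (L i) * τH j) := by
    intro i
    fin_cases i
    · rw [hL]; exact hH.m1
    · rw [hL]; exact hH.m2
  have hfin := finite_EE θ (k + 2)
  obtain ⟨τ, hτ1, c, hτ2⟩ := b17_eig (E := EE θ (k + 2)) (b17W θ (k + 2))
    (by
      intro htop
      have : (⟨ξ0, hξ0⟩ : EE θ (k + 2)) ∈ b17W θ (k + 2) := by rw [htop]; trivial
      exact hS0 this)
    (fun i ξ η => SV θ (fun j => emb 4 ℂ (lf (L i)) * ξ.1 j - X 0 * η.1 j))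
    (by
      intro i ξ
      obtain ⟨η, hη, h1⟩ := hstep (L i) (hLm i) ξ.1 ξ.2
      exact ⟨⟨η, hη⟩, h1⟩)
    (by
      intro i ξ η ξ' η' h1 h2
      refine b17_SV_congr (SV.add h1 h2) (fun j => ?_)
      simp only [Submodule.coe_add, Pi.add_apply]
      ring)
    (by
      intro i c ξ η h1
      refine b17_SV_congr (SV.mul h1 (C c)) (fun j => ?_)
      simp only [Submodule.coe_smul, Pi.smul_apply, smul_eq_C_mul]
      ring)
    (by
      intro i ξ η hξ h1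
      apply nzdV h
      refine b17_SV_congr ((SV.mul hξ (emb 4 ℂ (lf (L i)))).add (SV.mul h1 (-1))) (fun j => ?_)
      ring)
    (by
      intro i ξ η w hw h1
      refine b17_SV_congr (SV.add h1 (SV.mul hw (-X 0))) (fun j => ?_)
      simp only [Submodule.coe_add, Pi.add_apply]
      ring)
    (by
      intro ξ a b c d h1 h2 h3 h4
      have h5 : SV θ (fun j => X 0 * (X 0 * (b.1 j - d.1 j))) := by
        refine b17_SV_congr (((SV.mul h1 (-emb 4 ℂ (lf (L 1)))).add (SV.mul h2 (-X 0))).add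
          ((SV.mul h3 (emb 4 ℂ (lf (L 0)))).add (SV.mul h4 (X 0)))) (fun j => ?_)
        ring
      exact nzdV h (nzdV h h5))
  have hfin : ∀ i, SV θ (fun j => lf (Fin.cons (-c i) (L i) : Fin 5 → ℂ) * τ.1 j) := by
    intro i
    refine b17_SV_congr (hτ2 i) (fun j => ?_)
    rw [b17_lf_cons, C_neg]
    simp only [Submodule.coe_smul, Pi.smul_apply, smul_eq_C_mul]
    ring
  have hL0 : L 0 = l1 := by rw [hL]; rfl
  have hL1 : L 1 = l2 := by rw [hL]; rfl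
  have hf0 := hfin 0
  have hf1 := hfin 1
  rw [hL0] at hf0
  rw [hL1] at hf1
  exact ⟨k, τ.1, Fin.cons (-c 0) l1, Fin.cons (-c 1) l2,
    ⟨by omega, τ.2, hτ1, hlow, by simpa only [Fin.cons_succ] using hH.ind,
      by simpa only [Fin.cons_succ] using hH.u1, by simpa only [Fin.cons_succ] using hH.u2,
      hf0, hf1⟩⟩

end Pool.Agent.Helper34.B1
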